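import Pool.Agent.MP_434e52_an.TF.Defs

/-! Torsion-free twins: row Ang. Angles between the fixed spaces of infinite root groups. -/

set_option autoImplicit false

namespace Pool.Agent.MP_434e52_an.TF

open Matrix Filter Topology MeasureTheory NL

variable {G : Type} [Group G] {E : Type} [NormedAddCommGroup E] [InnerProductSpace ℂ E] [CompleteSpace E]
  {π : G →* (E →L[ℂ] E)}

theorem ang_le_Ang {p q z : E →L[ℂ] E} (hp : IsStarProjection p) (hq : IsStarProjection q)
    (hz : IsStarProjection z) (zp : Commute z p) (zq : Commute z q)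
    (h1 : ∀ v, p (q (z v)) = q (p (z v))) {e : ℝ} (he : 0 ≤ e) (he1 : e ≤ 1)
    (h2 : ∀ w, z w = 0 → ‖q (p w)‖ ≤ e * ‖p w‖) : Ang e p q := by
  intro v
  have e1 : ∀ {a : E →L[ℂ] E}, Commute z a → z (v - a v) = z v - a (z v) := fun h => by
    rw [map_sub, cm_ap h]
  have e2 : ∀ {a : E →L[ℂ] E}, Commute z a →
      v - a v - (z v - a (z v)) = (v - z v) - a (v - z v) := fun _ => by
    rw [map_sub]; abel
  rw [pr_split hz, pr_sq hz (v - p v), pr_sq hz (v - q v), e1 zp, e1 zq, e2 zp, e2 zq]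
  have hw : z (v - z v) = 0 := by rw [map_sub, pr_pr hz, sub_self]
  generalize v - z v = w at hw
  have a1 : 0 ≤ ri (z v - p (z v)) (z v - q (z v)) := by
    have h0 := pr_ri hq.one_sub ((1 - p) (z v)) ((1 - q) ((1 - p) (z v)))
    have h3 : (1 - q) ((1 - p) (z v)) = (1 - p) ((1 - q) (z v)) := by
      change z v - p (z v) - q (z v - p (z v)) = z v - q (z v) - p (z v - q (z v))
      rw [map_sub, map_sub, h1]
      abel
    rw [pr_pr hq.one_sub] at h0
    have h4 := ri_nonneg ((1 - q) ((1 - p) (z v)))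
    rw [h0, h3, ← pr_ri hp.one_sub, pr_pr hp.one_sub] at h4
    exact h4
  have a2 : 0 ≤ 2 * ri (w - p w) (w - q w) + e * (‖w - p w‖ ^ 2 + ‖w - q w‖ ^ 2) := by
    have b1 := h2 w hw
    have b2 : ri (p w) (q w) ≤ e * ‖p w‖ * ‖q w‖ := by
      rw [← pr_pr hq w, ← pr_ri hq, pr_pr hq]
      exact (ri_le _ _).trans (mul_le_mul_of_nonneg_right b1 (norm_nonneg _))
    have b4 : 0 ≤ e * (‖p w‖ ^ 2 + ‖q w‖ ^ 2) - 2 * ri (p w) (q w) := by
      linarith only [mul_nonneg he (sq_nonneg (‖p w‖ - ‖q w‖)), b2]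
    have b5 := mul_nonneg (sub_nonneg.2 he1) b4
    have b3 := ri_nonneg (((1 + e : ℝ) : ℂ) • w - (p w + q w))
    have c1 : ri w (p w) = ri (p w) (p w) := by rw [pr_ri hp, pr_pr hp]
    have c2 : ri w (q w) = ri (q w) (q w) := by rw [pr_ri hq, pr_pr hq]
    simp only [← ri_self] at b5 ⊢
    simp only [ri_sub, sub_ri, ri_add, add_ri, ri_smul, smul_ri, ri_comm (p w) w, ri_comm (q w) w,
      ri_comm (q w) (p w), c1, c2] at b3 ⊢
    refine nonneg_of_mul_nonneg_right (a := 1 + e) ?_ (by linarith only [he])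
    linarith only [b5, b3]
  have := mul_nonneg he (add_nonneg (sq_nonneg ‖z v - p (z v)‖) (sq_nonneg ‖z v - q (z v)‖))
  linarith

theorem comm_Ang {P T : E →L[ℂ] E} (hP : IsStarProjection P) (h1 : ∀ v, P v = v → P (T v) = T v)
    (h2 : ∀ v, P v = v → P (star T v) = star T v) : Commute T P := by
  have e1 : P * T * P = T * P := ContinuousLinearMap.ext fun v => h1 _ (pr_pr hP v)
  have e2 : P * star T * P = star T * P := ContinuousLinearMap.ext fun v => h2 _ (pr_pr hP v)
  have e3 := congrArg star e2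
  simp only [star_mul, star_star, hP.isSelfAdjoint.star_eq] at e3
  rw [← mul_assoc, e1] at e3
  exact e3

omit [CompleteSpace E] in
theorem ap_Ang (g h : G) (v : E) : π (g * h) v = π g (π h v) := by rw [map_mul]; rfl

theorem fix_Ang {A : Type} {x : A → G} {p : E →L[ℂ] E} (hp : IsFix π x p) (a : A) (v : E) :
    π (x a) (p v) = p v := (hp.2 _).1 (pr_pr hp.1 v) a

theorem abs_Ang (hu : ∀ g, π g ∈ unitary (E →L[ℂ] E)) {A : Type} {x : A → G} {p : E →L[ℂ] E}
    (hp : IsFix π x p) (a : A) (v : E) : p (π (x a) v) = p v := by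
  have e1 : π (x a) * p = p := ContinuousLinearMap.ext fun v => fix_Ang hp a v
  have e2 := congrArg star e1
  rw [star_mul, hp.1.isSelfAdjoint.star_eq, un_star hu] at e2
  have e3 : p (π (x a)⁻¹ (π (x a) v)) = p (π (x a) v) :=
    congrArg (fun T : E →L[ℂ] E => T (π (x a) v)) e2
  rw [← e3, ← ap_Ang, inv_mul_cancel, map_one]
  rfl

theorem cm_Ang (hu : ∀ g, π g ∈ unitary (E →L[ℂ] E)) {A : Type} {x : A → G} {p : E →L[ℂ] E}
    (hp : IsFix π x p) {g : G} (h : ∀ a, g * x a = x a * g) : Commute (π g) p := by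
  have k : ∀ g : G, (∀ a, g * x a = x a * g) → ∀ v, p v = v → p (π g v) = π g v :=
    fun g h v hv => (hp.2 _).2 fun a => by rw [← ap_Ang, ← h, ap_Ang, (hp.2 _).1 hv a]
  refine comm_Ang hp.1 (k g h) ?_
  rw [un_star hu]
  exact k _ fun a => (Commute.inv_left (h a)).eq

theorem pc_Ang {A : Type} {x : A → G} {p P : E →L[ℂ] E} (hp : IsFix π x p)
    (hP : IsStarProjection P) (h : ∀ a, Commute (π (x a)) P) : Commute P p := by
  have k : ∀ v, p v = v → p (P v) = P v :=
    fun v hv => (hp.2 _).2 fun a => by rw [cm_ap (h a), (hp.2 _).1 hv a]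
  refine comm_Ang hp.1 k ?_
  rw [hP.isSelfAdjoint.star_eq]
  exact k

theorem exists_fix (hu : ∀ g, π g ∈ unitary (E →L[ℂ] E)) {A : Type} (x : A → G) :
    ∃ p, IsFix π x p := by
  have _ := hu
  let K : Submodule ℂ E :=
    { carrier := {v | ∀ a, π (x a) v = v}
      add_mem' := fun h1 h2 a => by rw [map_add, h1 a, h2 a]
      zero_mem' := fun a => map_zero _
      smul_mem' := fun c v h a => by rw [map_smul, h a] }
  have hK : IsClosed (K : Set E) := by
    have : (K : Set E) = ⋂ a, {v | π (x a) v = v} := Set.ext fun v => by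
      rw [Set.mem_iInter]; rfl
    rw [this]
    exact isClosed_iInter fun a => isClosed_eq (π (x a)).continuous continuous_id
  have : CompleteSpace K := hK.completeSpace_coe
  exact ⟨K.starProjection, isStarProjection_starProjection,
    fun v => Submodule.starProjection_eq_self_iff⟩

theorem IsFix.near (hu : ∀ g, π g ∈ unitary (E →L[ℂ] E)) {A : Type} [AddCommGroup A] {x : A → G}
    (hx : ∀ a b, x (a + b) = x a * x b) {p : E →L[ℂ] E} (hp : IsFix π x p) {v : E} {d : ℝ}
    (h : ∀ a, ‖π (x a) v - v‖ ≤ d) : ‖v - p v‖ ≤ d := by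
  let f : Multiplicative A →* G := MonoidHom.mk' (fun a => x a.toAdd) fun a b => hx _ _
  obtain ⟨w, h1, h2⟩ := fixed_near (π := π.comp f) (fun g => hu _) (η := v) (c := d) fun g => h _
  have h3 : p w = w := (hp.2 w).2 fun a => h1 (Multiplicative.ofAdd a)
  have h4 := pr_sq hp.1 (w - v)
  have h5 : w - v - p (w - v) = -(v - p v) := by rw [map_sub, h3]; abel
  rw [h5, norm_neg] at h4
  refine le_trans (abs_le_of_sq_le_sq' ?_ (norm_nonneg _)).2 h2
  linarith only [h4, sq_nonneg ‖p (w - v)‖]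

theorem ang_heis (hu : ∀ g, π g ∈ unitary (E →L[ℂ] E)) {O : Type} [CommRing O] {x y z : O → G}
    (hx : ∀ a b, x (a + b) = x a * x b) (hy : ∀ a b, y (a + b) = y a * y b)
    (hz : ∀ a b, z (a + b) = z a * z b) (zx : ∀ a c, z c * x a = x a * z c)
    (zy : ∀ b c, z c * y b = y b * z c) (hr : ∀ a b, x a * y b = y b * x a * z (a * b))
    {s : Fin 8 → O} (hs : ∀ i j, i ≠ j → IsUnit (s i - s j)) {p q : E →L[ℂ] E}
    (hp : IsFix π x p) (hq : IsFix π y q) : Ang (3 / 8) p q := by
  have _ := hz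
  obtain ⟨r, hf⟩ := exists_fix hu z
  have zp : ∀ c, Commute (π (z c)) p := fun c => cm_Ang hu hp fun a => zx a c
  have zq : ∀ c, Commute (π (z c)) q := fun c => cm_Ang hu hq fun a => zy a c
  have rp : Commute r p := (pc_Ang hf hp.1 zp).symm
  have rq : Commute r q := (pc_Ang hf hq.1 zq).symm
  have xr : ∀ a, Commute (π (x a)) r := fun a => cm_Ang hu hf fun c => (zx a c).symm
  have yr : ∀ a, Commute (π (y a)) r := fun a => cm_Ang hu hf fun c => (zy a c).symm
  have ng : ∀ {x : O → G}, (∀ a b, x (a + b) = x a * x b) → ∀ a, (x a)⁻¹ = x (-a) :=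
    fun hx a => inv_eq_of_mul_eq_one_right (by rw [← hx, add_neg_cancel, hx_zero hx])
  refine ang_le_Ang hp.1 hq.1 hf.1 rp rq (fun v => ?_) (by norm_num) (by norm_num) fun w hw => ?_
  · have k : ∀ a v, (q * r) v = v → (q * r) (π (x a) v) = π (x a) v := fun a v hv => by
      have hv : q (r v) = v := hv
      have h1 : q v = v := by rw [← hv, pr_pr hq.1]
      have h2 : r v = v := by rw [← hv, cm_ap rq, pr_pr hf.1]
      change q (r (π (x a) v)) = _
      rw [← cm_ap (xr a), h2]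
      refine (hq.2 _).2 fun b => ?_
      have h3 := congrArg (fun g => π g v) (hr a b)
      simp only [ap_Ang, (hq.2 _).1 h1 b, (hf.2 _).1 h2 (a * b)] at h3
      exact h3.symm
    have qr := hq.1.mul hf.1 rq.symm
    have c := pc_Ang hp qr fun a => comm_Ang qr (k a) (by rw [un_star hu, ng hx]; exact k _)
    have h1 : q (r (p v)) = p (q (r v)) := cm_ap c v
    rw [← h1, cm_ap rp]
  · have h0 : r (p w) = 0 := by rw [cm_ap rp, hw, map_zero]
    have h1 := pr_pr hp.1 w
    generalize p w = u at h0 h1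
    have k : ∀ b, IsUnit b → p (π (y b) u) = 0 := fun b hb => by
      have h2 : r (p (π (y b) u)) = p (π (y b) u) := (hf.2 _).2 fun c => by
        obtain ⟨a, rfl⟩ := hb.dvd (a := c)
        have h3 := congrArg (fun g => p (π g u)) (hr a b)
        simp only [ap_Ang] at h3
        rw [abs_Ang hu hp, ← ap_Ang (x a), ← zx, ap_Ang, (hp.2 _).1 h1 a, ← ap_Ang, ← zy, ap_Ang,
          ← cm_ap (zp _), mul_comm a b] at h3
        exact h3.symm
      rw [← h2, cm_ap rp, ← cm_ap (yr b), h0, map_zero, map_zero]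
    have o : ∀ i j, i ≠ j → inner ℂ (π (y (s i)) u) (π (y (s j)) u) = 0 := fun i j hij => by
      rw [← ContinuousLinearMap.adjoint_inner_right, ← ContinuousLinearMap.star_eq_adjoint,
        un_star hu, ng hy, ← ap_Ang, ← hy, neg_add_eq_sub, ← h1,
        ← ContinuousLinearMap.adjoint_inner_right, ← ContinuousLinearMap.star_eq_adjoint,
        hp.1.isSelfAdjoint.star_eq, h1, k _ (hs j i hij.symm), inner_zero_right]
    have n1 : ‖∑ i, π (y (s i)) u‖ ^ 2 = 8 * ‖u‖ ^ 2 := by
      have : ∀ i, ∑ j, inner ℂ (π (y (s i)) u) (π (y (s j)) u) = ((‖u‖ ^ 2 : ℝ) : ℂ) := fun i => by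
        rw [Finset.sum_eq_single i (fun j _ h => o i j h.symm) (by simp), inner_self_eq_norm_sq_to_K,
          un_norm hu]
        simp
      rw [← ri_self, ri, sum_inner]
      simp only [inner_sum, this]
      simp [← Complex.ofReal_pow]
    have n2 : q (∑ i, π (y (s i)) u) = (8 : ℂ) • q u := by
      rw [map_sum]
      simp only [abs_Ang hu hq]
      rw [Finset.sum_const, Finset.card_fin, ← Nat.cast_smul_eq_nsmul ℂ]
      norm_num
    have n3 := pr_sq hq.1 (∑ i, π (y (s i)) u)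
    rw [n1, n2, norm_smul, mul_pow] at n3
    have n4 : ‖(8 : ℂ)‖ = 8 := by simp
    rw [n4] at n3
    refine (abs_le_of_sq_le_sq' ?_ (by positivity)).2
    linarith only [n3, sq_nonneg ‖∑ i, π (y (s i)) u - (8 : ℂ) • q u‖, sq_nonneg ‖u‖,
      mul_pow (3 / 8 : ℝ) ‖u‖ 2]

end Pool.Agent.MP_434e52_an.TF
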