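import Pool.Agent.MP_434e52_an.TF.The

/-! Torsion-free twins: row Brg. From lattices to matrices. -/

set_option autoImplicit false

namespace Pool.Agent.MP_434e52_an.TF

open Matrix Filter Topology MeasureTheory NL

variable {V : Type} [AddCommGroup V] [Module.Free ℤ V] [Module.Finite ℤ V]

theorem two_dvd {v : V} (h : ∀ l : Module.Dual ℤ V, Even (l v)) : ∃ w, v = w + w := by
  let b := Module.Free.chooseBasis ℤ V
  choose r hr using fun i => h (b.coord i)
  refine ⟨b.equivFun.symm r, b.equivFun.injective ?_⟩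
  rw [map_add, LinearEquiv.apply_symm_apply]
  exact funext hr

omit [Module.Free ℤ V] [Module.Finite ℤ V] in
theorem par_brg {m : Type} [Fintype m] (b : Module.Basis m ℤ V)
    (B : Module.Dual ℤ V →ₗ[ℤ] Module.Dual ℤ V →ₗ[ℤ] ℤ) (hB : ∀ l m, B l m = B m l) (v : V) :
    (∀ l : Module.Dual ℤ V, Even (l v - B l l)) ↔
      ∀ i, Even (b.equivFun v i - B (b.coord i) (b.coord i)) := by
  classical
  refine ⟨fun h i => h (b.coord i), fun h l => ?_⟩
  have hl : l ∈ Submodule.span ℤ (Set.range b.coord) := by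
    rw [← b.coe_dualBasis, b.dualBasis.span_eq]
    trivial
  induction hl using Submodule.span_induction with
  | mem x hx =>
    obtain ⟨i, rfl⟩ := hx
    exact h i
  | zero => simp
  | add x y _ _ px py =>
    have e : (x + y) v - B (x + y) (x + y) = (x v - B x x) + (y v - B y y) - (B x y + B x y) := by
      simp only [map_add, LinearMap.add_apply, hB y x]
      ring
    rw [e]
    exact (px.add py).sub ⟨_, rfl⟩
  | smul n x _ px =>
    have e : (n • x) v - B (n • x) (n • x) = n * (x v - B x x) - n * (n - 1) * B x x := by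
      simp only [map_smul, LinearMap.smul_apply, smul_eq_mul]
      ring
    rw [e]
    exact (px.mul_left n).sub ((Int.even_mul_pred_self n).mul_right _)

theorem exists_par (B : Module.Dual ℤ V →ₗ[ℤ] Module.Dual ℤ V →ₗ[ℤ] ℤ)
    (hB : ∀ l m, B l m = B m l) : ∃ v : V, ∀ l : Module.Dual ℤ V, Even (l v - B l l) := by
  let b := Module.Free.chooseBasis ℤ V
  refine ⟨b.equivFun.symm fun i => B (b.coord i) (b.coord i), (par_brg b B hB _).2 fun i => ?_⟩
  rw [LinearEquiv.apply_symm_apply, sub_self]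
  exact Even.zero

omit [Module.Free ℤ V] [Module.Finite ℤ V] in
theorem aff_brg {m Q H : Type} [Fintype m] [DecidableEq m] [Group Q] [Group H]
    (b : Module.Basis m ℤ V) (ρ : Q →* Module.End ℤ V) (A : Q →* Matrix m m ℤ)
    (hA : ∀ g, A g = LinearMap.toMatrix b b (ρ g)) {c : Q → Module.Dual ℤ V → ℤ} {d : Q → m → ℤ}
    (hc : ∀ g v, (∀ l : Module.Dual ℤ V, Even (l v - c g l)) ↔
      ∀ i, Even (b.equivFun v i - d g i)) (M : Aff ρ c H) : Nonempty (AffM A d H) :=
  ⟨{ p := M.p
     w := fun x => b.equivFun (M.w x)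
     w_mul := fun x y => by
       rw [M.w_mul, map_add, hA]
       exact congrArg _ (LinearMap.toMatrix_mulVec_repr b b (ρ (M.p x)) (M.w y)).symm
     inj := fun x y h1 h2 => M.inj x y h1 (b.equivFun.injective h2)
     rng := fun g v => by
       obtain ⟨u, rfl⟩ := b.equivFun.surjective v
       rw [← hc, ← M.rng]
       simp only [b.equivFun.injective.eq_iff] }⟩

theorem vn_lat {Q H H' : Type} [Group Q] [Countable Q] [Group H] [Group H']
    (ρ : Q →* Module.End ℤ V) (β : Module.Dual ℤ V →ₗ[ℤ] Module.Dual ℤ V →ₗ[ℤ] ℤ)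
    (hs : ∀ g l m, Bf ρ β g l m = Bf ρ β g m l) (M : Aff ρ (fun _ _ => 0) H)
    (M' : Aff ρ (fun g l => Bf ρ β g l l) H') : VNIso H H' := by
  classical
  let b := Module.Free.chooseBasis ℤ V
  let A : Q →* Matrix _ _ ℤ :=
    { toFun := fun g => LinearMap.toMatrix b b (ρ g)
      map_one' := by rw [map_one, LinearMap.toMatrix_one]
      map_mul' := fun g h => by rw [map_mul, LinearMap.toMatrix_mul] }
  let γ : Matrix _ _ ℤ := Matrix.of fun i j => β (b.coord i) (b.coord j)
  have e1 : ∀ g i, b.coord i ∘ₗ ρ g = ∑ k, A g i k • b.coord k := fun g i =>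
    b.ext fun j => by
      simp [A, LinearMap.toMatrix_apply, Finsupp.single_apply]
  have e2 : ∀ g i j, (A g * γ * (A g)ᵀ - γ) i j = Bf ρ β g (b.coord i) (b.coord j) :=
    fun g i j => by
      rw [Bf, e1, e1]
      simp only [Matrix.sub_apply, Matrix.mul_apply, Matrix.transpose_apply, map_sum, map_smul,
        LinearMap.sum_apply, LinearMap.smul_apply, smul_eq_mul, γ, Matrix.of_apply]
      congr 1
      exact Finset.sum_congr rfl fun k _ => mul_comm _ _
  obtain ⟨N⟩ := aff_brg b ρ A (fun _ => rfl) (d := fun _ _ => 0)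
    (fun _ v => par_brg b 0 (fun _ _ => rfl) v) M
  obtain ⟨N'⟩ := aff_brg b ρ A (fun _ => rfl) (d := fun g i => (A g * γ * (A g)ᵀ - γ) i i)
    (fun g v => by
      simp only [e2]
      exact par_brg b (β.compl₁₂ (ρ g).dualMap (ρ g).dualMap - β) (hs g) v) M'
  exact vn_mat A γ (fun g => Matrix.IsSymm.ext fun i j => by rw [e2, e2, hs]) N N'

end Pool.Agent.MP_434e52_an.TF
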