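import Pool.Agent.MP_434e52_an.TF.Gel

/-! Torsion-free twins: row Bur. Relative property (T) of the plane lattice. -/

set_option autoImplicit false

namespace Pool.Agent.MP_434e52_an.TF

open Matrix Filter Topology MeasureTheory NL

noncomputable section

section

variable {E : Type} [NormedAddCommGroup E] [InnerProductSpace ℂ E] [CompleteSpace E]
  {X : Type} [TopologicalSpace X] (Φ : C(X, ℂ) →⋆ₐ[ℂ] (E →L[ℂ] E))

/-- A real function as a complex one. -/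
def cxBur (u : C(X, ℝ)) : C(X, ℂ) := ⟨fun x => (u x : ℂ), by fun_prop⟩

/-- The squared modulus. -/
def nsBur (p : C(X, ℂ)) : C(X, ℝ) := ⟨fun x => ‖p x‖ ^ 2, by fun_prop⟩

/-- The vector state on real functions. -/
def omBur (v : E) (u : C(X, ℝ)) : ℝ := ri v (Φ (cxBur u) v)

theorem cx_ns_Bur (p : C(X, ℂ)) : cxBur (nsBur p) = star p * p := by
  ext x
  change (((‖p x‖ ^ 2 : ℝ)) : ℂ) = star (p x) * p x
  rw [Complex.star_def, Complex.conj_mul']
  push_cast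
  rfl

theorem om_ns_Bur (v : E) (p : C(X, ℂ)) : omBur Φ v (nsBur p) = ‖Φ p v‖ ^ 2 := by
  unfold omBur
  rw [cx_ns_Bur, map_mul, map_star, ← ri_self]
  unfold ri
  rw [ContinuousLinearMap.star_eq_adjoint, mul_apply_eq_comp,
    ContinuousLinearMap.adjoint_inner_right]

theorem om_add_Bur (v : E) (u w : C(X, ℝ)) : omBur Φ v (u + w) = omBur Φ v u + omBur Φ v w := by
  have : cxBur (u + w) = cxBur u + cxBur w := by
    ext x
    exact Complex.ofReal_add _ _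
  unfold omBur
  rw [this, map_add, _root_.add_apply, ri_add]

theorem om_smul_Bur (v : E) (c : ℝ) (u : C(X, ℝ)) : omBur Φ v (c • u) = c * omBur Φ v u := by
  have : cxBur (c • u) = (c : ℂ) • cxBur u := by
    ext x
    exact Complex.ofReal_mul _ _
  unfold omBur
  rw [this, map_smul, _root_.smul_apply, ri_smul]

theorem om_one_Bur (v : E) : omBur Φ v 1 = ‖v‖ ^ 2 := by
  have : cxBur (1 : C(X, ℝ)) = 1 := by
    ext x
    exact Complex.ofReal_one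
  unfold omBur
  rw [this, map_one, one_apply_eq_self, ri_self]

theorem om_mono_Bur (v : E) {u w : C(X, ℝ)} (h : ∀ x, u x ≤ w x) : omBur Φ v u ≤ omBur Φ v w := by
  let k : C(X, ℝ) := ⟨fun x => Real.sqrt (w x - u x), by fun_prop⟩
  have e : w = u + nsBur (cxBur k) := by
    ext x
    change w x = u x + ‖((Real.sqrt (w x - u x) : ℝ) : ℂ)‖ ^ 2
    rw [Complex.norm_real, Real.norm_eq_abs, sq_abs, Real.sq_sqrt (sub_nonneg.2 (h x))]
    ring
  rw [e, om_add_Bur, om_ns_Bur]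
  exact le_add_of_nonneg_right (sq_nonneg _)

theorem nrm_Bur {u : C(X, ℝ)} (h0 : ∀ x, 0 ≤ u x) (h1 : ∀ x, u x ≤ 1) (w : E) :
    ‖Φ (cxBur u) w‖ ≤ ‖w‖ := by
  refine (abs_le_of_sq_le_sq' ?_ (norm_nonneg _)).2
  rw [← om_ns_Bur, ← om_one_Bur Φ]
  refine om_mono_Bur Φ w fun x => ?_
  change ‖((u x : ℝ) : ℂ)‖ ^ 2 ≤ 1
  rw [Complex.norm_real, Real.norm_eq_abs, sq_abs]
  nlinarith [h0 x, h1 x]

/-- Intertwined functions. -/
def RelBur (U : E →L[ℂ] E) (F F' : C(X, ℂ)) : Prop := U * Φ F = Φ F' * U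

variable {Φ}

theorem rel_mul_Bur {U : E →L[ℂ] E} {F F' K K' : C(X, ℂ)} (h : RelBur Φ U F F')
    (k : RelBur Φ U K K') : RelBur Φ U (F * K) (F' * K') := by
  unfold RelBur at *
  rw [map_mul, map_mul, ← mul_assoc, h, mul_assoc, k, mul_assoc]

theorem rel_add_Bur {U : E →L[ℂ] E} {F F' K K' : C(X, ℂ)} (h : RelBur Φ U F F')
    (k : RelBur Φ U K K') : RelBur Φ U (F + K) (F' + K') := by
  unfold RelBur at *
  rw [map_add, map_add, mul_add, add_mul, h, k]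

theorem rel_sub_Bur {U : E →L[ℂ] E} {F F' : C(X, ℂ)} (h : RelBur Φ U F F') :
    RelBur Φ U (1 - F) (1 - F') := by
  unfold RelBur at *
  rw [map_sub, map_sub, map_one, mul_sub, sub_mul, h, mul_one, one_mul]

theorem rel_const_Bur (U : E →L[ℂ] E) (c : ℂ) : RelBur Φ U (c • 1) (c • 1) := by
  unfold RelBur
  rw [map_smul, map_one, mul_smul_comm, smul_mul_assoc, mul_one, one_mul]

theorem rel_symm_Bur {U : E →L[ℂ] E} (hU : U ∈ unitary (E →L[ℂ] E)) {F F' : C(X, ℂ)}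
    (h : RelBur Φ U F F') : RelBur Φ (star U) F' F := by
  unfold RelBur at *
  calc star U * Φ F' = star U * (Φ F' * U) * star U := by
        rw [mul_assoc, mul_assoc, Unitary.mul_star_self_of_mem hU, mul_one]
    _ = Φ F * star U := by
        rw [← h, ← mul_assoc, Unitary.star_mul_self_of_mem hU, one_mul]

theorem rel_star_Bur {U : E →L[ℂ] E} (hU : U ∈ unitary (E →L[ℂ] E)) {F F' : C(X, ℂ)}
    (h : RelBur Φ U F F') : RelBur Φ U (star F) (star F') := by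
  have := congrArg star (rel_symm_Bur hU h)
  unfold RelBur
  rw [star_mul, star_mul, star_star] at this
  rw [map_star, map_star, this]

theorem rel_comp_Bur {U U' : E →L[ℂ] E} {F F' F'' : C(X, ℂ)} (h : RelBur Φ U F F')
    (k : RelBur Φ U' F' F'') : RelBur Φ (U' * U) F F'' := by
  unfold RelBur at *
  rw [mul_assoc, h, ← mul_assoc, k, mul_assoc]

/-- The test function. -/
def KBur {η : ℝ} (hη : 0 < η) (p q : C(X, ℂ)) : C(X, ℝ) :=
  ⟨fun x => ‖1 - p x‖ ^ 2 / (‖1 - p x‖ ^ 2 + ‖1 - q x‖ ^ 2 + η),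
    Continuous.div (by fun_prop) (by fun_prop) fun x => by positivity⟩

/-- The denominator of the test function. -/
def DBur (η : ℝ) (p q : C(X, ℂ)) : C(X, ℂ) :=
  star (1 - p) * (1 - p) + star (1 - q) * (1 - q) + (η : ℂ) • 1

theorem D_ap_Bur (η : ℝ) (p q : C(X, ℂ)) (x : X) :
    DBur η p q x = ((‖1 - p x‖ ^ 2 + ‖1 - q x‖ ^ 2 + η : ℝ) : ℂ) := by
  unfold DBur
  rw [← cx_ns_Bur, ← cx_ns_Bur]
  change (((‖1 - p x‖ ^ 2 : ℝ)) : ℂ) + (((‖1 - q x‖ ^ 2 : ℝ)) : ℂ) + (η : ℂ) * 1 = _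
  push_cast
  ring

theorem K_D_Bur {η : ℝ} (hη : 0 < η) (p q : C(X, ℂ)) :
    cxBur (KBur hη p q) * DBur η p q = star (1 - p) * (1 - p) := by
  ext x
  rw [ContinuousMap.mul_apply, D_ap_Bur, ← cx_ns_Bur]
  change ((‖1 - p x‖ ^ 2 / (‖1 - p x‖ ^ 2 + ‖1 - q x‖ ^ 2 + η) : ℝ) : ℂ) * _ =
    (((‖1 - p x‖ ^ 2 : ℝ)) : ℂ)
  rw [← Complex.ofReal_mul, div_mul_cancel₀ _ (by positivity)]

theorem D_inv_Bur {η : ℝ} (hη : 0 < η) (p q : C(X, ℂ)) : ∃ I : C(X, ℂ), DBur η p q * I = 1 := by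
  refine ⟨cxBur ⟨fun x => (‖1 - p x‖ ^ 2 + ‖1 - q x‖ ^ 2 + η)⁻¹,
    Continuous.inv₀ (by fun_prop) fun x => by positivity⟩, ?_⟩
  ext x
  rw [ContinuousMap.mul_apply, D_ap_Bur]
  change _ * (((‖1 - p x‖ ^ 2 + ‖1 - q x‖ ^ 2 + η)⁻¹ : ℝ) : ℂ) = 1
  rw [← Complex.ofReal_mul, mul_inv_cancel₀ (by positivity), Complex.ofReal_one]

theorem rel_K_Bur {U : E →L[ℂ] E} (hU : U ∈ unitary (E →L[ℂ] E)) {η : ℝ} (hη : 0 < η)
    {p q p' q' : C(X, ℂ)} (hp : RelBur Φ U p p') (hq : RelBur Φ U q q') :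
    RelBur Φ U (cxBur (KBur hη p q)) (cxBur (KBur hη p' q')) := by
  have n1 := rel_mul_Bur (rel_star_Bur hU (rel_sub_Bur hp)) (rel_sub_Bur hp)
  have n2 := rel_mul_Bur (rel_star_Bur hU (rel_sub_Bur hq)) (rel_sub_Bur hq)
  have d : RelBur Φ U (DBur η p q) (DBur η p' q') :=
    rel_add_Bur (rel_add_Bur n1 n2) (rel_const_Bur U η)
  obtain ⟨I, hI⟩ := D_inv_Bur hη p q
  rw [← K_D_Bur hη p q, ← K_D_Bur hη p' q'] at n1
  unfold RelBur at *
  rw [map_mul, map_mul, mul_assoc, ← d] at n1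
  have e : Φ (DBur η p q) * Φ I = 1 := by rw [← map_mul, hI, map_one]
  calc U * Φ (cxBur (KBur hη p q))
      = U * (Φ (cxBur (KBur hη p q)) * Φ (DBur η p q)) * Φ I := by
        rw [mul_assoc, mul_assoc, e, mul_one]
    _ = _ := by rw [n1, mul_assoc, mul_assoc, e, mul_one]

theorem K_mem_Bur {η : ℝ} (hη : 0 < η) (p q : C(X, ℂ)) (x : X) :
    0 ≤ KBur hη p q x ∧ KBur hη p q x ≤ 1 := by
  change 0 ≤ ‖1 - p x‖ ^ 2 / (‖1 - p x‖ ^ 2 + ‖1 - q x‖ ^ 2 + η) ∧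
    ‖1 - p x‖ ^ 2 / (‖1 - p x‖ ^ 2 + ‖1 - q x‖ ^ 2 + η) ≤ 1
  refine ⟨by positivity, (div_le_one (by positivity)).2 ?_⟩
  have := sq_nonneg ‖1 - q x‖
  linarith

theorem om_rel_Bur {U : E →L[ℂ] E} (hU : U ∈ unitary (E →L[ℂ] E)) {η : ℝ} (hη : 0 < η)
    {p q p' q' : C(X, ℂ)} (hp : RelBur Φ U p p') (hq : RelBur Φ U q q') {v : E} (hv : ‖v‖ = 1)
    {d : ℝ} (hd : ‖U v - v‖ ≤ d) :
    |omBur Φ v (KBur hη p q) - omBur Φ v (KBur hη p' q')| ≤ 2 * d := by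
  have h := rel_K_Bur hU hη hp hq
  have hn := nrm_Bur Φ (fun x => (K_mem_Bur hη p' q' x).1) (fun x => (K_mem_Bur hη p' q' x).2)
  unfold omBur
  unfold RelBur at h
  generalize Φ (cxBur (KBur hη p q)) = T at *
  generalize Φ (cxBur (KBur hη p' q')) = T' at *
  have e1 : ri v (T v) = ri (U v) (T' (U v)) := by
    have : T' (U v) = U (T v) := (congrArg (fun S : E →L[ℂ] E => S v) h).symm
    rw [this]
    unfold ri
    rw [ContinuousLinearMap.inner_map_map_of_mem_unitary hU]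
  have e2 : ri (U v) (T' (U v)) - ri v (T' v) = ri (U v - v) (T' (U v)) + ri v (T' (U v - v)) := by
    rw [map_sub, sub_ri, ri_sub]
    ring
  have nU : ‖U v‖ = 1 := by rw [ContinuousLinearMap.norm_map_of_mem_unitary hU, hv]
  have ab : ∀ x y : E, |ri x y| ≤ ‖x‖ * ‖y‖ := fun x y =>
    (Complex.abs_re_le_norm _).trans (norm_inner_le_norm x y)
  have a1 := ab (U v - v) (T' (U v))
  have a2 := ab v (T' (U v - v))
  have b1 := hn (U v)
  have b2 := hn (U v - v)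
  rw [nU] at b1
  rw [hv, one_mul] at a2
  have b3 : ‖U v - v‖ * ‖T' (U v)‖ ≤ d :=
    (mul_le_of_le_one_right (norm_nonneg _) b1).trans hd
  rw [e1, e2]
  refine (abs_add_le _ _).trans ?_
  linarith

theorem cube_Bur {U : E →L[ℂ] E} (hU : U ∈ unitary (E →L[ℂ] E)) {v : E} {d : ℝ}
    (hd : ‖U v - v‖ ≤ d) : ‖(U * (U * U)) v - v‖ ≤ 3 * d := by
  have e : (U * (U * U)) v - v = U (U (U v - v)) + U (U v - v) + (U v - v) := by
    simp only [mul_apply_eq_comp, map_sub]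
    abel
  rw [e]
  refine (norm_add₃_le).trans ?_
  simp only [ContinuousLinearMap.norm_map_of_mem_unitary hU]
  linarith

theorem two_Bur {U : E →L[ℂ] E} (hU : U ∈ unitary (E →L[ℂ] E)) {η : ℝ} (hη : 0 < η)
    {f g : C(X, ℂ)} (hf : star f * f = 1) (h1 : RelBur Φ U f f) (h2 : RelBur Φ U g (f * g))
    {v : E} (hv : ‖v‖ = 1) {d : ℝ} (hd : ‖U v - v‖ ≤ d) :
    2 * omBur Φ v (KBur hη f g) ≤ omBur Φ v (KBur hη f (f ^ 3 * g)) +
      omBur Φ v (KBur hη f (star f ^ 3 * g)) + 12 * d := by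
  have hU3 : U * (U * U) ∈ unitary (E →L[ℂ] E) := mul_mem hU (mul_mem hU hU)
  have f3 : RelBur Φ (U * (U * U)) f f := rel_comp_Bur (rel_comp_Bur h1 h1) h1
  have g3 : RelBur Φ (U * (U * U)) g (f ^ 3 * g) := by
    have := rel_comp_Bur (rel_comp_Bur h2 (rel_mul_Bur h1 h2)) (rel_mul_Bur h1 (rel_mul_Bur h1 h2))
    have e : f * (f * (f * g)) = f ^ 3 * g := by ring
    rwa [e] at this
  have s3 := rel_star_Bur hU3 f3
  have g4 : RelBur Φ (U * (U * U)) (star f ^ 3 * g) g := by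
    have := rel_mul_Bur s3 (rel_mul_Bur s3 (rel_mul_Bur s3 g3))
    have e1 : star f * (star f * (star f * g)) = star f ^ 3 * g := by ring
    have e2 : star f * (star f * (star f * (f ^ 3 * g))) = (star f * f) ^ 3 * g := by ring
    rwa [e1, e2, hf, one_pow, one_mul] at this
  have a1 := abs_le.1 (om_rel_Bur hU3 hη f3 g3 hv (cube_Bur hU hd))
  have a2 := abs_le.1 (om_rel_Bur hU3 hη f3 g4 hv (cube_Bur hU hd))
  linarith [a1.2, a2.1]

end

theorem iter_Bur {φ : ℝ → ℝ} {c : ℝ} (hc : 0 ≤ c) (h1 : ∀ η, 0 < η → φ η ≤ 1)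
    (h2 : ∀ η, 0 < η → 2 * φ η ≤ 8 / 5 * φ (η / 9) + c) {η : ℝ} (hη : 0 < η) :
    φ η ≤ 5 / 2 * c := by
  have k : ∀ n : ℕ, ∀ η, 0 < η → φ η ≤ (4 / 5) ^ n + 5 / 2 * c := by
    intro n
    induction n with
    | zero => intro η hη; have := h1 η hη; rw [pow_zero]; linarith
    | succ n ih =>
      intro η hη
      have a := ih (η / 9) (by positivity)
      have b := h2 η hη
      rw [pow_succ]
      linarith
  refine le_of_forall_pos_le_add fun e he => ?_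
  obtain ⟨n, hn⟩ := exists_pow_lt_of_lt_one he (by norm_num : (4 / 5 : ℝ) < 1)
  have := k n η hη
  linarith

theorem pow_Bur {z : ℂ} (hz : ‖z‖ = 1) (n : ℕ) : ‖1 - z ^ n‖ ≤ n * ‖1 - z‖ := by
  induction n with
  | zero => simp
  | succ n ih =>
    have e : 1 - z ^ (n + 1) = (1 - z) + z * (1 - z ^ n) := by ring
    rw [e]
    refine (norm_add_le _ _).trans ?_
    rw [norm_mul, hz]
    push_cast
    linarith

theorem fin_Bur {z : ℂ} (hz : ‖z‖ = 1) (n : ℕ) {y η : ℝ} (hy : 0 ≤ y) (hη : 0 < η) :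
    ‖1 - z ^ n‖ ^ 2 ≤ 4 * ((‖1 - z‖ ^ 2 + y) / (‖1 - z‖ ^ 2 + y + η)) + n ^ 2 * η := by
  have a1 : ‖1 - z ^ n‖ ^ 2 ≤ n ^ 2 * ‖1 - z‖ ^ 2 := by
    rw [← mul_pow]
    exact pow_le_pow_left₀ (norm_nonneg _) (pow_Bur hz n) 2
  have a2 : ‖1 - z ^ n‖ ≤ 2 := by
    refine (norm_sub_le _ _).trans ?_
    rw [norm_pow, hz, norm_one, one_pow]
    norm_num
  have a3 : ‖1 - z ^ n‖ ^ 2 ≤ 4 := by nlinarith [norm_nonneg (1 - z ^ n)]
  have a4 := sq_nonneg ‖1 - z‖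
  have a5 : (0 : ℝ) ≤ n ^ 2 := sq_nonneg _
  generalize ‖1 - z ^ n‖ ^ 2 = m at *
  generalize ‖1 - z‖ ^ 2 = x at *
  generalize (n : ℝ) ^ 2 = k at *
  have p : 0 < x + y + η := by positivity
  rw [← mul_div_assoc, div_add' _ _ _ p.ne', le_div_iff₀ p]
  nlinarith [mul_le_mul_of_nonneg_right a3 (add_nonneg a4 hy), mul_le_mul_of_nonneg_right a1 hη.le,
    mul_nonneg a5 (mul_nonneg hη.le (add_nonneg hy hη.le))]

end

theorem burger {δ : ℝ} (hδ : 0 < δ) : ∃ ε : ℝ, 0 < ε ∧ ∀ (G E : Type) [Group G]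
    [NormedAddCommGroup E] [InnerProductSpace ℂ E] [CompleteSpace E] (π : G →* (E →L[ℂ] E)),
    (∀ g, π g ∈ unitary (E →L[ℂ] E)) → ∀ a b s t : G, a * b = b * a → s * a = a * s →
    s * b = a * b * s → t * a = a * b * t → t * b = b * t → ∀ v : E, ‖v‖ = 1 →
    ‖π a v - v‖ ≤ ε → ‖π b v - v‖ ≤ ε → ‖π s v - v‖ ≤ ε → ‖π t v - v‖ ≤ ε →
    ∀ n : ℤ, ‖π (a ^ n) v - v‖ ≤ δ := by
  refine ⟨min 1 (δ ^ 2 / 72240), by positivity, ?_⟩
  intro G E _ _ _ _ π hu a b s t hab hsa hsb hta htb v hv ha hb hs ht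
  have e0 : 0 < min 1 (δ ^ 2 / 72240) := by positivity
  have e1 : min 1 (δ ^ 2 / 72240) ≤ 1 := min_le_left _ _
  have e2 : min 1 (δ ^ 2 / 72240) ≤ δ ^ 2 / 72240 := min_le_right _ _
  generalize min 1 (δ ^ 2 / 72240) = e at *
  obtain ⟨X, _, _, Φ, f, g, hf, hg, nf, ng⟩ := gel (hu a) (hu b)
    (show π a * π b = π b * π a by rw [← map_mul, hab, map_mul])
  have un : ∀ p : C(X, ℂ), (∀ x, ‖p x‖ = 1) → star p * p = 1 := fun p hp => by
    rw [← cx_ns_Bur]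
    ext x
    change ((‖p x‖ ^ 2 : ℝ) : ℂ) = 1
    rw [hp, one_pow, Complex.ofReal_one]
  have r1 : RelBur Φ (π s) f f := by
    unfold RelBur
    rw [hf, ← map_mul, hsa, map_mul]
  have r2 : RelBur Φ (π s) g (f * g) := by
    unfold RelBur
    rw [map_mul, hf, hg, ← map_mul, hsb, map_mul, map_mul]
  have r3 : RelBur Φ (π t) g g := by
    unfold RelBur
    rw [hg, ← map_mul, htb, map_mul]
  have r4 : RelBur Φ (π t) f (g * f) := by
    unfold RelBur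
    rw [mul_comm g f, map_mul, hf, hg, ← map_mul, hta, map_mul, map_mul]
  have o1 : ∀ (p : C(X, ℂ)) (c : G), Φ p = π c → omBur Φ v (nsBur (1 - p)) = ‖π c v - v‖ ^ 2 :=
    fun p c h => by
      rw [om_ns_Bur, map_sub, map_one, h, _root_.sub_apply,
        one_apply_eq_self, norm_sub_rev]
  have kk : ∀ {η : ℝ} (hη : 0 < η) (x : X), (KBur hη f g + KBur hη g f) x =
      (‖1 - f x‖ ^ 2 + ‖1 - g x‖ ^ 2) / (‖1 - f x‖ ^ 2 + ‖1 - g x‖ ^ 2 + η) := fun {η} hη x => by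
    change ‖1 - f x‖ ^ 2 / (‖1 - f x‖ ^ 2 + ‖1 - g x‖ ^ 2 + η) +
      ‖1 - g x‖ ^ 2 / (‖1 - g x‖ ^ 2 + ‖1 - f x‖ ^ 2 + η) = _
    rw [add_comm (‖1 - g x‖ ^ 2) (‖1 - f x‖ ^ 2), add_div]
  classical
  let φ : ℝ → ℝ := fun η => if hη : 0 < η then omBur Φ v (KBur hη f g + KBur hη g f) else 0
  have hφ : ∀ {η : ℝ} (hη : 0 < η), φ η = omBur Φ v (KBur hη f g + KBur hη g f) :=
    fun {η} hη => dif_pos hη
  have main : ∀ {η : ℝ}, 0 < η → φ η ≤ 5 / 2 * (24 * e + 7200 * e ^ 2) := by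
    intro η hη
    refine iter_Bur (by positivity) (fun η hη => ?_) (fun η hη => ?_) hη
    · rw [hφ hη]
      refine (om_mono_Bur Φ v (w := 1) fun x => ?_).trans ?_
      · rw [kk hη]
        exact (div_le_one (by positivity)).2 (by linarith)
      · rw [om_one_Bur, hv, one_pow]
    · have h9 : 0 < η / 9 := by positivity
      rw [hφ hη, hφ h9, om_add_Bur]
      have t1 := two_Bur (hu s) hη (un f nf) r1 r2 hv hs
      have t2 := two_Bur (hu t) hη (un g ng) r3 r4 hv ht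
      have t3 := om_mono_Bur Φ v
        (u := KBur hη f (f ^ 3 * g) + KBur hη f (star f ^ 3 * g) + KBur hη g (g ^ 3 * f) +
          KBur hη g (star g ^ 3 * f))
        (w := (8 / 5 : ℝ) • (KBur h9 f g + KBur h9 g f) +
          (3600 : ℝ) • (nsBur (1 - f) + nsBur (1 - g))) fun x => by
          have pt := bur_pt (nf x) (ng x) hη
          have z : ∀ u w : ℂ, ‖u‖ = 1 → ‖1 - star u ^ 3 * w‖ = ‖u ^ 3 - w‖ := fun u w h => by
            have h1 : u * star u = 1 := by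
              rw [Complex.star_def, Complex.mul_conj', h]
              norm_num
            have h2 : u ^ 3 - w = u ^ 3 * (1 - star u ^ 3 * w) := by
              have : u ^ 3 * (star u ^ 3 * w) = (u * star u) ^ 3 * w := by ring
              rw [mul_sub, this, h1]
              ring
            rw [h2, norm_mul, norm_pow, h, one_pow, one_mul]
          change ‖1 - f x‖ ^ 2 / (‖1 - f x‖ ^ 2 + ‖1 - f x ^ 3 * g x‖ ^ 2 + η) +
            ‖1 - f x‖ ^ 2 / (‖1 - f x‖ ^ 2 + ‖1 - star (f x) ^ 3 * g x‖ ^ 2 + η) +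
            ‖1 - g x‖ ^ 2 / (‖1 - g x‖ ^ 2 + ‖1 - g x ^ 3 * f x‖ ^ 2 + η) +
            ‖1 - g x‖ ^ 2 / (‖1 - g x‖ ^ 2 + ‖1 - star (g x) ^ 3 * f x‖ ^ 2 + η) ≤
            8 / 5 * (KBur h9 f g + KBur h9 g f) x + 3600 * (‖1 - f x‖ ^ 2 + ‖1 - g x‖ ^ 2)
          rw [kk h9, z _ _ (nf x), z _ _ (ng x), mul_comm (g x ^ 3) (f x),
            norm_sub_rev (g x ^ 3) (f x), add_comm (‖1 - g x‖ ^ 2) (‖1 - f x * g x ^ 3‖ ^ 2),
            add_comm (‖1 - g x‖ ^ 2) (‖f x - g x ^ 3‖ ^ 2)]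
          exact pt
      rw [om_add_Bur, om_add_Bur, om_add_Bur, om_add_Bur, om_smul_Bur, om_smul_Bur,
        om_add_Bur Φ v (nsBur _), o1 f a hf, o1 g b hg] at t3
      have q1 := pow_le_pow_left₀ (norm_nonneg _) ha 2
      have q2 := pow_le_pow_left₀ (norm_nonneg _) hb 2
      linarith
  have nat : ∀ n : ℕ, ‖π (a ^ n) v - v‖ ≤ δ := by
    intro n
    refine (abs_le_of_sq_le_sq' ?_ hδ.le).2
    rw [← o1 (f ^ n) (a ^ n) (by rw [map_pow, map_pow, hf])]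
    refine le_of_forall_pos_le_add fun r hr => ?_
    have hη : 0 < r / (n ^ 2 + 1) := by positivity
    have t := om_mono_Bur Φ v (u := nsBur (1 - f ^ n))
      (w := (4 : ℝ) • (KBur hη f g + KBur hη g f) + ((n : ℝ) ^ 2 * (r / (n ^ 2 + 1))) • 1)
      fun x => by
        change ‖1 - f x ^ n‖ ^ 2 ≤ 4 * (KBur hη f g + KBur hη g f) x +
          ((n : ℝ) ^ 2 * (r / (n ^ 2 + 1))) * 1
        rw [kk hη, mul_one]
        exact fin_Bur (nf x) n (sq_nonneg _) hη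
    rw [om_add_Bur, om_smul_Bur, om_smul_Bur, om_one_Bur, hv, ← hφ hη] at t
    have m := main hη
    have w : (n : ℝ) ^ 2 * (r / (n ^ 2 + 1)) ≤ r := by
      rw [← mul_div_assoc, div_le_iff₀ (by positivity)]
      nlinarith
    have w2 : e ^ 2 ≤ e := by nlinarith
    linarith
  intro n
  obtain ⟨m, rfl | rfl⟩ := n.eq_nat_or_neg
  · rw [zpow_natCast]
    exact nat m
  · rw [_root_.zpow_neg, _root_.zpow_natCast, ← un_norm hu (a ^ m), map_sub, ← mul_apply_eq_comp,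
      ← map_mul, mul_inv_cancel, map_one, one_apply_eq_self, norm_sub_rev]
    exact nat m

end Pool.Agent.MP_434e52_an.TF
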