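import Pool.Agent.MP_434e52_an.TF.Defs

/-! Torsion-free twins: row Dat. The congruence group, its action and the form. -/

set_option autoImplicit false

namespace Pool.Agent.MP_434e52_an.TF

open Matrix Filter Topology MeasureTheory NL

variable {O : Type} [CommRing O] [IsDomain O] [CharZero O]

theorem dbl_dat {ι : Type} {a b : ι → O} (h : a + a = b + b) : a = b := by
  funext i
  have h1 : a i + a i = b i + b i := congrFun h i
  exact mul_left_cancel₀ (two_ne_zero (α := O)) (by linear_combination h1)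

theorem io_inj : Function.Injective (io (O := O)) := by
  rintro ⟨y, ξ⟩ ⟨y', ξ'⟩ h
  simp only [io, Prod.mk.injEq] at h
  obtain ⟨h1, rfl⟩ := h
  rw [dbl_dat (add_right_cancel h1)]

theorem symm_dat {g : KK O} {B : Matrix (Fin 3) (Fin 3) O}
    (h : B + B = mat g * Sw O * (mat g)ᵀ - Sw O) : Bᵀ = B := by
  have hS : (Sw O)ᵀ = Sw O := by
    ext i j
    fin_cases i <;> fin_cases j <;> rfl
  have h2 : Bᵀ + Bᵀ = B + B := by
    rw [← transpose_add, h, transpose_sub, transpose_mul, transpose_mul, transpose_transpose, hS,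
      mul_assoc]
  ext i j
  have h1 : Bᵀ i j + Bᵀ i j = B i j + B i j := congrFun (congrFun h2 i) j
  exact mul_left_cancel₀ (two_ne_zero (α := O)) (by linear_combination h1)

omit [IsDomain O] [CharZero O] in
theorem mi_dat (g : KK O) : mat g * mat g⁻¹ = 1 := by rw [← mat_mul, mul_inv_cancel, mat_one]

omit [IsDomain O] [CharZero O] in
theorem im_dat (g : KK O) : mat g⁻¹ * mat g = 1 := by rw [← mat_mul, inv_mul_cancel, mat_one]

omit [IsDomain O] [CharZero O] in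
theorem dvd_dat (P M : Matrix (Fin 3) (Fin 3) O) (h : ∀ i j, (3 : O) ∣ M i j) (i j : Fin 3) :
    (3 : O) ∣ (P * M) i j := by
  rw [Matrix.mul_apply]
  exact Finset.dvd_sum fun k _ => (h k j).mul_left _

/-- The congruence group. -/
def qq_dat : Subgroup (KK O) where
  carrier := {g | InQ g}
  one_mem' := ⟨⟨0, by simp [mat_one]⟩, fun i j => by simp [mat_one]⟩
  mul_mem' := by
    rintro g h ⟨⟨B, hB⟩, h3⟩ ⟨⟨C, hC⟩, k3⟩
    refine ⟨⟨mat g * C * (mat g)ᵀ + B, ?_⟩, fun i j => ?_⟩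
    · rw [add_add_add_comm, hB, ← add_mul, ← mul_add, hC, mat_mul, transpose_mul]
      noncomm_ring
    · have : mat (g * h) - 1 = mat g * (mat h - 1) + (mat g - 1) := by
        rw [mat_mul]
        noncomm_ring
      rw [this, Matrix.add_apply]
      exact dvd_add (dvd_dat _ _ k3 i j) (h3 i j)
  inv_mem' := by
    rintro g ⟨⟨B, hB⟩, h3⟩
    refine ⟨⟨-(mat g⁻¹ * B * (mat g⁻¹)ᵀ), ?_⟩, fun i j => ?_⟩
    · have e : mat g⁻¹ * (mat g * Sw O * (mat g)ᵀ) * (mat g⁻¹)ᵀ = Sw O := by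
        rw [mul_assoc (mat g), ← mul_assoc, ← mul_assoc, im_dat, one_mul, mul_assoc,
          ← transpose_mul, im_dat, transpose_one, mul_one]
      rw [← neg_add, ← add_mul, ← mul_add, hB, mul_sub, sub_mul, e, neg_sub]
    · have : mat g⁻¹ - 1 = (-mat g⁻¹) * (mat g - 1) := by
        rw [mul_sub, neg_mul, im_dat]
        noncomm_ring
      rw [this]
      exact dvd_dat _ _ h3 i j

/-- The action of a pair of matrices. -/
def ac_dat (g : KK O) (B : Matrix (Fin 3) (Fin 3) O) : Module.End ℤ (LL O) where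
  toFun v := (mat g *ᵥ v.1 + B *ᵥ (v.2 ᵥ* mat g⁻¹), v.2 ᵥ* mat g⁻¹)
  map_add' v w := by
    simp only [Prod.fst_add, Prod.snd_add, mulVec_add, add_vecMul, Prod.mk_add_mk, add_add_add_comm]
  map_smul' n v := by
    simp only [Prod.smul_fst, Prod.smul_snd, mulVec_smul, smul_vecMul, RingHom.id_apply,
      Prod.smul_mk, smul_add]

omit [IsDomain O] [CharZero O] in
theorem io_ac_dat {g : KK O} {B : Matrix (Fin 3) (Fin 3) O}
    (h : B + B = mat g * Sw O * (mat g)ᵀ - Sw O) (v : LL O) :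
    io (ac_dat g B v) = (mat g *ᵥ (io v).1, (io v).2 ᵥ* mat g⁻¹) := by
  have e : (mat g * Sw O * (mat g)ᵀ) *ᵥ (v.2 ᵥ* mat g⁻¹) = mat g *ᵥ (Sw O *ᵥ v.2) := by
    rw [← mulVec_mulVec, mulVec_transpose, vecMul_vecMul, im_dat, vecMul_one, mulVec_mulVec]
  refine Prod.ext ?_ rfl
  change mat g *ᵥ v.1 + B *ᵥ (v.2 ᵥ* mat g⁻¹) + (mat g *ᵥ v.1 + B *ᵥ (v.2 ᵥ* mat g⁻¹)) +
    Sw O *ᵥ (v.2 ᵥ* mat g⁻¹) = mat g *ᵥ (v.1 + v.1 + Sw O *ᵥ v.2)
  rw [add_add_add_comm, ← add_mulVec B, h, sub_mulVec, e, mulVec_add, mulVec_add]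
  abel

/-- The restriction of a functional to the `k`-th coordinate of the second factor. -/
def rt_dat (l : Module.Dual ℤ (LL O)) (k : Fin 3) : Module.Dual ℤ O :=
  l ∘ₗ LinearMap.inr ℤ (VV O) (VV O) ∘ₗ LinearMap.single ℤ (fun _ : Fin 3 => O) k

omit [IsDomain O] [CharZero O] in
theorem dec_dat (l : Module.Dual ℤ (LL O)) (y ξ : VV O) :
    l (y, ξ) = ∑ k, rs l k (y k) + ∑ k, rt_dat l k (ξ k) := by
  have e : ((y, ξ) : LL O) = ∑ k, ((Pi.single k (y k), 0) : LL O) +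
      ∑ k, ((0, Pi.single k (ξ k)) : LL O) := by
    ext i <;> fin_cases i <;> simp [Fin.sum_univ_three]
  rw [e, map_add, map_sum, map_sum]
  rfl

omit [IsDomain O] [CharZero O] in
theorem con_dat (c : Cas O) (P R : Matrix (Fin 3) (Fin 3) O) (l m : Fin 3 → Module.Dual ℤ O) :
    ∑ i, c.T (∑ k, l k ∘ₗ LinearMap.mulLeft ℤ (P k i)) (∑ p, m p ∘ₗ LinearMap.mulLeft ℤ (R i p)) =
      ∑ k, ∑ p, c.T (l k ∘ₗ LinearMap.mulLeft ℤ ((P * R) k p)) (m p) := by
  have e : ∀ k p, l k ∘ₗ LinearMap.mulLeft ℤ ((P * R) k p) =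
      ∑ i, (l k ∘ₗ LinearMap.mulLeft ℤ (P k i)) ∘ₗ LinearMap.mulLeft ℤ (R i p) := fun k p => by
    ext t
    simp [Matrix.mul_apply, Finset.sum_mul, mul_assoc]
  simp only [e, map_sum, LinearMap.sum_apply, c.bal]
  simp only [Fin.sum_univ_three]
  ring

/-- The form. -/
def be_dat (c : Cas O) : Module.Dual ℤ (LL O) →ₗ[ℤ] Module.Dual ℤ (LL O) →ₗ[ℤ] ℤ :=
  ∑ i : Fin 3, c.T.compl₁₂
    (LinearMap.inl ℤ (VV O) (VV O) ∘ₗ LinearMap.single ℤ (fun _ : Fin 3 => O) i).dualMap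
    (LinearMap.inr ℤ (VV O) (VV O) ∘ₗ LinearMap.single ℤ (fun _ : Fin 3 => O) i).dualMap

omit [IsDomain O] [CharZero O] in
theorem be_app_dat (c : Cas O) (l m : Module.Dual ℤ (LL O)) :
    be_dat c l m = ∑ i, c.T (rs l i) (rt_dat m i) := by
  simp only [be_dat, LinearMap.sum_apply]
  rfl

theorem be_ac_dat (c : Cas O) {g : KK O} {B : Matrix (Fin 3) (Fin 3) O}
    (h : B + B = mat g * Sw O * (mat g)ᵀ - Sw O) (l m : Module.Dual ℤ (LL O)) :
    be_dat c (l ∘ₗ ac_dat g B) (m ∘ₗ ac_dat g B) - be_dat c l m =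
      ∑ i, ∑ j, c.T (rs l i ∘ₗ LinearMap.mulLeft ℤ (B i j)) (rs m j) := by
  have e1 : ∀ i, rs (l ∘ₗ ac_dat g B) i = ∑ k, rs l k ∘ₗ LinearMap.mulLeft ℤ (mat g k i) :=
    fun i => by
      ext t
      change l (mat g *ᵥ Pi.single i t + B *ᵥ (0 ᵥ* mat g⁻¹), 0 ᵥ* mat g⁻¹) = _
      rw [dec_dat]
      simp [mul_comm]
  have e2 : ∀ i, rt_dat (m ∘ₗ ac_dat g B) i =
      ∑ p, rs m p ∘ₗ LinearMap.mulLeft ℤ ((mat g⁻¹ * Bᵀ) i p) +
        ∑ p, rt_dat m p ∘ₗ LinearMap.mulLeft ℤ (mat g⁻¹ i p) := fun i => by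
      ext t
      change m (mat g *ᵥ 0 + B *ᵥ (Pi.single i t ᵥ* mat g⁻¹), Pi.single i t ᵥ* mat g⁻¹) = _
      rw [dec_dat, ← vecMul_transpose B, vecMul_vecMul]
      simp [mul_comm]
  simp only [be_app_dat, e1, e2, map_add, Finset.sum_add_distrib]
  rw [con_dat, con_dat, ← mul_assoc, mi_dat, one_mul, symm_dat h]
  have e3 : ∑ k, ∑ p, c.T (rs l k ∘ₗ LinearMap.mulLeft ℤ ((1 : Matrix (Fin 3) (Fin 3) O) k p))
      (rt_dat m p) = ∑ i, c.T (rs l i) (rt_dat m i) := by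
    refine Finset.sum_congr rfl fun k _ => ?_
    rw [Finset.sum_eq_single k (fun p _ hp => by simp [Matrix.one_apply_ne hp.symm]) (by simp)]
    simp
  rw [e3, add_sub_cancel_right]

theorem exists_dat (c : Cas O) : Nonempty (Dat c) := by
  have hq : ∀ g : (qq_dat : Subgroup (KK O)), ∃ B : Matrix (Fin 3) (Fin 3) O,
      B + B = mat g.1 * Sw O * (mat g.1)ᵀ - Sw O := fun g => g.2.1
  choose b hb using hq
  refine ⟨⟨qq_dat, fun _ => Iff.rfl, ⟨⟨fun g => ac_dat g.1 (b g), ?_⟩, fun g h => ?_⟩,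
    fun g v => io_ac_dat (hb g) v, be_dat c, fun g B hB l m => ?_⟩⟩
  · refine LinearMap.ext fun v => io_inj ?_
    rw [io_ac_dat (hb _), OneMemClass.coe_one, inv_one, mat_one, one_mulVec, vecMul_one]
    rfl
  · refine LinearMap.ext fun v => io_inj ?_
    rw [io_ac_dat (hb _), Module.End.mul_apply, io_ac_dat (hb g), io_ac_dat (hb h),
      Subgroup.coe_mul, _root_.mul_inv_rev, mat_mul, mat_mul, mulVec_mulVec, vecMul_vecMul]
  · have e : b g = B := funext fun i => dbl_dat (congrFun ((hb g).trans hB.symm) i)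
    rw [← be_ac_dat c hB, ← e]
    rfl

theorem Dat.symm {c : Cas O} (D : Dat c) (g : D.Q) (l m : Module.Dual ℤ (LL O)) :
    Bf D.ρ D.β g l m = Bf D.ρ D.β g m l := by
  obtain ⟨⟨B, hB⟩, -⟩ := (D.hQ g).1 g.2
  rw [D.hB g B hB, D.hB g B hB, Finset.sum_comm]
  refine Finset.sum_congr rfl fun i _ => Finset.sum_congr rfl fun j _ => ?_
  have e : B j i = B i j := congrFun (congrFun (symm_dat hB) i) j
  rw [c.bal, c.symm, e]

end Pool.Agent.MP_434e52_an.TF
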