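import Pool.Agent.MP_434e52_an.NonLin

/-! Torsion-free twins: definitions. -/

set_option autoImplicit false

namespace Pool.Agent.MP_434e52_an.TF

open Matrix Filter Topology MeasureTheory NL

noncomputable section

/-- `p` is the projection on the vectors fixed by a family. -/
def IsFix {G E A : Type} [Group G] [NormedAddCommGroup E] [InnerProductSpace ℂ E] [CompleteSpace E]
    (π : G →* (E →L[ℂ] E)) (x : A → G) (p : E →L[ℂ] E) : Prop :=
  IsStarProjection p ∧ ∀ v, p v = v ↔ ∀ a, π (x a) v = v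

/-- The exponential of period one. -/
def ee (t : ℝ) : ℂ := Complex.exp (2 * Real.pi * Complex.I * t)

/-- Bounded pointwise limits of sequences in the span of `S`. -/
def Lim {Z : Type} (S : Set (Z → ℂ)) (f : Z → ℂ) : Prop :=
  ∃ (p : ℕ → Z → ℂ) (C : ℝ), (∀ n, p n ∈ Submodule.span ℂ S) ∧ (∀ n x, ‖p n x‖ ≤ C) ∧
    ∀ x, Tendsto (fun n => p n x) atTop (𝓝 (f x))

/-- The periodic characters of `ℝ ^ m`. -/
def chars (m : Type) [Fintype m] : Set ((m → ℝ) → ℂ) :=
  Set.range fun (v : m → ℤ) (x : m → ℝ) => ee (∑ i, (v i : ℝ) * x i)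

/-- Lebesgue measure on the unit cube. -/
def cube (m : Type) [Fintype m] : Measure (m → ℝ) :=
  Measure.pi fun _ => volume.restrict (Set.Ico (0 : ℝ) 1)

/-- A cocycle of unimodular functions with the regular trace. -/
structure Coc {Z Q : Type} [MeasurableSpace Z] [Group Q] (μ : Measure Z) (act : Q → Z → Z)
    (H : Type) [Group H] where
  p : H →* Q
  F : H → Z → ℂ
  meas : ∀ x, Measurable (F x)
  nrm : ∀ x s, ‖F x s‖ = 1
  coc : ∀ x y s, F (x * y) s = F x s * F y (act (p x)⁻¹ s)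
  tr : ∀ x, x ≠ 1 → p x = 1 → ∫ s, F x s ∂μ = 0

section Mat

variable {m : Type} [Fintype m]

/-- The transpose of an integer matrix acting on real vectors. -/
def trA (A : Matrix m m ℤ) (x : m → ℝ) : m → ℝ := fun i => ∑ j, (A j i : ℝ) * x j

/-- The real bilinear form of an integer matrix. -/
def bil (β : Matrix m m ℤ) (x y : m → ℝ) : ℝ := ∑ i, ∑ j, (β i j : ℝ) * x i * y j

/-- A unit section of the line bundle. -/
def Psi (β : Matrix m m ℤ) (x : m → ℝ) : ℂ :=
  ee (bil β (fun i => (⌊x i⌋ : ℝ)) x - bil β x x / 2)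

/-- The theta cocycle. -/
def Kf (β A : Matrix m m ℤ) (w : m → ℤ) (x : m → ℝ) : ℂ :=
  Psi β (trA A x) * (starRingEnd ℂ) (Psi β x) * ee ((∑ i, (w i : ℝ) * x i) / 2)

/-- `H` is the group of the pairs `(v, g)` with `v ≡ c g` modulo two. -/
structure AffM [DecidableEq m] {Q : Type} [Group Q] (A : Q →* Matrix m m ℤ) (c : Q → m → ℤ)
    (H : Type) [Group H] where
  p : H →* Q
  w : H → m → ℤ
  w_mul : ∀ x y, w (x * y) = w x + A (p x) *ᵥ w y
  inj : ∀ x y, p x = p y → w x = w y → x = y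
  rng : ∀ g v, (∃ x, p x = g ∧ w x = v) ↔ ∀ i, Even (v i - c g i)

end Mat

section Lat

variable {Q V : Type} [Group Q] [AddCommGroup V]

/-- The change of a form on the dual under the action. -/
def Bf (ρ : Q →* Module.End ℤ V) (β : Module.Dual ℤ V →ₗ[ℤ] Module.Dual ℤ V →ₗ[ℤ] ℤ) (g : Q)
    (l m : Module.Dual ℤ V) : ℤ := β (l ∘ₗ ρ g) (m ∘ₗ ρ g) - β l m

/-- `H` is the group of the pairs `(v, g)` with `l v ≡ c g l` modulo two for all `l`. -/
structure Aff (ρ : Q →* Module.End ℤ V) (c : Q → Module.Dual ℤ V → ℤ) (H : Type) [Group H] where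
  p : H →* Q
  w : H → V
  w_mul : ∀ x y, w (x * y) = w x + ρ (p x) (w y)
  inj : ∀ x y, p x = p y → w x = w y → x = y
  rng : ∀ g v, (∃ x, p x = g ∧ w x = v) ↔ ∀ l : Module.Dual ℤ V, Even (l v - c g l)

end Lat

section Ring

variable (O : Type) [CommRing O]

/-- A symmetric balanced form on the dual of the ring. -/
structure Cas where
  T : Module.Dual ℤ O →ₗ[ℤ] Module.Dual ℤ O →ₗ[ℤ] ℤ
  symm : ∀ l m, T l m = T m l
  bal : ∀ (r : O) l m, T (l ∘ₗ LinearMap.mulLeft ℤ r) m = T l (m ∘ₗ LinearMap.mulLeft ℤ r)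
  par : ∀ l, Even (T l l - l 1)

/-- The ambient group. -/
abbrev EE : Type := Hs (⊤ : AddSubgroup O)

/-- The lattice. -/
abbrev LL : Type := VV O × VV O

/-- The symmetric matrix that swaps the first two coordinates. -/
def Sw : Matrix (Fin 3) (Fin 3) O := !![0, 1, 0; 1, 0, 0; 0, 0, 1]

variable {O}

/-- The congruence conditions. -/
def InQ (g : KK O) : Prop :=
  (∃ B : Matrix (Fin 3) (Fin 3) O, B + B = mat g * Sw O * (mat g)ᵀ - Sw O) ∧
    ∀ i j, (3 : O) ∣ (mat g - 1) i j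

/-- The embedding of the lattice. -/
def io (v : LL O) : VV O × VV O := (v.1 + v.1 + Sw O *ᵥ v.2, v.2)

/-- The vector part of an element; `vp (e * f) = vp e + e.g • vp f` for the action
`g • (x, ξ) = (g x, ξ g⁻¹)`. -/
def vp (e : EE O) : VV O × VV O := (e.x, e.b ᵥ* mat e.g⁻¹)

/-- The restriction of a functional to the `k`-th coordinate of the first factor. -/
def rs (l : Module.Dual ℤ (LL O)) (k : Fin 3) : Module.Dual ℤ O :=
  l ∘ₗ LinearMap.inl ℤ (VV O) (VV O) ∘ₗ LinearMap.single ℤ (fun _ : Fin 3 => O) k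

/-- The group `Q`, its action on the lattice and the form. -/
structure Dat (c : Cas O) where
  Q : Subgroup (KK O)
  hQ : ∀ g, g ∈ Q ↔ InQ g
  ρ : Q →* Module.End ℤ (LL O)
  hρ : ∀ (g : Q) v, io (ρ g v) = (mat g.1 *ᵥ (io v).1, (io v).2 ᵥ* mat g.1⁻¹)
  β : Module.Dual ℤ (LL O) →ₗ[ℤ] Module.Dual ℤ (LL O) →ₗ[ℤ] ℤ
  hB : ∀ (g : Q) (B : Matrix (Fin 3) (Fin 3) O), B + B = mat g.1 * Sw O * (mat g.1)ᵀ - Sw O →
    ∀ l m, Bf ρ β g l m = ∑ i, ∑ j, c.T (rs l i ∘ₗ LinearMap.mulLeft ℤ (B i j)) (rs m j)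

/-- Membership in the group defined by the parity function `d`. -/
def InH {c : Cas O} (D : Dat c) (d : D.Q → Module.Dual ℤ (LL O) → ℤ) (e : EE O) : Prop :=
  ∃ (hg : e.g ∈ D.Q) (v : LL O), io v = vp e ∧ ∀ l : Module.Dual ℤ (LL O), Even (l v - d ⟨e.g, hg⟩ l)

end Ring

end

end Pool.Agent.MP_434e52_an.TF
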