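import Pool.Agent.MP_434e52_an.TF.Defs

/-! Torsion-free twins: row FI. Finite index subgroups. -/

set_option autoImplicit false

namespace Pool.Agent.MP_434e52_an.TF

open Matrix Filter Topology MeasureTheory NL

theorem coc_fi {H G : Type} [Group H] [Group G] (j : H →* G) (g : G) (x : G ⧸ j.range) :
    ∃ h : H, j h = (Quotient.out x)⁻¹ * g * Quotient.out (g⁻¹ • x) := by
  have h : ((Quotient.out x : G) : G ⧸ j.range) = (g * Quotient.out (g⁻¹ • x) : G) := by
    rw [← smul_eq_mul, ← MulAction.Quotient.smul_mk]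
    simp
  rw [mul_assoc]
  exact QuotientGroup.eq.1 h

theorem induce_fi {H G X E : Type} [Group H] [Group G] [Fintype X] [MulAction G X]
    [NormedAddCommGroup E] [InnerProductSpace ℂ E] [CompleteSpace E]
    (π : H →* (E →L[ℂ] E)) (hπ : ∀ h, π h ∈ unitary (E →L[ℂ] E)) (d : G → X → H)
    (d1 : ∀ x, d 1 x = 1) (dm : ∀ g g' x, d (g * g') x = d g x * d g' (g⁻¹ • x)) :
    ∃ ρ : G →* (PiLp 2 (fun _ : X => E) →L[ℂ] PiLp 2 (fun _ : X => E)),
      (∀ g, IsUnitaryOp (ρ g)) ∧ ∀ g f x, ρ g f x = π (d g x) (f (g⁻¹ • x)) := by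
  let L : G → PiLp 2 (fun _ : X => E) →ₗ[ℂ] PiLp 2 (fun _ : X => E) := fun g =>
    { toFun := fun f => WithLp.toLp 2 fun x => π (d g x) (f (g⁻¹ • x))
      map_add' := fun f f' => by ext x; simp
      map_smul' := fun c f => by ext x; simp }
  have hL : ∀ g f, ‖L g f‖ = ‖f‖ := by
    intro g f
    rw [PiLp.norm_eq_of_L2, PiLp.norm_eq_of_L2,
      ← Equiv.sum_comp (MulAction.toPerm g⁻¹) fun x => ‖f x‖ ^ 2]
    refine congrArg _ (Finset.sum_congr rfl fun x _ => ?_)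
    change ‖π (d g x) (f (g⁻¹ • x))‖ ^ 2 = _
    rw [un_norm hπ]
    rfl
  let ρ : G →* (PiLp 2 (fun _ : X => E) →L[ℂ] PiLp 2 (fun _ : X => E)) :=
    { toFun := fun g => (L g).mkContinuous 1 fun f => by rw [hL, one_mul]
      map_one' := by
        ext f x
        change π (d 1 x) (f (1⁻¹ • x)) = f x
        simp [d1]
      map_mul' := fun g g' => by
        ext f x
        change π (d (g * g') x) (f ((g * g')⁻¹ • x)) =
          π (d g x) (π (d g' (g⁻¹ • x)) (f (g'⁻¹ • g⁻¹ • x)))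
        rw [dm, map_mul, _root_.mul_inv_rev, mul_smul]
        rfl }
  refine ⟨ρ, fun g => ?_, fun g f x => rfl⟩
  have h1 : star (ρ g) * ρ g = 1 :=
    (ContinuousLinearMap.norm_map_iff_adjoint_comp_self (ρ g)).1 (hL g)
  have h2 : star (ρ g) = ρ g⁻¹ := by
    calc star (ρ g) = star (ρ g) * (ρ g * ρ g⁻¹) := by rw [← map_mul]; simp
      _ = ρ g⁻¹ := by rw [← mul_assoc, h1, one_mul]
  refine Unitary.mem_iff.2 ⟨h1, ?_⟩
  rw [h2, ← map_mul]
  simp

theorem propT_fi {H G : Type} [Group H] [Group G] (j : H →* G) (hj : Function.Injective j)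
    [j.range.FiniteIndex] (h : PropT G) : PropT H := by
  classical
  obtain ⟨S, ε, hε, hS⟩ := h
  choose d hd using coc_fi j
  let _ : Fintype (G ⧸ j.range) := Fintype.ofFinite _
  have d1 : ∀ x, d 1 x = 1 := fun x => hj (by rw [hd]; simp)
  have dm : ∀ g g' x, d (g * g') x = d g x * d g' (g⁻¹ • x) := fun g g' x => hj (by
    rw [map_mul, hd, hd, hd, _root_.mul_inv_rev, mul_smul]
    group)
  refine ⟨(S ×ˢ Finset.univ).image fun p : G × (G ⧸ j.range) => d p.1 p.2, ε, hε, ?_⟩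
  rintro E _ _ _ π hπ ⟨v, hv, hm⟩
  obtain ⟨ρ, hu, hρ⟩ := induce_fi π hπ d d1 dm
  let f : PiLp 2 (fun _ : G ⧸ j.range => E) := WithLp.toLp 2 fun _ => v
  have hc : (0 : ℝ) < Fintype.card (G ⧸ j.range) := by exact_mod_cast Fintype.card_pos
  have hf : ‖f‖ ^ 2 = Fintype.card (G ⧸ j.range) := by
    rw [PiLp.norm_sq_eq_of_L2]
    simp [f, hv]
  have hf0 : 0 < ‖f‖ := by
    rcases (norm_nonneg f).eq_or_lt with h0 | h0
    · rw [← h0] at hf; simp at hf; linarith
    · exact h0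
  obtain ⟨w, hw, hfix⟩ := hS _ ρ hu ⟨((‖f‖⁻¹ : ℝ) : ℂ) • f, by
    rw [norm_smul, Complex.norm_real, norm_inv, norm_norm, inv_mul_cancel₀ hf0.ne'], fun s hs => by
    rw [map_smul, ← smul_sub, norm_smul, Complex.norm_real, norm_inv, norm_norm,
      inv_mul_lt_iff₀ hf0]
    refine lt_of_pow_lt_pow_left₀ 2 (by positivity) ?_
    rw [mul_pow, hf, PiLp.norm_sq_eq_of_L2]
    have : ∀ x, ‖(ρ s f - f) x‖ ^ 2 < ε ^ 2 := fun x => by
      refine pow_lt_pow_left₀ ?_ (norm_nonneg _) two_ne_zero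
      rw [PiLp.sub_apply, hρ]
      exact hm _ (Finset.mem_image.2 ⟨(s, x), by simpa using hs, rfl⟩)
    refine (Finset.sum_lt_sum_of_nonempty Finset.univ_nonempty fun x _ => this x).trans_eq ?_
    simp⟩
  obtain ⟨x, hx⟩ : ∃ x, w x ≠ 0 := by
    by_contra hn
    exact hw (PiLp.ext fun x => not_not.1 fun hx => hn ⟨x, hx⟩)
  refine ⟨w x, hx, fun k => ?_⟩
  have e1 : (Quotient.out x * j k * (Quotient.out x)⁻¹)⁻¹ • x = x := by
    have : ((Quotient.out x : G) : G ⧸ j.range) =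
        ((Quotient.out x * j k * (Quotient.out x)⁻¹)⁻¹ * Quotient.out x : G) :=
      QuotientGroup.eq.2 ⟨k⁻¹, by rw [map_inv]; group⟩
    rw [← smul_eq_mul, ← MulAction.Quotient.smul_mk] at this
    simpa using this.symm
  have e2 : d (Quotient.out x * j k * (Quotient.out x)⁻¹) x = k := hj (by rw [hd, e1]; group)
  have e3 := hρ (Quotient.out x * j k * (Quotient.out x)⁻¹) w x
  rw [hfix, e1, e2] at e3
  exact e3.symm

theorem icc_fi {H G : Type} [Group H] [Group G] (j : H →* G) (hj : Function.Injective j)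
    [j.range.FiniteIndex] (h : ICC G) : ICC H := by
  intro a ha hfin
  refine h (j a) (fun e => ha (hj (by rw [e, map_one]))) ?_
  refine ((Set.finite_univ.prod hfin).image fun p : (G ⧸ j.range) × H =>
    Quotient.out p.1 * j p.2 * (Quotient.out p.1)⁻¹).subset ?_
  intro b hb
  obtain ⟨g, rfl⟩ := isConj_iff.1 hb
  obtain ⟨k, hk⟩ : (Quotient.out (g : G ⧸ j.range))⁻¹ * g ∈ j.range :=
    QuotientGroup.eq.1 (Quotient.out_eq _)
  refine ⟨((g : G ⧸ j.range), k * a * k⁻¹), ⟨trivial, isConj_iff.2 ⟨k, rfl⟩⟩, ?_⟩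
  change _ * j (k * a * k⁻¹) * _ = _
  rw [map_mul, map_mul, map_inv, hk]
  group

end Pool.Agent.MP_434e52_an.TF
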