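import Pool.Agent.MP_434e52_an.TF.Sub
import Pool.Agent.MP_434e52_an.TF.Brg

/-! Torsion-free twins: row Nsp. The extension does not split. -/

set_option autoImplicit false

namespace Pool.Agent.MP_434e52_an.TF

open Matrix Filter Topology MeasureTheory NL

variable {O : Type} [CommRing O] [IsDomain O] [CharZero O] [Module.Free ℤ O] [Module.Finite ℤ O]

omit [IsDomain O] [CharZero O] [Module.Free ℤ O] [Module.Finite ℤ O] in
theorem white_nsp {i j : Fin 3} (h : i ≠ j) (u : Oˣ) : ∃ d : KK O, ∀ v : VV O,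
    mat d *ᵥ v = v + Pi.single i (((u : O) - 1) * v i) + Pi.single j (((u⁻¹ : Oˣ) - 1 : O) * v j) := by
  refine ⟨xx h (u : O) * xx h.symm (-((u⁻¹ : Oˣ) : O)) * xx h (u : O) *
    (xx h (-1) * xx h.symm 1 * xx h (-1)), fun v => ?_⟩
  have hu : (u : O) * ((u⁻¹ : Oˣ) : O) = 1 := u.mul_inv
  simp only [mat_mul, ← mulVec_mulVec, xx_mulVec]
  ext1 l
  by_cases hi : l = i
  · subst hi
    simp only [Pi.add_apply, Pi.single_eq_same, Pi.single_eq_of_ne h, Pi.single_eq_of_ne h.symm]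
    linear_combination (v j - (u : O) * v l) * hu
  · by_cases hj : l = j
    · subst hj
      simp only [Pi.add_apply, Pi.single_eq_same, Pi.single_eq_of_ne h, Pi.single_eq_of_ne h.symm]
      linear_combination (-v i) * hu
    · simp only [Pi.add_apply, Pi.single_eq_of_ne hi, Pi.single_eq_of_ne hj, add_zero]

omit [IsDomain O] [CharZero O] [Module.Free ℤ O] [Module.Finite ℤ O] in
theorem diag_nsp (u : Oˣ) : ∃ d : KK O,
    mat d = diagonal ![(u : O), u, ((u⁻¹ : Oˣ) : O) * (u⁻¹ : Oˣ)] := by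
  obtain ⟨a, ha⟩ := white_nsp (show (0 : Fin 3) ≠ 2 by decide) u
  obtain ⟨b, hb⟩ := white_nsp (show (1 : Fin 3) ≠ 2 by decide) u
  refine ⟨a * b, ?_⟩
  apply Matrix.mulVec_injective
  ext1 v
  rw [mat_mul, ← mulVec_mulVec, ha, hb]
  ext1 l
  fin_cases l <;> simp [mulVec_diagonal] <;> ring

omit [IsDomain O] [CharZero O] [Module.Free ℤ O] [Module.Finite ℤ O] in
theorem inQ_six_nsp {g : KK O} (h : ∀ i j, (6 : O) ∣ (mat g - 1) i j) : InQ g := by
  refine ⟨?_, fun i j => (show (3 : O) ∣ 6 from ⟨2, by norm_num⟩).trans (h i j)⟩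
  choose M hM using h
  have e : mat g = 1 + (6 : O) • Matrix.of M := by
    ext i j
    have := hM i j
    simp only [Matrix.sub_apply] at this
    simp only [Matrix.add_apply, Matrix.smul_apply, Matrix.of_apply, smul_eq_mul]
    linear_combination this
  refine ⟨(3 : O) • (Matrix.of M * Sw O + Sw O * (Matrix.of M)ᵀ) +
    (18 : O) • (Matrix.of M * Sw O * (Matrix.of M)ᵀ), ?_⟩
  rw [e]
  simp only [transpose_add, transpose_smul, transpose_one, add_mul, mul_add, one_mul, mul_one,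
    smul_mul_assoc, mul_smul_comm]
  module

omit [IsDomain O] [CharZero O] [Module.Free ℤ O] [Module.Finite ℤ O] in
theorem bx_nsp (h : (0 : Fin 3) ≠ 1) (a : O) :
    Matrix.single (0 : Fin 3) (0 : Fin 3) a + Matrix.single 0 0 a =
      mat (xx h a) * Sw O * (mat (xx h a))ᵀ - Sw O := by
  have e : mat (xx h a) = !![1, a, 0; 0, 1, 0; 0, 0, 1] := by
    rw [mat_xx]
    ext i j
    fin_cases i <;> fin_cases j <;> simp
  have e2 : (!![1, a, 0; 0, 1, 0; 0, 0, 1] : Matrix (Fin 3) (Fin 3) O)ᵀ =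
      !![1, 0, 0; a, 1, 0; 0, 0, 1] := by
    ext i j
    fin_cases i <;> fin_cases j <;> rfl
  rw [e, e2]
  ext i j
  fin_cases i <;> fin_cases j <;> simp [Sw, Matrix.mul_apply, Fin.sum_univ_three]

omit [IsDomain O] [CharZero O] [Module.Free ℤ O] [Module.Finite ℤ O] in
theorem inQ_xx_nsp (h : (0 : Fin 3) ≠ 1) (t : O) : InQ (xx h (3 * t)) := by
  refine ⟨⟨_, bx_nsp h _⟩, fun i j => ?_⟩
  rw [mat_xx, add_sub_cancel_left, Matrix.single_apply]
  split_ifs
  · exact dvd_mul_right _ _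
  · exact dvd_zero _

omit [IsDomain O] [Module.Finite ℤ O] in
theorem two_nsp : ¬ IsUnit (2 : O) := by
  intro h
  obtain ⟨z, hz⟩ := h.exists_right_inv
  have : Nontrivial O := inferInstance
  let b := Module.Free.chooseBasis ℤ O
  obtain ⟨i⟩ := b.index_nonempty
  have e : b i = z * b i + z * b i := by linear_combination (-b i) * hz
  have e2 := congrArg (fun x => b.repr x i) e
  simp only [map_add, Finsupp.add_apply, Module.Basis.repr_self, Finsupp.single_eq_same] at e2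
  omega

theorem nsp {c : Cas O} (D : Dat c) {r : O} (hr : IsUnit (r ^ 2 + r)) {u : Oˣ} (hu : u ≠ 1)
    (h6 : (6 : O) ∣ (u : O) - 1) (σ : D.Q →* EE O) (h1 : ∀ g, (σ g).g = g.1)
    (h2 : ∀ g, InH D (fun g l => Bf D.ρ D.β g l l) (σ g)) : False := by
  have h01 : (0 : Fin 3) ≠ 1 := by decide
  have huu : (u : O) * ((u⁻¹ : Oˣ) : O) = 1 := u.mul_inv
  obtain ⟨d, hd⟩ := diag_nsp u
  have hdQ : d ∈ D.Q := by
    rw [D.hQ]
    refine inQ_six_nsp fun i j => ?_
    obtain ⟨k, hk⟩ := h6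
    have h3 : (6 : O) ∣ ((u⁻¹ : Oˣ) : O) * (u⁻¹ : Oˣ) - 1 :=
      ⟨-k * (u⁻¹ : Oˣ) * ((u⁻¹ : Oˣ) + 1), by
        linear_combination (((u⁻¹ : Oˣ) : O) + 1) * huu -
          (((u⁻¹ : Oˣ) : O) + 1) * ((u⁻¹ : Oˣ) : O) * hk⟩
    have h4 : (6 : O) ∣ (u : O) - 1 := ⟨k, hk⟩
    rw [hd]
    fin_cases i <;> fin_cases j <;> simp [h4]
    simpa using h3
  let g : O → D.Q := fun t => ⟨xx h01 (3 * t), (D.hQ _).2 (inQ_xx_nsp h01 t)⟩
  let d' : D.Q := ⟨d, hdQ⟩
  have hc : ∀ t, g t * d' = d' * g t := by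
    intro t
    refine Subtype.ext (mat_injective ?_)
    show mat (xx h01 (3 * t)) * mat d = mat d * mat (xx h01 (3 * t))
    rw [hd, mat_xx]
    ext i j
    rw [mul_diagonal, diagonal_mul]
    fin_cases i <;> fin_cases j <;> simp [mul_comm]
  have h2' : ∀ t, ∃ v : LL O, io v = vp (σ (g t)) ∧
      ∀ l : Module.Dual ℤ (LL O), Even (l v - Bf D.ρ D.β (g t) l l) := by
    intro t
    obtain ⟨hg, v, hv, hl⟩ := h2 (g t)
    have e : (⟨(σ (g t)).g, hg⟩ : D.Q) = g t := Subtype.ext (h1 _)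
    rw [e] at hl
    exact ⟨v, hv, hl⟩
  choose v hv hl using h2'
  have key : ∀ t, ((u : O) - 1) * 2 * (v t).1 0 =
      3 * t * ((vp (σ d')).1 1 - u * (vp (σ d')).2 0) := by
    intro t
    have e : vp (σ (g t) * σ d') = vp (σ d' * σ (g t)) := by rw [← map_mul, hc, map_mul]
    rw [vp_mul, vp_mul, h1, h1, ← hv t] at e
    have e1 := congrFun (congrArg Prod.fst e) 0
    have e2 := congrFun (congrArg Prod.snd e) 1
    have e3 : ((io (v t)).2 ᵥ* mat d⁻¹) 1 * u = (io (v t)).2 1 := by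
      have : (io (v t)).2 ᵥ* mat d⁻¹ ᵥ* mat d = (io (v t)).2 := by
        rw [vecMul_vecMul, ← mat_mul, inv_mul_cancel, mat_one, vecMul_one]
      have := congrFun this 1
      rw [hd, vecMul_diagonal] at this
      simpa using this
    have e4 : (io (v t)).1 0 = (v t).1 0 + (v t).1 0 + (io (v t)).2 1 := by
      simp [io, Sw, dotProduct, Fin.sum_univ_three, vecHead]
    simp only [g, d', Prod.fst_add, Prod.snd_add, Pi.add_apply, ← xx_neg, xx_mulVec, vecMul_xx, hd,
      mulVec_diagonal, Pi.single_eq_same, Matrix.cons_val_zero] at e1 e2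
    rw [e4] at e1
    linear_combination -e1 - (u : O) * e2 - e3
  have lin : ∀ t, (v t).1 0 = t * (v 1).1 0 := by
    intro t
    have hne : ((u : O) - 1) * 2 ≠ 0 :=
      mul_ne_zero (sub_ne_zero.2 fun h => hu (Units.ext h)) two_ne_zero
    refine mul_left_cancel₀ hne ?_
    linear_combination key t - t * key 1
  have par : ∀ s : O, ∃ w, (v (s * s)).1 0 - s = w + w := by
    intro s
    refine two_dvd fun lam => ?_
    let l : Module.Dual ℤ (LL O) :=
      lam ∘ₗ LinearMap.proj (R := ℤ) (φ := fun _ : Fin 3 => O) 0 ∘ₗ LinearMap.fst ℤ (VV O) (VV O)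
    have hl0 : rs l 0 = lam := by
      ext x
      simp [rs, l]
    have e := hl (s * s) l
    rw [D.hB (g (s * s)) _ (bx_nsp h01 _)] at e
    have e1 : ∑ i, ∑ j, c.T (rs l i ∘ₗ LinearMap.mulLeft ℤ
        (Matrix.single (0 : Fin 3) (0 : Fin 3) (3 * (s * s)) i j)) (rs l j) =
        3 * c.T (lam ∘ₗ LinearMap.mulLeft ℤ s) (lam ∘ₗ LinearMap.mulLeft ℤ s) := by
      have e2 : lam ∘ₗ LinearMap.mulLeft ℤ (3 * (s * s)) =
          (3 : ℤ) • ((lam ∘ₗ LinearMap.mulLeft ℤ s) ∘ₗ LinearMap.mulLeft ℤ s) := by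
        ext x
        simp only [LinearMap.comp_apply, LinearMap.mulLeft_apply, LinearMap.smul_apply]
        rw [← map_smul]
        congr 1
        simp only [zsmul_eq_mul, Int.cast_ofNat]
        ring
      rw [Finset.sum_eq_single 0, Finset.sum_eq_single 0, Matrix.single_apply_same, hl0, e2,
        map_smul, LinearMap.smul_apply, smul_eq_mul, c.bal]
      · intro j _ hj
        rw [Matrix.single_apply_of_col_ne _ _ hj.symm]
        simp
      · simp
      · intro i _ hi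
        refine Finset.sum_eq_zero fun j _ => ?_
        rw [Matrix.single_apply_of_row_ne hi.symm]
        simp
      · simp
    rw [e1] at e
    obtain ⟨a, ha⟩ := e
    obtain ⟨b, hb⟩ := c.par (lam ∘ₗ LinearMap.mulLeft ℤ s)
    have e5 : l (v (s * s)) = lam ((v (s * s)).1 0) := rfl
    simp only [LinearMap.comp_apply, LinearMap.mulLeft_apply, mul_one] at hb
    refine ⟨a + b + c.T (lam ∘ₗ LinearMap.mulLeft ℤ s) (lam ∘ₗ LinearMap.mulLeft ℤ s), ?_⟩
    rw [map_sub, ← e5]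
    linear_combination ha + hb
  obtain ⟨w1, hw1⟩ := par 1
  obtain ⟨w2, hw2⟩ := par r
  rw [mul_one] at hw1
  rw [lin] at hw2
  refine two_nsp (O := O) (isUnit_of_mul_isUnit_left (y := w2 - r * r * w1 + r) ?_)
  have e : 2 * (w2 - r * r * w1 + r) = r ^ 2 + r := by
    linear_combination r * r * hw1 - hw2
  rw [e]
  exact hr

end Pool.Agent.MP_434e52_an.TF
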