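import Pool.Agent.MP_434e52_an.TF.Defs

/-! Torsion-free twins: row Ring. The ring of the eleventh roots of unity. -/

set_option autoImplicit false

namespace Pool.Agent.MP_434e52_an.TF

open Matrix Filter Topology MeasureTheory NL

section RG

variable {O : Type} [CommRing O]

/-- The powers of a root of unity, indexed modulo eleven. -/
def pwRing (z : O) (j : ZMod 11) : O := z ^ j.val

theorem pw_addRing {z : O} (hz : z ^ 11 = 1) (i j : ZMod 11) :
    pwRing z (i + j) = pwRing z i * pwRing z j := by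
  unfold pwRing
  rw [ZMod.val_add, ← pow_add]
  exact (pow_eq_pow_mod _ hz).symm

/-- The form. -/
def formRing (z : O) : Module.Dual ℤ O →ₗ[ℤ] Module.Dual ℤ O →ₗ[ℤ] ℤ :=
  LinearMap.mk₂ ℤ (fun l m => ∑ j : ZMod 11, l (pwRing z j) * m (pwRing z (-j)))
    (fun l l' m => by simp only [LinearMap.add_apply, add_mul, Finset.sum_add_distrib])
    (fun c l m => by simp only [LinearMap.smul_apply, smul_eq_mul, Finset.mul_sum, mul_assoc])
    (fun l m m' => by simp only [LinearMap.add_apply, mul_add, Finset.sum_add_distrib])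
    (fun c l m => by
      simp only [LinearMap.smul_apply, smul_eq_mul, Finset.mul_sum, mul_left_comm])

theorem form_applyRing (z : O) (l m : Module.Dual ℤ O) :
    formRing z l m = ∑ j : ZMod 11, l (pwRing z j) * m (pwRing z (-j)) := rfl

theorem form_symmRing (z : O) (l m : Module.Dual ℤ O) : formRing z l m = formRing z m l := by
  rw [form_applyRing, form_applyRing]
  refine Fintype.sum_equiv (Equiv.neg _) _ _ fun j => ?_
  simp only [Equiv.neg_apply, neg_neg, mul_comm]

theorem form_zRing {z : O} (hz : z ^ 11 = 1) (l m : Module.Dual ℤ O) :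
    formRing z (l ∘ₗ LinearMap.mulLeft ℤ z) m = formRing z l (m ∘ₗ LinearMap.mulLeft ℤ z) := by
  rw [form_applyRing, form_applyRing]
  have h1 : pwRing z 1 = z := pow_one z
  refine Fintype.sum_equiv (Equiv.addLeft 1) _ _ fun j => ?_
  simp only [Equiv.coe_addLeft, LinearMap.comp_apply, LinearMap.mulLeft_apply]
  have e1 : z * pwRing z j = pwRing z (1 + j) := by rw [pw_addRing hz, h1]
  have e2 : z * pwRing z (-(1 + j)) = pwRing z (-j) := by
    have : -j = 1 + -(1 + j) := by ring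
    rw [this, pw_addRing hz 1, h1]
  rw [e1, e2]

theorem form_balRing {z : O} (hz : z ^ 11 = 1) (hg : Algebra.adjoin ℤ {z} = ⊤) (r : O) :
    ∀ l m : Module.Dual ℤ O,
    formRing z (l ∘ₗ LinearMap.mulLeft ℤ r) m = formRing z l (m ∘ₗ LinearMap.mulLeft ℤ r) := by
  have hr : r ∈ Algebra.adjoin ℤ {z} := hg ▸ Algebra.mem_top
  induction hr using Algebra.adjoin_induction with
  | mem x hx =>
    intro l m
    rw [Set.mem_singleton_iff.1 hx]
    exact form_zRing hz l m
  | algebraMap c =>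
    intro l m
    have e : ∀ k : Module.Dual ℤ O, k ∘ₗ LinearMap.mulLeft ℤ (algebraMap ℤ O c) = c • k := by
      intro k
      ext y
      simp only [LinearMap.comp_apply, LinearMap.mulLeft_apply, LinearMap.smul_apply,
        ← Algebra.smul_def, map_smul]
    rw [e, e, map_smul, map_smul, LinearMap.smul_apply]
  | add x y _ _ hx hy =>
    intro l m
    have e : ∀ k : Module.Dual ℤ O, k ∘ₗ LinearMap.mulLeft ℤ (x + y) =
        k ∘ₗ LinearMap.mulLeft ℤ x + k ∘ₗ LinearMap.mulLeft ℤ y := by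
      intro k
      ext w
      simp only [LinearMap.comp_apply, LinearMap.mulLeft_apply, LinearMap.add_apply, add_mul,
        map_add]
    rw [e, e, map_add, map_add, LinearMap.add_apply, hx, hy]
  | mul x y _ _ hx hy =>
    intro l m
    have e : ∀ (k : Module.Dual ℤ O) (a b : O), k ∘ₗ LinearMap.mulLeft ℤ (a * b) =
        (k ∘ₗ LinearMap.mulLeft ℤ a) ∘ₗ LinearMap.mulLeft ℤ b := by
      intro k a b
      ext w
      simp only [LinearMap.comp_apply, LinearMap.mulLeft_apply, mul_assoc]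
    rw [e l x y, hy, hx, ← e m y x, mul_comm y x]

theorem form_parRing (z : O) (l : Module.Dual ℤ O) : Even (formRing z l l - l 1) := by
  rw [form_applyRing]
  have h0 : pwRing z 0 = 1 := pow_zero z
  obtain ⟨a, ha⟩ : ∃ a : ZMod 11 → ℤ, a = fun j => l (pwRing z j) := ⟨_, rfl⟩
  have e : ∑ j : ZMod 11, l (pwRing z j) * l (pwRing z (-j)) = ∑ j : Fin 11, a j * a (-j) := by
    rw [ha]; rfl
  have e0 : l 1 = a 0 := by rw [ha, ← h0]
  have e2 : ∑ j : Fin 11, a j * a (-j) = a 0 * a 0 + a 1 * a 10 + a 2 * a 9 + a 3 * a 8 +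
      a 4 * a 7 + a 5 * a 6 + a 6 * a 5 + a 7 * a 4 + a 8 * a 3 + a 9 * a 2 + a 10 * a 1 := by
    simp only [Fin.sum_univ_castSucc, Fin.sum_univ_zero, zero_add]
    rfl
  rw [e, e0, e2]
  obtain ⟨k, hk⟩ : Even (a 0 * (a 0 - 1)) := Int.even_mul_pred_self _
  exact ⟨k + a 1 * a 10 + a 2 * a 9 + a 3 * a 8 + a 4 * a 7 + a 5 * a 6, by linarith⟩

theorem diffRing [IsDomain O] {z : O} (hz : IsPrimitiveRoot z 11) {i j : ℕ} (hij : j < i)
    (hi : i < 8) :
    IsUnit (∑ k ∈ Finset.range i, z ^ k - ∑ k ∈ Finset.range j, z ^ k) := by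
  obtain ⟨d, rfl⟩ := Nat.exists_eq_add_of_le hij.le
  rw [Finset.sum_range_add, add_sub_cancel_left]
  simp only [pow_add, ← Finset.mul_sum]
  refine ((hz.isUnit (by norm_num)).pow j).mul (hz.geom_sum_isUnit (by norm_num) ?_)
  have h1 : 0 < d := by omega
  have h2 : d < 8 := by omega
  interval_cases d <;> norm_num

theorem congRing [IsDomain O] [CharZero O] [Module.Free ℤ O] [Module.Finite ℤ O] (v : Oˣ) :
    ∃ n, 0 < n ∧ (6 : O) ∣ ((v ^ n : Oˣ) : O) - 1 := by
  have hI : Ideal.span {(6 : O)} ≠ ⊥ := by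
    rw [Ne, Ideal.span_singleton_eq_bot]
    norm_num
  have : Finite (O ⧸ Ideal.span {(6 : O)}) := Ideal.finiteQuotientOfFreeOfNeBot _ hI
  obtain ⟨n, hn, h⟩ := isOfFinOrder_iff_pow_eq_one.1 (isOfFinOrder_of_finite
    (Units.map (Ideal.Quotient.mk (Ideal.span {(6 : O)})).toMonoidHom v))
  refine ⟨n, hn, ?_⟩
  rw [← Ideal.mem_span_singleton, ← Ideal.Quotient.eq, map_one]
  rw [← map_pow] at h
  exact congrArg Units.val h

end RG

theorem infRing {z : ℂ} (hz : IsPrimitiveRoot z 11) {n : ℕ} (hn : 0 < n) : (1 + z) ^ n ≠ 1 := by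
  intro h
  have h1 : ‖1 + z‖ = 1 := by
    have := congrArg norm h
    rw [norm_pow, norm_one] at this
    exact (pow_eq_one_iff_of_nonneg (norm_nonneg _) hn.ne').1 this
  have h2 : ‖z‖ = 1 := hz.norm'_eq_one (by norm_num)
  have h3 : (1 + z) * (starRingEnd ℂ) (1 + z) = 1 := by
    rw [Complex.mul_conj, Complex.normSq_eq_norm_sq, h1]; norm_num
  have h4 : z * (starRingEnd ℂ) z = 1 := by
    rw [Complex.mul_conj, Complex.normSq_eq_norm_sq, h2]; norm_num
  rw [map_add, map_one] at h3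
  have h5 : z ^ 3 = 1 := by
    linear_combination (z - 1) * z * h3 - (z - 1) * (z + 1) * h4
  have := (hz.pow_eq_one_iff_dvd 3).1 h5
  omega

theorem exists_ring : ∃ (O : Type) (_ : CommRing O) (_ : IsDomain O) (_ : CharZero O)
    (_ : Module.Free ℤ O) (_ : Module.Finite ℤ O), Nonempty (Cas O) ∧
    (∃ s : Fin 8 → O, ∀ i j, i ≠ j → IsUnit (s i - s j)) ∧ (∃ r : O, IsUnit (r ^ 2 + r)) ∧
    ∃ u : Oˣ, u ≠ 1 ∧ (6 : O) ∣ (u : O) - 1 := by
  obtain ⟨w, hw⟩ : ∃ w : ℂ, IsPrimitiveRoot w 11 := ⟨_, Complex.isPrimitiveRoot_exp 11 (by norm_num)⟩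
  have hint : IsIntegral ℤ w := hw.isIntegral (by norm_num)
  have hfin : Module.Finite ℤ (Algebra.adjoin ℤ {w}) :=
    Algebra.finite_adjoin_simple_of_isIntegral hint
  have hfree : Module.Free ℤ (Algebra.adjoin ℤ {w}) := inferInstance
  obtain ⟨z, hzw⟩ : ∃ z : Algebra.adjoin ℤ {w}, (z : ℂ) = w :=
    ⟨⟨w, Algebra.self_mem_adjoin_singleton ℤ w⟩, rfl⟩
  have hz : IsPrimitiveRoot z 11 := by
    refine IsPrimitiveRoot.of_map_of_injective (f := (Algebra.adjoin ℤ {w}).val) ?_
      Subtype.val_injective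
    rw [← hzw] at hw
    exact hw
  have hg : Algebra.adjoin ℤ {z} = ⊤ := by
    apply Subalgebra.map_injective (f := (Algebra.adjoin ℤ {w}).val) Subtype.val_injective
    rw [AlgHom.map_adjoin, Set.image_singleton, Algebra.map_top, Subalgebra.range_val]
    exact congrArg (fun t => Algebra.adjoin ℤ {t}) hzw
  have h2 : IsUnit (1 + z) := by
    have := hz.geom_sum_isUnit (j := 2) (by norm_num) (by norm_num)
    simpa [Finset.sum_range_succ] using this
  refine ⟨Algebra.adjoin ℤ {w}, inferInstance, inferInstance, inferInstance, hfree, hfin,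
    ⟨⟨formRing z, form_symmRing z, form_balRing hz.pow_eq_one hg, form_parRing z⟩⟩,
    ⟨fun i => ∑ k ∈ Finset.range i, z ^ k, fun i j hij => ?_⟩, ⟨z, ?_⟩, ?_⟩
  · rcases lt_or_gt_of_ne hij with h | h
    · rw [← neg_sub]
      exact (diffRing hz h j.2).neg
    · exact diffRing hz h i.2
  · have : z ^ 2 + z = z * (1 + z) := by ring
    rw [this]
    exact (hz.isUnit (by norm_num)).mul h2
  · obtain ⟨n, hn, h⟩ := congRing h2.unit
    refine ⟨h2.unit ^ n, fun e => infRing hw hn ?_, h⟩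
    have := congrArg (fun t : (Algebra.adjoin ℤ {w})ˣ => ((t : Algebra.adjoin ℤ {w}) : ℂ)) e
    simpa [hzw] using this

end Pool.Agent.MP_434e52_an.TF
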