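import Pool.Agent.MP_434e52_an.TF.Rad

/-! Torsion-free twins: row Spl. An isomorphism splits the extension; linearity. -/

set_option autoImplicit false

namespace Pool.Agent.MP_434e52_an.TF

open Matrix Filter Topology MeasureTheory NL

variable {O : Type} [CommRing O] [IsDomain O] [CharZero O]

omit [IsDomain O] [CharZero O] in
theorem extSpl {e f : EE O} (hb : e.b = f.b) (hx : e.x = f.x) (hg : e.g = f.g) : e = f := by
  refine Hs.ext ?_ hb hx hg
  obtain ⟨a, ha⟩ := QuotientAddGroup.mk_surjective e.z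
  obtain ⟨c, hc⟩ := QuotientAddGroup.mk_surjective f.z
  rw [← ha, ← hc]
  exact QuotientAddGroup.eq.2 (AddSubgroup.mem_top _)

/-- The projection to the matrix part. -/
def prSpl (H : Subgroup (EE O)) : H →* KK O where
  toFun e := e.1.g
  map_one' := rfl
  map_mul' _ _ := rfl

theorem kerSpl (G G' : Subgroup (EE O)) [G'.FiniteIndex] (φ : G ≃* G') (e : G) (he : e.1.g = 1) :
    (φ e).1.g = 1 := by
  have hn : ((prSpl G).ker.map φ.toMonoidHom).Normal :=
    Subgroup.Normal.map inferInstance _ φ.surjective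
  refine rad G' ((prSpl G).ker.map φ.toMonoidHom) ?_ (φ e) ⟨e, he, rfl⟩
  rintro _ ⟨a, ha, rfl⟩ _ ⟨b, hb, rfl⟩
  have ha' : a.1.g = 1 := ha
  have hb' : b.1.g = 1 := hb
  rw [← map_mul, ← map_mul]
  refine congrArg _ (Subtype.ext (extSpl ?_ ?_ ?_))
  · show a.1.b ᵥ* mat b.1.g + b.1.b = b.1.b ᵥ* mat a.1.g + a.1.b
    rw [ha', hb', mat_one, vecMul_one, vecMul_one, add_comm]
  · show a.1.x + mat a.1.g *ᵥ b.1.x = b.1.x + mat b.1.g *ᵥ a.1.x
    rw [ha', hb', mat_one, one_mulVec, one_mulVec, add_comm]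
  · show a.1.g * b.1.g = b.1.g * a.1.g
    rw [ha', hb']

theorem spl (Q : Subgroup (KK O)) (G G' : Subgroup (EE O)) [G.FiniteIndex] [G'.FiniteIndex]
    (hG : ∀ e ∈ G, e.g ∈ Q) (hG' : ∀ e ∈ G', e.g ∈ Q) (hk : ∀ g ∈ Q, Hs.kk ⊤ g ∈ G)
    (ho : ∀ g ∈ Q, ∃ e ∈ G', e.g = g) (φ : G ≃* G') :
    ∃ σ : Q →* EE O, ∀ g, σ g ∈ G' ∧ (σ g).g = g.1 := by
  obtain ⟨k, hkk⟩ : ∃ k : Q →* G, ∀ g, (k g).1.g = g.1 :=
    ⟨((Hs.kk ⊤).comp Q.subtype).codRestrict G fun g => hk g.1 g.2, fun _ => rfl⟩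
  obtain ⟨α, hα⟩ : ∃ α : Q →* Q, ∀ g, (α g).1 = (φ (k g)).1.g :=
    ⟨((prSpl G').comp (φ.toMonoidHom.comp k)).codRestrict Q fun g => hG' _ (φ (k g)).2,
      fun _ => rfl⟩
  have hi : Function.Injective α := by
    refine (injective_iff_map_eq_one _).2 fun g hg => Subtype.ext ?_
    have h1 : (φ (k g)).1.g = 1 := by rw [← hα, hg]; rfl
    have h2 := kerSpl G' G φ.symm _ h1
    rw [φ.symm_apply_apply, hkk] at h2
    exact h2
  have hs : Function.Surjective α := by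
    intro h
    obtain ⟨e', he', hh⟩ := ho h.1 h.2
    obtain ⟨e, he⟩ := φ.surjective ⟨e', he'⟩
    refine ⟨⟨e.1.g, hG _ e.2⟩, Subtype.ext ?_⟩
    have h1 : ((k ⟨e.1.g, hG _ e.2⟩)⁻¹ * e).1.g = 1 := by
      show ((k ⟨e.1.g, hG _ e.2⟩).1.g)⁻¹ * e.1.g = 1
      rw [hkk]
      exact inv_mul_cancel _
    have h2 := kerSpl G G' φ _ h1
    rw [map_mul, map_inv, he] at h2
    have h3 : ((φ (k ⟨e.1.g, hG _ e.2⟩)).1.g)⁻¹ * e'.g = 1 := h2
    rw [hα, ← hh]
    exact inv_mul_eq_one.1 h3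
  refine ⟨G'.subtype.comp (φ.toMonoidHom.comp (k.comp
    (MulEquiv.ofBijective α ⟨hi, hs⟩).symm.toMonoidHom)), fun g => ⟨(φ _).2, ?_⟩⟩
  exact (hα _).symm.trans
    (congrArg Subtype.val ((MulEquiv.ofBijective α ⟨hi, hs⟩).apply_symm_apply g))

/-- The affine action. -/
def opSpl (e : EE O) : Module.End O (VV O × VV O × O) where
  toFun w := (mat e.g *ᵥ w.1 + w.2.2 • e.x, (w.2.1 + w.2.2 • e.b) ᵥ* mat e.g⁻¹, w.2.2)
  map_add' w w' := by
    simp only [Prod.fst_add, Prod.snd_add, mulVec_add, add_vecMul, smul_vecMul, Prod.mk_add_mk,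
      Prod.mk.injEq, and_true]
    exact ⟨by module, by module⟩
  map_smul' r w := by
    simp only [Prod.smul_fst, Prod.smul_snd, mulVec_smul, add_vecMul, smul_vecMul, smul_eq_mul,
      RingHom.id_apply, Prod.smul_mk, Prod.mk.injEq, and_true]
    exact ⟨by module, by module⟩

omit [IsDomain O] [CharZero O] in
theorem op_applySpl (e : EE O) (v ξ : VV O) (s : O) :
    opSpl e (v, ξ, s) = (mat e.g *ᵥ v + s • e.x, (ξ + s • e.b) ᵥ* mat e.g⁻¹, s) := rfl

/-- The affine representation. -/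
def repSpl (O : Type) [CommRing O] : EE O →* Module.End O (VV O × VV O × O) where
  toFun := opSpl
  map_one' := LinearMap.ext fun ⟨v, ξ, s⟩ => by
    simp [op_applySpl, mat_one]
  map_mul' e f := LinearMap.ext fun ⟨v, ξ, s⟩ => by
    have h : mat f.g * (mat f.g⁻¹ * mat e.g⁻¹) = mat e.g⁻¹ := by
      rw [← mat_mul, ← mat_mul, mul_inv_cancel_left]
    simp only [Module.End.mul_apply, op_applySpl, Hs.mul_b, Hs.mul_x, Hs.mul_g, _root_.mul_inv_rev,
      mat_mul, smul_add, mulVec_add, mulVec_smul, mulVec_mulVec, add_vecMul, smul_vecMul,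
      vecMul_vecMul, h, Prod.mk.injEq, and_true]
    exact ⟨by module, by module⟩

omit [IsDomain O] [CharZero O] in
theorem rep_injSpl : Function.Injective (repSpl O) := by
  refine (injective_iff_map_eq_one _).2 fun e he => ?_
  have h : ∀ v ξ s, opSpl e (v, ξ, s) = (v, ξ, s) := fun v ξ s => LinearMap.congr_fun he _
  simp only [op_applySpl, Prod.mk.injEq] at h
  have hg : e.g = 1 := by
    apply mat_injective
    ext i j : 1
    simpa [mat_one, one_apply, Pi.single_apply] using congrFun (h (Pi.single j 1) 0 0).1 i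
  refine extSpl ?_ ?_ hg
  · simpa [hg, mat_one] using (h 0 0 1).2.1
  · simpa using (h 0 0 1).1

theorem lin [Module.Free ℤ O] [Module.Finite ℤ O] :
    ∃ (n : ℕ) (j : EE O →* GL (Fin n) ℤ), Function.Injective j := by
  obtain ⟨ρ, hρ⟩ : ∃ ρ : EE O →* Module.End ℤ (VV O × VV O × O), Function.Injective ρ :=
    ⟨{ toFun := fun e => (repSpl O e).restrictScalars ℤ
       map_one' := by rw [map_one]; rfl
       map_mul' := fun e f => by rw [map_mul]; rfl },
      fun e f h => rep_injSpl (LinearMap.restrictScalars_injective ℤ h)⟩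
  refine ⟨_, ((LinearMap.toMatrixAlgEquiv
    (Module.finBasis ℤ (VV O × VV O × O))).toMulEquiv.toMonoidHom.comp ρ).toHomUnits,
    fun g h e => hρ ?_⟩
  exact (LinearMap.toMatrixAlgEquiv (Module.finBasis ℤ (VV O × VV O × O))).injective
    (congrArg Units.val e)

end Pool.Agent.MP_434e52_an.TF
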