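import Pool.Agent.MP_434e52_an.TF.Defs

/-! Torsion-free twins: row Tor. No torsion (Minkowski). -/

set_option autoImplicit false

namespace Pool.Agent.MP_434e52_an.TF

open Matrix Filter Topology MeasureTheory NL

theorem bin_tor {A : Type} [Ring A] (x : A) (n : ℕ) :
    ∃ c, (1 + x) ^ n = 1 + (n : ℤ) • x + x * x * c := by
  induction n with
  | zero => exact ⟨0, by simp⟩
  | succ n ih =>
    obtain ⟨c, hc⟩ := ih
    refine ⟨(n : ℤ) • 1 + c + c * x, ?_⟩
    rw [pow_succ, hc]
    simp only [Nat.cast_succ, add_smul, one_smul, mul_add, add_mul, mul_one, one_mul,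
      smul_mul_assoc, mul_smul_comm, mul_assoc]
    abel

theorem mink_tor {A : Type} [Ring A] (tf : ∀ (k : ℕ) (x : A), (3 : ℤ) ^ k • x = 0 → x = 0)
    (sep : ∀ x : A, (∀ k : ℕ, ∃ y, x = (3 : ℤ) ^ (k + 1) • y) → x = 0) (n : ℕ) (n0 : n ≠ 0) :
    ∀ x : A, (∃ y, x = (3 : ℤ) • y) → (1 + x) ^ n = 1 → x = 0 := by
  induction n using Nat.strong_induction_on with
  | _ n ih =>
  intro x hx hn
  have cube : ∀ x : A, (1 + x) ^ 3 = 1 + ((3 : ℤ) • x + (3 : ℤ) • (x * x) + x * x * x) :=
    fun x => by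
      simp only [pow_succ, pow_zero, mul_add, add_mul, mul_one, one_mul]
      abel
  refine sep x fun k => ?_
  induction k with
  | zero => simpa using hx
  | succ k ik =>
    obtain ⟨B, hB⟩ := ik
    suffices h : ∃ y, B = (3 : ℤ) • y by
      obtain ⟨y, rfl⟩ := h
      exact ⟨y, by rw [hB, smul_smul, ← pow_succ]⟩
    by_cases h3 : 3 ∣ n
    · obtain ⟨m, rfl⟩ := h3
      obtain ⟨y, hy⟩ := hx
      rw [pow_mul, cube] at hn
      have z := ih m (by omega) (by omega) _ ⟨x + x * x + y * x * x, by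
        rw [smul_add, smul_add, ← smul_mul_assoc (3 : ℤ) (y * x) x, ← smul_mul_assoc (3 : ℤ) y x,
          ← hy]⟩ hn
      have w := tf (k + 2) (B + (3 : ℤ) • ((3 : ℤ) ^ k • (B * B) + (3 : ℤ) ^ (2 * k) • (B * B * B)))
        (by
          rw [← z, hB]
          simp only [smul_add, smul_mul_assoc, mul_smul_comm, smul_smul, add_assoc]
          congr 1
          · congr 1
            ring
          · congr 1 <;> congr 1 <;> ring)
      exact ⟨_, by rw [smul_neg]; exact eq_neg_of_add_eq_zero_left w⟩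
    · obtain ⟨c, hc⟩ := bin_tor x n
      rw [hn, add_assoc, left_eq_add, hB] at hc
      have w := tf (k + 1) ((n : ℤ) • B + (3 : ℤ) • ((3 : ℤ) ^ k • (B * B * c))) (by
        rw [← hc]
        simp only [smul_add, smul_mul_assoc, mul_smul_comm, smul_smul]
        congr 1 <;> congr 1 <;> ring)
      obtain ⟨u, v, huv⟩ : IsCoprime (n : ℤ) 3 := by
        have := Nat.isCoprime_iff_coprime.2 ((Nat.Prime.coprime_iff_not_dvd Nat.prime_three).2 h3)
        exact_mod_cast this.symm
      refine ⟨v • B - u • ((3 : ℤ) ^ k • (B * B * c)), ?_⟩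
      rw [smul_sub, smul_comm (3 : ℤ) u, eq_neg_of_add_eq_zero_right w, smul_neg, sub_neg_eq_add,
        smul_smul, smul_smul, ← add_smul, mul_comm 3 v, add_comm, huv, one_smul]

theorem tor {O : Type} [CommRing O] [IsDomain O] [CharZero O] [Module.Free ℤ O]
    [Module.Finite ℤ O] {e : EE O} (h3 : ∀ i j, (3 : O) ∣ (mat e.g - 1) i j)
    (he : IsOfFinOrder e) : e = 1 := by
  obtain ⟨n, n0, hn⟩ := isOfFinOrder_iff_pow_eq_one.1 he
  have pg : ∀ n : ℕ, mat (e ^ n).g = mat e.g ^ n := fun n => by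
    induction n with
    | zero => rw [pow_zero, pow_zero, Hs.one_g, mat_one]
    | succ n ih => rw [pow_succ, pow_succ, Hs.mul_g, mat_mul, ih]
  have g1 : mat e.g = 1 := by
    rw [← sub_eq_zero]
    refine mink_tor (fun k x h => ?_) (fun x h => ?_) n n0.ne' _ ?_ ?_
    · ext i j
      have := congrFun (congrFun h i) j
      simpa using this
    · ext i j
      let b := Module.Free.chooseBasis ℤ O
      refine b.ext_elem fun l => ?_
      rw [Matrix.zero_apply, map_zero, Finsupp.zero_apply]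
      obtain ⟨y, hy⟩ := h (b.repr (x i j) l).natAbs
      refine Int.eq_zero_of_dvd_of_natAbs_lt_natAbs
        (d := 3 ^ ((b.repr (x i j) l).natAbs + 1)) ⟨b.repr (y i j) l, ?_⟩ ?_
      · have := congrFun (congrFun hy i) j
        rw [Matrix.smul_apply] at this
        exact (congrArg (fun t => b.repr t l) this).trans
          (by rw [map_smul, Finsupp.smul_apply, smul_eq_mul])
      · rw [Int.natAbs_pow]
        exact (Nat.lt_succ_self _).trans (Nat.lt_pow_self (by norm_num))
    · choose y hy using h3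
      refine ⟨Matrix.of y, ?_⟩
      ext i j
      rw [hy]
      simp
    · rw [add_sub_cancel, ← pg, hn, Hs.one_g, mat_one]
  have pb : ∀ n : ℕ, (e ^ n).b = n • e.b ∧ (e ^ n).x = n • e.x := fun n => by
    induction n with
    | zero => simp
    | succ n ih =>
      rw [pow_succ, Hs.mul_b, Hs.mul_x, pg, g1, one_pow, ih.1, ih.2, vecMul_one, one_mulVec,
        succ_nsmul, succ_nsmul]
      exact ⟨rfl, rfl⟩
  obtain ⟨h1, h2⟩ := pb n
  rw [hn] at h1 h2
  have z : ∀ v : VV O, 0 = n • v → v = 0 := fun v h => funext fun i => by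
    have := congrFun h i
    simpa [n0.ne'] using this
  exact Hs.ext (QuotientAddGroup.subsingleton_quotient_top.elim _ _) (z _ h1) (z _ h2)
    (mat_injective g1)

end Pool.Agent.MP_434e52_an.TF
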