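import Pool.Agent.MP_434e52_an.TF.KT
import Pool.Agent.MP_434e52_an.TF.FI
import Pool.Agent.MP_434e52_an.TF.Ring
import Pool.Agent.MP_434e52_an.TF.Spl
import Pool.Agent.MP_434e52_an.TF.Nsp
import Pool.Agent.MP_434e52_an.TF.Tor

/-! Torsion-free twins: row Fin. Assembly. -/

set_option autoImplicit false

namespace Pool.Agent.MP_434e52_an.TF

open Matrix Filter Topology MeasureTheory NL

/-- Transport along an isomorphism. -/
def Aff.comap {Q V H H' : Type} [Group Q] [AddCommGroup V] [Group H] [Group H']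
    {ρ : Q →* Module.End ℤ V} {c : Q → Module.Dual ℤ V → ℤ} (M : Aff ρ c H) (e : H' ≃* H) :
    Aff ρ c H' where
  p := M.p.comp e.toMonoidHom
  w x := M.w (e x)
  w_mul x y := by
    rw [map_mul, M.w_mul]
    rfl
  inj x y h1 h2 := e.injective (M.inj _ _ h1 h2)
  rng g v := by
    rw [← M.rng]
    exact ⟨fun ⟨x, h⟩ => ⟨e x, h⟩, fun ⟨x, h⟩ => ⟨e.symm x, by
      simpa only [MonoidHom.comp_apply, MulEquiv.coe_toMonoidHom, e.apply_symm_apply] using h⟩⟩

theorem props_fin {O Γ : Type} [CommRing O] [IsDomain O] [CharZero O] [Module.Free ℤ O]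
    [Module.Finite ℤ O] [Group Γ] (hT : PropT (EE O)) (G : Subgroup (EE O)) [G.FiniteIndex]
    (h3 : ∀ e ∈ G, InQ e.g) (e : Γ ≃* G) :
    (∀ g : Γ, IsOfFinOrder g → g = 1) ∧ ICC Γ ∧ PropT Γ := by
  have hi : Function.Injective (G.subtype.comp e.toMonoidHom) :=
    G.subtype_injective.comp e.injective
  have hr : (G.subtype.comp e.toMonoidHom).range = G := by
    rw [MonoidHom.range_comp, MonoidHom.range_eq_top.2 e.surjective, ← MonoidHom.range_eq_map,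
      Subgroup.range_subtype]
  have : (G.subtype.comp e.toMonoidHom).range.FiniteIndex := hr.symm ▸ inferInstance
  refine ⟨fun g hg => hi ?_, icc_fi _ hi Hs.icc_top, propT_fi _ hi hT⟩
  rw [map_one]
  exact tor (h3 _ (e g).2).2 (MonoidHom.isOfFinOrder (G.subtype.comp e.toMonoidHom) hg)

theorem main : ∃ (n : ℕ) (G G' : Subgroup (GL (Fin n) ℤ)), Subgroup.Commensurable G G' ∧
    (∀ g : G, IsOfFinOrder g → g = 1) ∧ (∀ g : G', IsOfFinOrder g → g = 1) ∧ ICC G ∧ ICC G' ∧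
    PropT G ∧ PropT G' ∧ VNIso G G' ∧ IsEmpty (G ≃* G') := by
  obtain ⟨O, _, _, _, _, _, ⟨c⟩, ⟨s, hs⟩, ⟨r, hr⟩, u, hu, h6⟩ := exists_ring
  obtain ⟨D⟩ := exists_dat c
  have : Countable O := (Module.Free.chooseBasis ℤ O).repr.injective.countable
  obtain ⟨G, hG, ⟨M⟩⟩ := exists_sub D (fun _ _ => 0) (fun _ => rfl) fun _ _ _ => rfl
  obtain ⟨G', hG', ⟨M'⟩⟩ := exists_sub D (fun g l => Bf D.ρ D.β g l l)
    (fun l => by simp only [Bf, map_one, Module.End.one_eq_id, LinearMap.comp_id, sub_self])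
    fun g h l => by
      simp only [Bf, map_mul, Module.End.mul_eq_comp, LinearMap.comp_assoc]
      ring
  have f1 := fin_idx D G (Or.inl hG)
  have f2 := fin_idx D G' (Or.inr hG')
  have q1 : ∀ e ∈ G, e.g ∈ D.Q := fun e he => ((hG e).1 he).1
  have q2 : ∀ e ∈ G', e.g ∈ D.Q := fun e he => ((hG' e).1 he).1
  obtain ⟨n, j, hj⟩ := lin (O := O)
  let e := (G.equivMapOfInjective j hj).symm
  let e' := (G'.equivMapOfInjective j hj).symm
  obtain ⟨a1, a2, a3⟩ := props_fin (propT_E hs) G (fun x hx => (D.hQ _).1 (q1 x hx)) e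
  obtain ⟨b1, b2, b3⟩ := props_fin (propT_E hs) G' (fun x hx => (D.hQ _).1 (q2 x hx)) e'
  refine ⟨n, G.map j, G'.map j, ⟨?_, ?_⟩, a1, b1, a2, b2, a3, b3,
    vn_lat D.ρ D.β D.symm (M.comap e) (M'.comap e'), ⟨fun φ => ?_⟩⟩
  · rw [Subgroup.relIndex_map_map_of_injective _ _ hj]
    exact Subgroup.isFiniteRelIndex_of_finiteIndex.relIndex_ne_zero
  · rw [Subgroup.relIndex_map_map_of_injective _ _ hj]
    exact Subgroup.isFiniteRelIndex_of_finiteIndex.relIndex_ne_zero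
  obtain ⟨σ, hσ⟩ := spl D.Q G G' q1 q2 (fun g hg => (hG _).2 ⟨hg, 0, by
      simp only [io, vp, Hs.kk, MonoidHom.coe_mk, OneHom.coe_mk, Prod.fst_zero, Prod.snd_zero,
        add_zero, mulVec_zero, zero_vecMul], fun l => by simp⟩)
    (fun g hg => by
      let B : Module.Dual ℤ (LL O) →ₗ[ℤ] Module.Dual ℤ (LL O) →ₗ[ℤ] ℤ :=
        D.β.compl₁₂ (D.ρ ⟨g, hg⟩).dualMap (D.ρ ⟨g, hg⟩).dualMap - D.β
      obtain ⟨v, hv⟩ := exists_par B (D.symm ⟨g, hg⟩)
      refine ⟨⟨0, (io v).2 ᵥ* mat g, (io v).1, g⟩, (hG' _).2 ⟨hg, v, ?_, hv⟩, rfl⟩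
      simp only [vp, vecMul_vecMul, ← mat_mul, mul_inv_cancel, mat_one, vecMul_one])
    ((e.symm.trans φ).trans e')
  exact nsp D hr hu h6 σ (fun g => (hσ g).2) fun g => (hG' _).1 (hσ g).1

end Pool.Agent.MP_434e52_an.TF
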