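import Pool.Agent.MP_434e52_an.TF.Defs

/-! Torsion-free twins: row Gel. Gelfand duality for two commuting unitaries and the pointwise inequality. -/

set_option autoImplicit false

namespace Pool.Agent.MP_434e52_an.TF

open Matrix Filter Topology MeasureTheory NL

theorem gel {E : Type} [NormedAddCommGroup E] [InnerProductSpace ℂ E] [CompleteSpace E]
    {a b : E →L[ℂ] E} (ha : a ∈ unitary (E →L[ℂ] E)) (hb : b ∈ unitary (E →L[ℂ] E))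
    (hab : Commute a b) : ∃ (X : Type) (_ : TopologicalSpace X) (_ : CompactSpace X)
      (Φ : C(X, ℂ) →⋆ₐ[ℂ] (E →L[ℂ] E)) (f g : C(X, ℂ)), Φ f = a ∧ Φ g = b ∧
      (∀ x, ‖f x‖ = 1) ∧ ∀ x, ‖g x‖ = 1 := by
  have a1 : star a * a = 1 := ha.1
  have a2 : a * star a = 1 := ha.2
  have b1 : star b * b = 1 := hb.1
  have b2 : b * star b = 1 := hb.2
  have c1 : Commute a (star b) := by
    have : a * star b = star b * (b * a) * star b := by rw [← mul_assoc, b1, one_mul]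
    rw [Commute, SemiconjBy, this, ← hab.eq, mul_assoc, mul_assoc, b2, mul_one]
  have c2 : Commute (star a) b := by
    have := c1.star_star
    rwa [star_star] at this
  have c3 : Commute (star a) (star b) := hab.star_star
  have ca : Commute a (star a) := a2.trans a1.symm
  have cb : Commute b (star b) := b2.trans b1.symm
  let T : Set (E →L[ℂ] E) := {a, b}
  let C1 : StarSubalgebra ℂ (E →L[ℂ] E) := StarSubalgebra.centralizer ℂ T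
  let A : StarSubalgebra ℂ (E →L[ℂ] E) := StarSubalgebra.centralizer ℂ (C1 : Set (E →L[ℂ] E))
  have mC : ∀ z, z ∈ C1 ↔ ∀ g ∈ T, g * z = z * g ∧ star g * z = z * star g := fun z =>
    StarSubalgebra.mem_centralizer_iff ℂ
  have mA : ∀ z, z ∈ A ↔ ∀ g ∈ C1, g * z = z * g ∧ star g * z = z * star g := fun z =>
    StarSubalgebra.mem_centralizer_iff ℂ
  have hTA : ∀ t ∈ T, t ∈ A := fun t ht => (mA t).2 fun g hg =>
    ⟨((mC g).1 hg t ht).1.symm, ((mC (star g)).1 (star_mem hg) t ht).1.symm⟩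
  have hTC : ∀ t ∈ T, t ∈ C1 := fun t ht => (mC t).2 fun g hg => by
    rcases ht with rfl | rfl <;> rcases hg with rfl | rfl
    · exact ⟨rfl, ca.symm.eq⟩
    · exact ⟨hab.symm.eq, c1.symm.eq⟩
    · exact ⟨hab.eq, c2.eq⟩
    · exact ⟨rfl, cb.symm.eq⟩
  have hAC : ∀ z ∈ A, z ∈ C1 := fun z hz => (mC z).2 fun g hg => (mA z).1 hz g (hTC g hg)
  have hcomm : ∀ x ∈ A, ∀ y ∈ A, x * y = y * x := fun x hx y hy => ((mA y).1 hy x (hAC x hx)).1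
  have hcl : IsClosed (A : Set (E →L[ℂ] E)) := by
    have : (A : Set (E →L[ℂ] E)) = Set.centralizer (C1 : Set (E →L[ℂ] E)) := by
      ext z
      constructor
      · intro hz g hg
        exact ((mA z).1 hz g hg).1
      · intro hz
        exact (mA z).2 fun g hg => ⟨hz g hg, hz (star g) (star_mem hg)⟩
    rw [this]
    exact Set.isClosed_centralizer _
  let inst : CommCStarAlgebra A :=
    { StarSubalgebra.cstarAlgebra A with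
      mul_comm := fun x y => Subtype.ext (hcomm x x.2 y y.2) }
  let e := gelfandStarTransform A
  have key : ∀ (u : A), star (u : E →L[ℂ] E) * u = 1 → ∀ x, ‖e u x‖ = 1 := fun u hu x => by
    have h1 : star u * u = 1 := Subtype.ext hu
    have h2 : star (e u) * e u = 1 := by rw [← map_star, ← map_mul, h1, map_one]
    have h3 : star (e u x) * e u x = 1 := congrArg (fun φ : C(_, ℂ) => φ x) h2
    have h4 := congrArg norm h3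
    rw [norm_mul, norm_star, norm_one] at h4
    nlinarith [norm_nonneg (e u x)]
  refine ⟨WeakDual.characterSpace ℂ A, inferInstance, inferInstance,
    A.subtype.comp (e.symm : C(WeakDual.characterSpace ℂ A, ℂ) →⋆ₐ[ℂ] A),
    e ⟨a, hTA a (Or.inl rfl)⟩, e ⟨b, hTA b (Or.inr rfl)⟩, ?_, ?_, key _ a1, key _ b1⟩
  · change ((e.symm (e _) : A) : E →L[ℂ] E) = a
    rw [e.symm_apply_apply]
  · change ((e.symm (e _) : A) : E →L[ℂ] E) = b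
    rw [e.symm_apply_apply]

section PtGel

open ComplexConjugate

theorem pt_cube_Gel (a : ℂ) (ha : ‖a‖ = 1) (hp : ‖1 - a‖ ≤ 1 / 30) :
    29 / 10 * ‖1 - a‖ ≤ ‖1 - a ^ 3‖ ∧ ‖1 - a ^ 3‖ ≤ 1 / 10 := by
  have h1 : (1 - a ^ 3) = (1 - a) * (3 - ((1 - a) + (1 - a) * (1 + a))) := by ring
  have h2 : ‖1 + a‖ ≤ 2 := by
    calc ‖1 + a‖ ≤ ‖(1 : ℂ)‖ + ‖a‖ := norm_add_le _ _
      _ = 2 := by rw [norm_one, ha]; norm_num
  have h0 : 0 ≤ ‖1 - a‖ := norm_nonneg _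
  have h3 : ‖(1 - a) + (1 - a) * (1 + a)‖ ≤ 1 / 10 := by
    calc ‖(1 - a) + (1 - a) * (1 + a)‖ ≤ ‖1 - a‖ + ‖(1 - a) * (1 + a)‖ := norm_add_le _ _
      _ = ‖1 - a‖ + ‖1 - a‖ * ‖1 + a‖ := by rw [norm_mul]
      _ ≤ 1 / 10 := by nlinarith
  have h4 : 29 / 10 ≤ ‖(3 : ℂ) - ((1 - a) + (1 - a) * (1 + a))‖ := by
    have := norm_sub_norm_le (3 : ℂ) ((1 - a) + (1 - a) * (1 + a))
    have h33 : ‖(3 : ℂ)‖ = 3 := by simp
    linarith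
  have h5 : ‖1 - a ^ 3‖ ≤ 3 * ‖1 - a‖ := by
    have e : (1 - a ^ 3) = (1 - a) * (1 + a + a ^ 2) := by ring
    have : ‖1 + a + a ^ 2‖ ≤ 3 := by
      calc ‖1 + a + a ^ 2‖ ≤ ‖1 + a‖ + ‖a ^ 2‖ := norm_add_le _ _
        _ ≤ 3 := by rw [norm_pow, ha]; linarith
    rw [e, norm_mul]; nlinarith
  refine ⟨?_, by linarith⟩
  rw [h1, norm_mul]; nlinarith

theorem pt_conj_Gel (a : ℂ) : ‖1 - conj a‖ = ‖1 - a‖ := by
  have : (1 - conj a) = conj (1 - a) := by simp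
  rw [this, Complex.norm_conj]

theorem pt_big_Gel (c b : ℂ) (hc : ‖c‖ = 1) : ‖1 - c‖ - ‖1 - b‖ ≤ ‖1 - c * b‖ := by
  have e : (1 - c) = (1 - c * b) - c * (1 - b) := by ring
  have : ‖1 - c‖ ≤ ‖1 - c * b‖ + ‖c * (1 - b)‖ := by
    conv_lhs => rw [e]
    exact norm_sub_le _ _
  rw [norm_mul, hc, one_mul] at this
  linarith

theorem pt_one_Gel (a c : ℂ) (ha : ‖a‖ = 1) (hc : ‖c‖ = 1) (hr : ‖1 - c‖ ≤ 1 / 10) :
    19 / 10 * ‖1 - c‖ ≤ ‖1 - a * c‖ + ‖1 - a * conj c‖ := by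
  have hcc : c * conj c = 1 := by
    rw [Complex.mul_conj, Complex.normSq_eq_norm_sq, hc]; simp
  have e : (1 - a * c) - (1 - a * conj c) = a * conj c * ((1 - c) * (2 - (1 - c))) := by
    have : a * conj c * ((1 - c) * (2 - (1 - c))) = a * conj c - a * c * (c * conj c) := by ring
    rw [this, hcc]; ring
  have h1 := norm_sub_le (1 - a * c) (1 - a * conj c)
  rw [e, norm_mul, norm_mul, norm_mul, ha, Complex.norm_conj, hc] at h1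
  have h2 : 19 / 10 ≤ ‖(2 : ℂ) - (1 - c)‖ := by
    have := norm_sub_norm_le (2 : ℂ) (1 - c)
    have h22 : ‖(2 : ℂ)‖ = 2 := by simp
    linarith
  have h0 : 0 ≤ ‖1 - c‖ := norm_nonneg _
  nlinarith

theorem pt_frac_Gel (x y z n k : ℝ) (hx : 0 ≤ x) (hy : 0 ≤ y) (hn : 0 < n) (hk1 : 1 ≤ k) (hk : k ≤ 9)
    (hz : (k - 1) * x ≤ z) :
    x / (x + z + n) ≤ 1 / k * ((x + y) / (x + y + n / 9)) := by
  have hz0 : 0 ≤ z := le_trans (mul_nonneg (by linarith) hx) hz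
  have hk0 : 0 < k := by linarith
  have h1 : x / (x + z + n) ≤ x / (k * (x + n / 9)) := by
    apply div_le_div_of_nonneg_left hx (by positivity)
    nlinarith
  have h2 : x / (x + n / 9) ≤ (x + y) / (x + y + n / 9) := by
    rw [div_le_div_iff₀ (by positivity) (by positivity)]
    nlinarith
  have h3 : x / (k * (x + n / 9)) = 1 / k * (x / (x + n / 9)) := by
    field_simp
  rw [h3] at h1
  exact h1.trans (mul_le_mul_of_nonneg_left h2 (by positivity))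

theorem pt_half_Gel (a b : ℂ) (ha : ‖a‖ = 1) (hb : ‖b‖ = 1) (n : ℝ) (hn : 0 < n)
    (hp : ‖1 - a‖ ≤ 1 / 30) (hq : ‖1 - b‖ ≤ ‖1 - a‖) :
    ‖1 - a‖ ^ 2 / (‖1 - a‖ ^ 2 + ‖1 - a ^ 3 * b‖ ^ 2 + n)
      + ‖1 - a‖ ^ 2 / (‖1 - a‖ ^ 2 + ‖1 - conj a ^ 3 * b‖ ^ 2 + n)
      + ‖1 - b‖ ^ 2 / (‖1 - b‖ ^ 2 + ‖1 - a * b ^ 3‖ ^ 2 + n)
      + ‖1 - b‖ ^ 2 / (‖1 - b‖ ^ 2 + ‖1 - a * conj b ^ 3‖ ^ 2 + n)
      ≤ 8 / 5 * ((‖1 - a‖ ^ 2 + ‖1 - b‖ ^ 2) / (‖1 - a‖ ^ 2 + ‖1 - b‖ ^ 2 + n / 9)) := by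
  obtain ⟨ha1, ha2⟩ := pt_cube_Gel a ha hp
  obtain ⟨hb1, hb2⟩ := pt_cube_Gel b hb (hq.trans hp)
  have ha3 : ‖a ^ 3‖ = 1 := by rw [norm_pow, ha]; norm_num
  have hb3 : ‖b ^ 3‖ = 1 := by rw [norm_pow, hb]; norm_num
  have hca : conj a ^ 3 = conj (a ^ 3) := by simp
  have hcb : conj b ^ 3 = conj (b ^ 3) := by simp
  have hp0 : 0 ≤ ‖1 - a‖ := norm_nonneg _
  have hq0 : 0 ≤ ‖1 - b‖ := norm_nonneg _
  have t1 : 19 / 10 * ‖1 - a‖ ≤ ‖1 - a ^ 3 * b‖ := by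
    have := pt_big_Gel (a ^ 3) b ha3; linarith
  have t2 : 19 / 10 * ‖1 - a‖ ≤ ‖1 - conj a ^ 3 * b‖ := by
    have := pt_big_Gel (conj (a ^ 3)) b (by rw [Complex.norm_conj, ha3])
    rw [pt_conj_Gel] at this
    rw [hca]; linarith
  have t3 := pt_one_Gel a (b ^ 3) ha hb3 hb2
  rw [← hcb] at t3
  set p := ‖1 - a‖ with hpdef
  set q := ‖1 - b‖ with hqdef
  set H := (p ^ 2 + q ^ 2) / (p ^ 2 + q ^ 2 + n / 9) with hH
  have hH0 : 0 ≤ H := by positivity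
  have hH' : (q ^ 2 + p ^ 2) / (q ^ 2 + p ^ 2 + n / 9) = H := by rw [add_comm (q ^ 2)]
  have f1 := pt_frac_Gel (p ^ 2) (q ^ 2) (‖1 - a ^ 3 * b‖ ^ 2) n (461 / 100) (by positivity)
    (by positivity) hn (by norm_num) (by norm_num) (by nlinarith)
  have f2 := pt_frac_Gel (p ^ 2) (q ^ 2) (‖1 - conj a ^ 3 * b‖ ^ 2) n (461 / 100) (by positivity)
    (by positivity) hn (by norm_num) (by norm_num) (by nlinarith)
  have g3 := pt_frac_Gel (q ^ 2) (p ^ 2) (‖1 - a * b ^ 3‖ ^ 2) n 1 (by positivity)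
    (by positivity) hn (by norm_num) (by norm_num) (by simp)
  have g4 := pt_frac_Gel (q ^ 2) (p ^ 2) (‖1 - a * conj b ^ 3‖ ^ 2) n 1 (by positivity)
    (by positivity) hn (by norm_num) (by norm_num) (by simp)
  rw [hH'] at g3 g4
  rw [← hH] at f1 f2
  rcases le_total ‖1 - a * b ^ 3‖ ‖1 - a * conj b ^ 3‖ with h | h
  · have h275 : 11 / 4 * q ≤ ‖1 - a * conj b ^ 3‖ := by linarith
    have f4 := pt_frac_Gel (q ^ 2) (p ^ 2) (‖1 - a * conj b ^ 3‖ ^ 2) n (17 / 2) (by positivity)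
      (by positivity) hn (by norm_num) (by norm_num) (by nlinarith)
    rw [hH'] at f4
    linarith
  · have h275 : 11 / 4 * q ≤ ‖1 - a * b ^ 3‖ := by linarith
    have f3 := pt_frac_Gel (q ^ 2) (p ^ 2) (‖1 - a * b ^ 3‖ ^ 2) n (17 / 2) (by positivity)
      (by positivity) hn (by norm_num) (by norm_num) (by nlinarith)
    rw [hH'] at f3
    linarith

theorem pt_le_one_Gel (x z n : ℝ) (hx : 0 ≤ x) (hz : 0 ≤ z) (hn : 0 < n) : x / (x + z + n) ≤ 1 := by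
  rw [div_le_one (by positivity)]; linarith

/-- The pointwise inequality behind the measure-free Burger lemma. -/
theorem pt_main_Gel (a b : ℂ) (ha : ‖a‖ = 1) (hb : ‖b‖ = 1) (n : ℝ) (hn : 0 < n) :
    ‖1 - a‖ ^ 2 / (‖1 - a‖ ^ 2 + ‖1 - a ^ 3 * b‖ ^ 2 + n)
      + ‖1 - a‖ ^ 2 / (‖1 - a‖ ^ 2 + ‖1 - conj a ^ 3 * b‖ ^ 2 + n)
      + ‖1 - b‖ ^ 2 / (‖1 - b‖ ^ 2 + ‖1 - a * b ^ 3‖ ^ 2 + n)
      + ‖1 - b‖ ^ 2 / (‖1 - b‖ ^ 2 + ‖1 - a * conj b ^ 3‖ ^ 2 + n)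
      ≤ 8 / 5 * ((‖1 - a‖ ^ 2 + ‖1 - b‖ ^ 2) / (‖1 - a‖ ^ 2 + ‖1 - b‖ ^ 2 + n / 9))
        + 3600 * (‖1 - a‖ ^ 2 + ‖1 - b‖ ^ 2) := by
  have hp0 : 0 ≤ ‖1 - a‖ := norm_nonneg _
  have hq0 : 0 ≤ ‖1 - b‖ := norm_nonneg _
  by_cases hs : ‖1 - a‖ ≤ 1 / 30 ∧ ‖1 - b‖ ≤ 1 / 30
  · have hC : 0 ≤ 3600 * (‖1 - a‖ ^ 2 + ‖1 - b‖ ^ 2) := by positivity
    rcases le_total ‖1 - b‖ ‖1 - a‖ with h | h
    · have := pt_half_Gel a b ha hb n hn hs.1 h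
      linarith
    · have := pt_half_Gel b a hb ha n hn hs.2 h
      rw [mul_comm (b ^ 3) a, mul_comm (conj b ^ 3) a, mul_comm b (a ^ 3), mul_comm b (conj a ^ 3),
        add_comm (‖1 - b‖ ^ 2) (‖1 - a‖ ^ 2)] at this
      linarith
  · have h4 : 4 ≤ 3600 * (‖1 - a‖ ^ 2 + ‖1 - b‖ ^ 2) := by
      rw [not_and_or, not_le, not_le] at hs
      rcases hs with h | h <;> nlinarith
    have hH : 0 ≤ 8 / 5 * ((‖1 - a‖ ^ 2 + ‖1 - b‖ ^ 2) / (‖1 - a‖ ^ 2 + ‖1 - b‖ ^ 2 + n / 9)) := by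
      positivity
    have e1 := pt_le_one_Gel (‖1 - a‖ ^ 2) (‖1 - a ^ 3 * b‖ ^ 2) n (by positivity) (by positivity) hn
    have e2 := pt_le_one_Gel (‖1 - a‖ ^ 2) (‖1 - conj a ^ 3 * b‖ ^ 2) n (by positivity) (by positivity) hn
    have e3 := pt_le_one_Gel (‖1 - b‖ ^ 2) (‖1 - a * b ^ 3‖ ^ 2) n (by positivity) (by positivity) hn
    have e4 := pt_le_one_Gel (‖1 - b‖ ^ 2) (‖1 - a * conj b ^ 3‖ ^ 2) n (by positivity) (by positivity) hn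
    linarith

/-- `|1 - a^k|^2 ≤ 4 h_n + k^2 n`. -/
theorem pt_pow_Gel (a : ℂ) (ha : ‖a‖ = 1) (be n : ℝ) (hbe : 0 ≤ be) (hn : 0 < n) (k : ℕ) :
    ‖1 - a ^ k‖ ^ 2 ≤ 4 * ((‖1 - a‖ ^ 2 + be) / (‖1 - a‖ ^ 2 + be + n)) + (k : ℝ) ^ 2 * n := by
  have h2 : ‖1 - a ^ k‖ ≤ 2 := by
    calc ‖1 - a ^ k‖ ≤ ‖(1 : ℂ)‖ + ‖a ^ k‖ := norm_sub_le _ _
      _ = 2 := by rw [norm_one, norm_pow, ha]; norm_num
  have hk : ‖1 - a ^ k‖ ≤ k * ‖1 - a‖ := by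
    induction k with
    | zero => simp
    | succ m ih =>
      have e : 1 - a ^ (m + 1) = (1 - a) + a * (1 - a ^ m) := by ring
      have hm : ‖1 - a ^ m‖ ≤ 2 := by
        calc ‖1 - a ^ m‖ ≤ ‖(1 : ℂ)‖ + ‖a ^ m‖ := norm_sub_le _ _
          _ = 2 := by rw [norm_one, norm_pow, ha]; norm_num
      have := ih hm
      rw [e]
      calc ‖(1 - a) + a * (1 - a ^ m)‖ ≤ ‖1 - a‖ + ‖a * (1 - a ^ m)‖ := norm_add_le _ _
        _ = ‖1 - a‖ + ‖1 - a ^ m‖ := by rw [norm_mul, ha, one_mul]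
        _ ≤ ((m + 1 : ℕ) : ℝ) * ‖1 - a‖ := by push_cast; linarith
  set x := ‖1 - a ^ k‖ with hx
  set p := ‖1 - a‖ with hp
  have hx0 : 0 ≤ x := norm_nonneg _
  have hp0 : 0 ≤ p := norm_nonneg _
  have hx4 : x ^ 2 ≤ 4 := by nlinarith
  have hxk : x ^ 2 ≤ (k : ℝ) ^ 2 * p ^ 2 := by
    rw [← mul_pow]; exact pow_le_pow_left₀ hx0 hk 2
  have hD : 0 < p ^ 2 + be + n := by positivity
  have key : x ^ 2 * (p ^ 2 + be + n) ≤ 4 * (p ^ 2 + be) + (k : ℝ) ^ 2 * n * (p ^ 2 + be + n) := by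
    have hk0 : 0 ≤ (k : ℝ) ^ 2 := by positivity
    have a1 : x ^ 2 * (p ^ 2 + be) ≤ 4 * (p ^ 2 + be) :=
      mul_le_mul_of_nonneg_right hx4 (by positivity)
    have a2 : x ^ 2 * n ≤ (k : ℝ) ^ 2 * p ^ 2 * n := mul_le_mul_of_nonneg_right hxk hn.le
    have a3 : 0 ≤ (k : ℝ) ^ 2 * n * (be + n) := by positivity
    nlinarith
  have : x ^ 2 ≤ (4 * (p ^ 2 + be) + (k : ℝ) ^ 2 * n * (p ^ 2 + be + n)) / (p ^ 2 + be + n) := by
    rw [le_div_iff₀ hD]; exact key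
  calc x ^ 2 ≤ _ := this
    _ = _ := by field_simp

theorem pt_shift_Gel (c b : ℂ) (hc : ‖c‖ = 1) : ‖1 - conj c * b‖ = ‖c - b‖ := by
  have hcc : c * conj c = 1 := by
    rw [Complex.mul_conj, Complex.normSq_eq_norm_sq, hc]; simp
  have e : c - b = c * (1 - conj c * b) := by
    rw [mul_sub, mul_one, ← mul_assoc, hcc, one_mul]
  rw [e, norm_mul, hc, one_mul]

end PtGel

theorem bur_pt {a b : ℂ} (ha : ‖a‖ = 1) (hb : ‖b‖ = 1) {η : ℝ} (hη : 0 < η) :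
    ‖1 - a‖ ^ 2 / (‖1 - a‖ ^ 2 + ‖1 - a ^ 3 * b‖ ^ 2 + η) +
      ‖1 - a‖ ^ 2 / (‖1 - a‖ ^ 2 + ‖a ^ 3 - b‖ ^ 2 + η) +
      ‖1 - b‖ ^ 2 / (‖1 - a * b ^ 3‖ ^ 2 + ‖1 - b‖ ^ 2 + η) +
      ‖1 - b‖ ^ 2 / (‖a - b ^ 3‖ ^ 2 + ‖1 - b‖ ^ 2 + η) ≤
    8 / 5 * ((‖1 - a‖ ^ 2 + ‖1 - b‖ ^ 2) / (‖1 - a‖ ^ 2 + ‖1 - b‖ ^ 2 + η / 9)) +
      3600 * (‖1 - a‖ ^ 2 + ‖1 - b‖ ^ 2) := by
  have h := pt_main_Gel a b ha hb η hη
  have ha3 : ‖a ^ 3‖ = 1 := by rw [norm_pow, ha]; norm_num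
  have hb3 : ‖b ^ 3‖ = 1 := by rw [norm_pow, hb]; norm_num
  rw [← map_pow, ← map_pow, pt_shift_Gel _ b ha3, mul_comm a (starRingEnd ℂ (b ^ 3)),
    pt_shift_Gel _ a hb3, norm_sub_rev (b ^ 3) a] at h
  rw [add_comm (‖1 - a * b ^ 3‖ ^ 2), add_comm (‖a - b ^ 3‖ ^ 2)]
  exact h

end Pool.Agent.MP_434e52_an.TF
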