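import Pool.Agent.MP_434e52_an.TF.Bur
import Pool.Agent.MP_434e52_an.TF.Ang

/-! Torsion-free twins: row KT. Property (T) of the ambient group. -/

set_option autoImplicit false

namespace Pool.Agent.MP_434e52_an.TF

open Matrix Filter Topology MeasureTheory NL

section KT

variable {O : Type} [CommRing O]

theorem xx_zsmul_kt {i j : Fin 3} (h : i ≠ j) (c : ℤ) (r : O) : xx h (c • r) = xx h r ^ c :=
  map_zpow (MonoidHom.mk' (fun a : Multiplicative O => xx h a.toAdd) fun _ _ => xx_add h _ _)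
    (Multiplicative.ofAdd r) c

theorem top_kt {H : Subgroup (KK O)} (h1 : ∀ a, xx ne01 a ∈ H) (h2 : ∀ a, xx ne12 a ∈ H)
    (h3 : ∀ a, xx ne20 a ∈ H) : H = ⊤ := by
  have mul : ∀ {i j k : Fin 3} (hij : i ≠ j) (hjk : j ≠ k) (hik : i ≠ k) (a : O),
      xx hij a ∈ H → xx hjk (1 : O) ∈ H → xx hik a ∈ H := by
    intro i j k hij hjk hik a ha hb
    have e : xx hik (a * 1) = (xx hjk 1 * xx hij a)⁻¹ * (xx hij a * xx hjk 1) := by
      rw [xx_rel hij hjk hik, inv_mul_cancel_left]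
    rw [← mul_one a, e]
    exact H.mul_mem (H.inv_mem (H.mul_mem hb ha)) (H.mul_mem ha hb)
  refine eq_top_of_xx fun i j h a => ?_
  fin_cases i <;> fin_cases j
  exacts [absurd rfl h, h1 a, mul ne01 ne12 ne20.symm a (h1 a) (h2 1),
    mul ne12 ne20 ne01.symm a (h2 a) (h3 1), absurd rfl h, h2 a, h3 a,
    mul ne20 ne01 ne12.symm a (h3 a) (h1 1), absurd rfl h]

variable {E : Type} [NormedAddCommGroup E] [InnerProductSpace ℂ E] [CompleteSpace E]

theorem near_kt {s : Fin 8 → O} (hs : ∀ i j, i ≠ j → IsUnit (s i - s j))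
    (π : KK O →* (E →L[ℂ] E)) (hπ : ∀ g, π g ∈ unitary (E →L[ℂ] E)) (v : E) {d : ℝ}
    (h : ∀ (i j : Fin 3) (hij : i ≠ j) (a : O), ‖π (xx hij a) v - v‖ ≤ d) :
    ∃ η : E, (∀ g, π g η = η) ∧ ‖v - η‖ ≤ 4 * d := by
  obtain ⟨p, hp⟩ := exists_fix hπ (xx (R := O) ne01)
  obtain ⟨q, hq⟩ := exists_fix hπ (xx (R := O) ne12)
  obtain ⟨r, hr⟩ := exists_fix hπ (xx (R := O) ne20)
  have an : ∀ {i j k : Fin 3} (hij : i ≠ j) (hjk : j ≠ k) (hik : i ≠ k) {a b : E →L[ℂ] E},
      IsFix π (xx (R := O) hij) a → IsFix π (xx (R := O) hjk) b → Ang (3 / 8) a b :=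
    fun hij hjk hik _ _ ha hb => ang_heis hπ (xx_add hij) (xx_add hjk) (xx_add hik)
      (fun a c => xx_comm hik hij hik.symm hij.symm c a)
      (fun b c => xx_comm hik hjk hjk.symm hik.symm c b) (xx_rel hij hjk hik) hs ha hb
  obtain ⟨η, f1, f2, f3, e⟩ := gap3 hp.1 hq.1 hr.1 (an ne01 ne12 ne20.symm hp hq)
    (an ne12 ne20 ne01.symm hq hr).symm (an ne20 ne01 ne12.symm hr hp)
    (hp.near hπ (xx_add _) (h _ _ _)) (hq.near hπ (xx_add _) (h _ _ _))
    (hr.near hπ (xx_add _) (h _ _ _))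
  let H : Subgroup (KK O) :=
    { carrier := {g | π g η = η}
      one_mem' := by simp only [Set.mem_ofPred_eq, map_one, one_apply_eq_self]
      mul_mem' := fun {a b} ha hb => by
        simp only [Set.mem_ofPred_eq] at *
        rw [map_mul, mul_apply_eq_comp, hb, ha]
      inv_mem' := fun {a} ha => by
        simp only [Set.mem_ofPred_eq] at *
        rw [← ha, ← mul_apply_eq_comp, ← map_mul, inv_mul_cancel, ha]
        simp only [map_one, one_apply_eq_self] }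
  have : H = ⊤ := top_kt ((hp.2 η).1 f1) ((hq.2 η).1 f2) ((hr.2 η).1 f3)
  exact ⟨η, fun g => (this ▸ Subgroup.mem_top g : g ∈ H), e⟩

theorem sum_kt {ι : Type} (π : KK O →* (E →L[ℂ] E)) (hπ : ∀ g, π g ∈ unitary (E →L[ℂ] E)) (v : E)
    {i j : Fin 3} (h : i ≠ j) (f : ι → O) {d : ℝ} (hf : ∀ k, ‖π (xx h (f k)) v - v‖ ≤ d)
    (t : Finset ι) : ‖π (xx h (∑ k ∈ t, f k)) v - v‖ ≤ t.card * d := by
  classical
  induction t using Finset.induction_on with
  | empty => simp [xx_zero]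
  | insert k t hk ih =>
    rw [Finset.sum_insert hk, xx_add, Finset.card_insert_of_notMem hk]
    have := move_mul hπ v (xx h (f k)) (xx h (∑ k ∈ t, f k))
    have := hf k
    push_cast
    linarith

/-- The generators. -/
def gens_kt {n : ℕ} (b : Fin n → O) :
    (Fin 3 × Fin 3 × Option (Fin n)) ⊕ Fin 3 ⊕ Fin 3 → EE O :=
  Sum.elim (fun x => if h : x.1 ≠ x.2.1 then Hs.kk ⊤ (xx h (x.2.2.elim 1 b)) else 1)
    (Sum.elim (fun i => Hs.bb ⊤ (Pi.single i 1)) fun i => Hs.cc ⊤ (Pi.single i 1))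

end KT

theorem propT_E {O : Type} [CommRing O] [Module.Finite ℤ O] {s : Fin 8 → O}
    (hs : ∀ i j, i ≠ j → IsUnit (s i - s j)) : PropT (EE O) := by
  classical
  obtain ⟨n, b, hb⟩ := Module.Finite.exists_fin (R := ℤ) (M := O)
  obtain ⟨ε, hε, hB⟩ := burger (δ := 1 / (200 * ((n : ℝ) + 1))) (by positivity)
  refine ⟨Finset.univ.image (gens_kt b), min ε (1 / 200), lt_min hε (by norm_num), ?_⟩
  rintro E _ _ _ π hπ ⟨v, hv, h⟩
  have h' : ∀ x, ‖π (gens_kt b x) v - v‖ < min ε (1 / 200) := fun x =>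
    h _ (Finset.mem_image_of_mem _ (Finset.mem_univ x))
  obtain ⟨π', e'⟩ : ∃ π' : KK O →* (E →L[ℂ] E), ∀ g, π' g = π (Hs.kk ⊤ g) :=
    ⟨π.comp (Hs.kk ⊤), fun _ => rfl⟩
  have hπ' : ∀ g, π' g ∈ unitary (E →L[ℂ] E) := fun g => by
    rw [e']
    exact hπ _
  have hx : ∀ {i j : Fin 3} (hij : i ≠ j) (o : Option (Fin n)),
      ‖π' (xx hij (o.elim 1 b)) v - v‖ ≤ ε := fun {i j} hij o => by
    have h1 := h' (.inl (i, j, o))
    rw [gens_kt, Sum.elim_inl, dif_pos hij] at h1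
    rw [e']
    exact (h1.trans_le (min_le_left _ _)).le
  have h3 : ∀ i k : Fin 3, i ≠ k → ∃ j : Fin 3, i ≠ j ∧ j ≠ k := by decide
  have hr : ∀ (i k : Fin 3) (hik : i ≠ k) (a : O),
      ‖π' (xx hik a) v - v‖ ≤ 1 / 200 := fun i k hik a => by
    obtain ⟨j, hij, hjk⟩ := h3 i k hik
    obtain ⟨c, rfl⟩ := (Submodule.mem_span_range_iff_exists_fun ℤ).1
      (hb ▸ Submodule.mem_top : a ∈ Submodule.span ℤ (Set.range b))
    refine (sum_kt π' hπ' v hik _ (d := 1 / (200 * ((n : ℝ) + 1))) (fun l => ?_)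
      _).trans ?_
    · rw [xx_zsmul_kt]
      have c1 := xx_comm hik hjk hjk.symm hik.symm (b l) (b l)
      have c2 := xx_comm hij hik hij.symm hik.symm (1 : O) (b l)
      have c3 := xx_comm hij.symm hjk hij hjk.symm (1 : O) (b l)
      refine hB (KK O) E π' hπ' (xx hik (b l)) (xx hjk (b l)) (xx hij 1)
        (xx hij.symm 1) c1 c2 ?_ ?_ c3 v hv (hx hik (some l)) (hx hjk (some l)) (hx hij none)
        (hx hij.symm none) _
      · rw [xx_rel hij hjk hik, one_mul, mul_assoc, c2, ← mul_assoc, c1]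
      · rw [xx_rel hij.symm hik hjk, one_mul, mul_assoc, c3, ← mul_assoc]
    · rw [Finset.card_univ, Fintype.card_fin, mul_one_div, div_le_div_iff₀ (by positivity)
        (by norm_num)]
      linarith
  obtain ⟨η, hη, e⟩ := near_kt hs π' hπ' v hr
  have h9 : ∀ x, ‖π (gens_kt b x) η - η‖ ≤ 9 / 200 := by
    intro x
    have : π (gens_kt b x) η - η =
        (π (gens_kt b x) v - v) + (v - η) - π (gens_kt b x) (v - η) := by
      rw [map_sub]; abel
    rw [this]
    have n1 := norm_sub_le (π (gens_kt b x) v - v + (v - η)) (π (gens_kt b x) (v - η))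
    have n2 := norm_add_le (π (gens_kt b x) v - v) (v - η)
    rw [un_norm hπ] at n1
    linarith only [(h' x).trans_le (min_le_right _ _), e, n1, n2]
  obtain ⟨w, hw, e2⟩ := fixed_near hπ (η := η) (c := 14 * (9 / 200))
    (Hs.len (fun g => ‖π g η - η‖) (move_mul hπ η) (fun g => by
      rw [← un_norm hπ g, map_sub, ← mul_apply_eq_comp, ← map_mul, mul_inv_cancel, map_one,
        norm_sub_rev]
      rfl) (fun g => by rw [← e', hη g, sub_self, norm_zero])
      (fun i => h9 (.inr (.inl i))) fun i => h9 (.inr (.inr i)))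
  refine ⟨w, ?_, hw⟩
  rintro rfl
  rw [zero_sub, norm_neg] at e2
  have := norm_sub_norm_le v η
  linarith only [hv, e, e2, this]

end Pool.Agent.MP_434e52_an.TF
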