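import Pool.Agent.MP_434e52_an.TF.Defs

/-! Torsion-free twins: row Lim. Trigonometric approximation and orthogonality. -/

set_option autoImplicit false

namespace Pool.Agent.MP_434e52_an.TF

open Matrix Filter Topology MeasureTheory NL

variable {m : Type} [Fintype m]

/-- The fractional part, clipped near one so that it is continuous on the circle. -/
noncomputable def clip_lim (n : ℕ) : UnitAddCircle → ℝ :=
  AddCircle.liftIco (1 : ℝ) 0 fun t : ℝ => min t (n * (1 - t))

theorem clip_cont_lim (n : ℕ) : Continuous (clip_lim n) := by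
  refine AddCircle.liftIco_zero_continuous ?_ (Continuous.continuousOn (by fun_prop))
  have h : (0 : ℝ) ≤ n := Nat.cast_nonneg n
  simp [h]

theorem clip_coe_lim (n : ℕ) (t : ℝ) :
    clip_lim n (t : UnitAddCircle) = min (Int.fract t) (n * (1 - Int.fract t)) := by
  rw [← AddCircle.coe_fract t]
  exact AddCircle.liftIco_zero_coe_apply ⟨Int.fract_nonneg t, Int.fract_lt_one t⟩

theorem clip_ev_lim (t : ℝ) : ∀ᶠ n : ℕ in atTop, clip_lim n (t : UnitAddCircle) = Int.fract t := by
  have h1 : 0 < 1 - Int.fract t := sub_pos.2 (Int.fract_lt_one t)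
  have h2 : Tendsto (fun n : ℕ => (n : ℝ) * (1 - Int.fract t)) atTop atTop :=
    tendsto_natCast_atTop_atTop.atTop_mul_const h1
  filter_upwards [h2.eventually_ge_atTop (Int.fract t)] with n hn
  rw [clip_coe_lim, min_eq_left hn]

theorem ee_sum_lim (v : m → ℤ) (x : m → ℝ) :
    ee (∑ i, (v i : ℝ) * x i) = ∏ i, Complex.exp (2 * Real.pi * Complex.I * (v i) * (x i)) := by
  rw [← Complex.exp_sum, ee]
  congr 1
  push_cast
  rw [Finset.mul_sum]
  exact Finset.sum_congr rfl fun i _ => by ring

/-- Pull back of functions on the torus. -/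
noncomputable def pull_lim (m : Type) [Fintype m] :
    C(UnitAddTorus m, ℂ) →ₗ[ℂ] ((m → ℝ) → ℂ) where
  toFun f := fun x => f fun i => (x i : UnitAddCircle)
  map_add' _ _ := rfl
  map_smul' _ _ := rfl

theorem pull_mem_lim {f : C(UnitAddTorus m, ℂ)}
    (hf : f ∈ Submodule.span ℂ (Set.range (UnitAddTorus.mFourier (d := m)))) :
    pull_lim m f ∈ Submodule.span ℂ (chars m) := by
  refine (Submodule.span_le (p := (Submodule.span ℂ (chars m)).comap (pull_lim m))).2 ?_ hf
  rintro _ ⟨v, rfl⟩
  refine Submodule.subset_span ⟨v, ?_⟩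
  funext x
  change ee _ = ∏ i, fourier (v i) (x i : UnitAddCircle)
  rw [ee_sum_lim]
  refine Finset.prod_congr rfl fun i _ => ?_
  rw [fourier_coe_apply]
  simp

theorem approx_lim (G : C(UnitAddTorus m, ℂ)) {ε : ℝ} (hε : 0 < ε) :
    ∃ p ∈ Submodule.span ℂ (chars m), ∀ x, ‖p x - pull_lim m G x‖ ≤ ε := by
  have h : G ∈ closure
      ((Submodule.span ℂ (Set.range (UnitAddTorus.mFourier (d := m))) : Submodule ℂ _) : Set _) := by
    rw [← Submodule.topologicalClosure_coe, UnitAddTorus.span_mFourier_closure_eq_top]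
    trivial
  obtain ⟨f, hf, hd⟩ := Metric.mem_closure_iff.1 h ε hε
  refine ⟨pull_lim m f, pull_mem_lim hf, fun x => ?_⟩
  rw [dist_comm, dist_eq_norm] at hd
  exact ((f - G).norm_coe_le_norm fun i => (x i : UnitAddCircle)).trans hd.le

theorem coe_trA_lim (A : Matrix m m ℤ) (x : m → ℝ) (i : m) :
    ((trA A x i : ℝ) : UnitAddCircle) = ∑ j, A j i • (x j : UnitAddCircle) := by
  have h : trA A x i = ∑ j, A j i • x j := by simp [trA]
  rw [h]
  exact (map_sum (QuotientAddGroup.mk' (AddSubgroup.zmultiples (1 : ℝ))) _ _).trans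
    (Finset.sum_congr rfl fun j _ => map_zsmul _ _ _)

theorem lim_fract (A : Matrix m m ℤ) (Φ : (m → ℝ) × (m → ℝ) → ℂ) (hc : Continuous Φ)
    (hb : ∀ y, ‖Φ y‖ ≤ 1) :
    Lim (chars m) fun x => Φ (fun i => Int.fract (x i), fun i => Int.fract (trA A x i)) := by
  have hG : ∀ n : ℕ, Continuous fun y : UnitAddTorus m =>
      Φ (fun i => clip_lim n (y i), fun i => clip_lim n (∑ j, A j i • y j)) := by
    intro n
    refine hc.comp (Continuous.prodMk (continuous_pi fun i => ?_) (continuous_pi fun i => ?_))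
    · exact (clip_cont_lim n).comp (continuous_apply i)
    · exact (clip_cont_lim n).comp
        (continuous_finsetSum _ fun j _ => (continuous_apply j).zsmul (A j i))
  choose p hp hd using fun n : ℕ => approx_lim (m := m) ⟨_, hG n⟩ (Nat.one_div_pos_of_nat (n := n))
  have hd' : ∀ n x, ‖p n x - Φ (fun i => clip_lim n (x i : UnitAddCircle),
      fun i => clip_lim n (trA A x i : UnitAddCircle))‖ ≤ 1 / ((n : ℝ) + 1) := by
    intro n x
    simp only [coe_trA_lim]
    exact hd n x
  refine ⟨p, 2, hp, fun n x => ?_, fun x => ?_⟩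
  · have h1 := hd' n x
    have h2 : 1 / ((n : ℝ) + 1) ≤ 1 := by
      rw [div_le_one (by positivity)]
      exact le_add_of_nonneg_left (Nat.cast_nonneg n)
    have h3 := hb (fun i => clip_lim n (x i : UnitAddCircle),
      fun i => clip_lim n (trA A x i : UnitAddCircle))
    have h4 := norm_add_le_of_le h1 h3
    rw [sub_add_cancel] at h4
    linarith
  · rw [tendsto_iff_norm_sub_tendsto_zero]
    refine squeeze_zero' (Eventually.of_forall fun _ => norm_nonneg _) ?_
      tendsto_one_div_add_atTop_nhds_zero_nat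
    filter_upwards [eventually_all.2 fun i => clip_ev_lim (x i),
      eventually_all.2 fun i => clip_ev_lim (trA A x i)] with n h1 h2
    have h := hd' n x
    simp only [h1, h2] at h
    exact h

theorem cube_prob : IsProbabilityMeasure (cube m) := by
  have : IsProbabilityMeasure (volume.restrict (Set.Ico (0 : ℝ) 1)) := ⟨by simp⟩
  unfold cube
  infer_instance

theorem cube_char {v : m → ℤ} (hv : v ≠ 0) :
    ∫ x, ee (∑ i, (v i : ℝ) * x i) ∂(cube m) = 0 := by
  obtain ⟨k, hk⟩ := Function.ne_iff.1 hv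
  have hk' : (v k : ℂ) ≠ 0 := Int.cast_ne_zero.2 hk
  simp only [ee_sum_lim]
  unfold cube
  rw [integral_fintype_prod_eq_prod
    (fun (i : m) (t : ℝ) => Complex.exp (2 * Real.pi * Complex.I * (v i) * t))]
  refine Finset.prod_eq_zero (Finset.mem_univ k) ?_
  have hc : (2 * Real.pi * Complex.I * (v k) : ℂ) ≠ 0 := mul_ne_zero Complex.two_pi_I_ne_zero hk'
  rw [integral_Ico_eq_integral_Ioc, ← intervalIntegral.integral_of_le zero_le_one,
    integral_exp_mul_complex hc]
  have h1 : Complex.exp (2 * Real.pi * Complex.I * (v k) * ((1 : ℝ) : ℂ)) = 1 := by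
    rw [← Complex.exp_int_mul_two_pi_mul_I (v k)]
    congr 1
    push_cast
    ring
  rw [h1]
  simp

end Pool.Agent.MP_434e52_an.TF
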