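import Pool.Agent.MP_434e52_an.TF.Lim

/-! Torsion-free twins: row Per. Periodicity of the theta cocycle. -/

set_option autoImplicit false

namespace Pool.Agent.MP_434e52_an.TF

open Matrix Filter Topology MeasureTheory NL

variable {m : Type} [Fintype m]

theorem ee_add (s t : ℝ) : ee (s + t) = ee s * ee t := by
  rw [ee, ee, ee, ← Complex.exp_add, Complex.ofReal_add, mul_add]

theorem ee_norm (t : ℝ) : ‖ee t‖ = 1 := by
  rw [ee, show 2 * Real.pi * Complex.I * t = ((2 * Real.pi * t : ℝ) : ℂ) * Complex.I by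
    push_cast; ring, Complex.norm_exp_ofReal_mul_I]

theorem ee_conj (t : ℝ) : (starRingEnd ℂ) (ee t) = ee (-t) := by
  rw [ee, ee, ← Complex.exp_conj]
  simp only [map_mul, Complex.conj_ofReal, Complex.conj_I, map_ofNat, Complex.ofReal_neg]
  ring_nf

theorem ee_int_per (n : ℤ) : ee n = 1 := by
  rw [ee, Complex.ofReal_intCast, mul_comm, Complex.exp_int_mul_two_pi_mul_I]

theorem ee_cont_per : Continuous ee := by
  unfold ee
  fun_prop

theorem Psi_meas (β : Matrix m m ℤ) : Measurable (Psi β) := by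
  have h : ∀ i, Measurable fun x : m → ℝ => (⌊x i⌋ : ℝ) := fun i =>
    (measurable_from_top (f := fun n : ℤ => (n : ℝ))).comp
      (Int.measurable_floor.comp (measurable_pi_apply i))
  refine ee_cont_per.measurable.comp (Measurable.sub ?_ (Measurable.div_const ?_ 2))
  · exact Finset.measurable_sum _ fun i _ => Finset.measurable_sum _ fun j _ =>
      ((h i).const_mul _).mul (measurable_pi_apply j)
  · exact Finset.measurable_sum _ fun i _ => Finset.measurable_sum _ fun j _ =>
      ((measurable_pi_apply i).const_mul _).mul (measurable_pi_apply j)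

theorem bil_addl_per (β : Matrix m m ℤ) (x y z : m → ℝ) :
    bil β (x + y) z = bil β x z + bil β y z := by
  simp only [bil, Pi.add_apply, mul_add, add_mul, Finset.sum_add_distrib]

theorem bil_addr_per (β : Matrix m m ℤ) (x y z : m → ℝ) :
    bil β x (y + z) = bil β x y + bil β x z := by
  simp only [bil, Pi.add_apply, mul_add, Finset.sum_add_distrib]

theorem bil_sub_per (β γ : Matrix m m ℤ) (x y : m → ℝ) :
    bil (β - γ) x y = bil β x y - bil γ x y := by
  simp only [bil, Matrix.sub_apply, Int.cast_sub, sub_mul, Finset.sum_sub_distrib]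

theorem bil_symm_per {B : Matrix m m ℤ} (h : B.IsSymm) (x y : m → ℝ) : bil B x y = bil B y x := by
  rw [bil, bil, Finset.sum_comm]
  refine Finset.sum_congr rfl fun i _ => Finset.sum_congr rfl fun j _ => ?_
  rw [h.apply i j]
  ring

theorem bil_eq_per (β : Matrix m m ℤ) (x y : m → ℝ) :
    bil β x y = x ⬝ᵥ (β.map (Int.castRingHom ℝ) *ᵥ y) := by
  simp only [bil, dotProduct, mulVec, map_apply, eq_intCast, Finset.mul_sum]
  exact Finset.sum_congr rfl fun i _ => Finset.sum_congr rfl fun j _ => by ring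

theorem trA_eq_per (A : Matrix m m ℤ) (x : m → ℝ) :
    trA A x = (A.map (Int.castRingHom ℝ))ᵀ *ᵥ x := rfl

theorem bil_trA_per (β A : Matrix m m ℤ) (x y : m → ℝ) :
    bil β (trA A x) (trA A y) = bil (A * β * Aᵀ) x y := by
  rw [bil_eq_per, bil_eq_per, trA_eq_per, trA_eq_per, Matrix.map_mul, Matrix.map_mul,
    mulVec_transpose (A.map _) x, ← dotProduct_mulVec, mulVec_mulVec, mulVec_mulVec,
    transpose_map]

omit [Fintype m] in
theorem sum_symm_per (g : m → m → ℤ) (h : ∀ i j, g i j = g j i) (s : Finset m) :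
    ∃ t : ℤ, ∑ i ∈ s, ∑ j ∈ s, g i j = ∑ i ∈ s, g i i + 2 * t := by
  classical
  induction s using Finset.induction_on with
  | empty => exact ⟨0, by simp⟩
  | insert a s ha ih =>
    obtain ⟨t, ht⟩ := ih
    refine ⟨t + ∑ i ∈ s, g a i, ?_⟩
    simp only [Finset.sum_insert ha, Finset.sum_add_distrib, ht, h _ a]
    ring

theorem par_per {B : Matrix m m ℤ} (hs : B.IsSymm) {w : m → ℤ} (hw : ∀ i, Even (w i - B i i))
    (n : m → ℤ) : ∃ t : ℤ,
      bil B (fun i => (n i : ℝ)) (fun i => (n i : ℝ)) + ∑ i, (w i : ℝ) * n i = 2 * t := by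
  obtain ⟨t, ht⟩ := sum_symm_per (fun i j => B i j * n i * n j)
    (fun i j => by rw [hs.apply i j]; ring) Finset.univ
  obtain ⟨u, hu⟩ : Even (∑ i, (B i i * n i * n i + w i * n i)) :=
    Finset.even_sum _ fun i _ => by
      rw [show B i i * n i * n i + w i * n i = B i i * (n i * (n i + 1)) + (w i - B i i) * n i by
        ring]
      exact ((Int.even_mul_succ_self _).mul_left _).add ((hw i).mul_right _)
  rw [Finset.sum_add_distrib] at hu
  refine ⟨t + u, ?_⟩
  have e : ∑ i, ∑ j, B i j * n i * n j + ∑ i, w i * n i = 2 * (t + u) := by linarith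
  simp only [bil]
  exact_mod_cast e

theorem Kf_eq_per {β A : Matrix m m ℤ} (hs : (A * β * Aᵀ - β).IsSymm) {w : m → ℤ}
    (hw : ∀ i, Even (w i - (A * β * Aᵀ - β) i i)) (x : m → ℝ) :
    Kf β A w x = ee (bil β (trA A (fun i => Int.fract (x i)) - fun i => Int.fract (trA A x i))
        (fun i => Int.fract (trA A x i)) -
      bil (A * β * Aᵀ - β) (fun i => Int.fract (x i)) (fun i => Int.fract (x i)) / 2 +
      (∑ i, (w i : ℝ) * Int.fract (x i)) / 2) := by
  obtain ⟨t, ht⟩ := par_per hs hw fun i => ⌊x i⌋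
  rw [Kf, Psi, Psi, ee_conj, ← ee_add, ← ee_add]
  set n : m → ℝ := fun i => (⌊x i⌋ : ℝ) with hn
  set f : m → ℝ := fun i => Int.fract (x i) with hf
  set n' : m → ℝ := fun i => (⌊trA A x i⌋ : ℝ) with hn'
  set f' : m → ℝ := fun i => Int.fract (trA A x i) with hf'
  have e1 : x = n + f := funext fun i => (Int.floor_add_fract (x i)).symm
  have e2 : trA A x = n' + f' := funext fun i => (Int.floor_add_fract (trA A x i)).symm
  have e3 : trA A x = trA A n + trA A f := by
    rw [trA_eq_per, trA_eq_per, trA_eq_per, ← mulVec_add, ← e1]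
  have e4 : n' = trA A n + (trA A f - f') := by
    rw [← add_sub_assoc, ← e3, eq_sub_iff_add_eq, ← e2]
  obtain ⟨u, hu⟩ : ∃ u : ℤ, bil β (trA A f - f') n' = u := by
    have : trA A f - f' = fun i => ((⌊trA A x i⌋ - ∑ j, A j i * ⌊x j⌋ : ℤ) : ℝ) := by
      rw [← sub_eq_iff_eq_add'.2 e4]
      funext i
      simp only [Pi.sub_apply, hn', hn, trA]
      push_cast
      rfl
    refine ⟨∑ i, ∑ j, β i j * (⌊trA A x i⌋ - ∑ j, A j i * ⌊x j⌋) * ⌊trA A x j⌋, ?_⟩
    rw [this, hn', bil]
    simp only [Int.cast_sum, Int.cast_mul]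
  have a1 : bil β n' (trA A x) = bil (A * β * Aᵀ) n x + (u + bil β (trA A f - f') f') := by
    rw [← hu, ← bil_addr_per, ← e2, ← bil_trA_per, ← bil_addl_per, ← e4]
  have a2 := bil_trA_per β A x x
  have a3 := bil_sub_per (A * β * Aᵀ) β x x
  have a4 := bil_sub_per (A * β * Aᵀ) β n x
  have a5 : ∑ i, (w i : ℝ) * x i = ∑ i, (w i : ℝ) * ⌊x i⌋ + ∑ i, (w i : ℝ) * Int.fract (x i) := by
    rw [← Finset.sum_add_distrib]
    exact Finset.sum_congr rfl fun i _ => by rw [← mul_add, Int.floor_add_fract]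
  generalize A * β * Aᵀ - β = B at *
  have a6 : bil B n x = bil B n n + bil B n f := by rw [← bil_addr_per, ← e1]
  have a7 : bil B f x = bil B f n + bil B f f := by rw [← bil_addr_per, ← e1]
  have a8 : bil B x x = bil B n x + bil B f x := by rw [← bil_addl_per, ← e1]
  have a9 := bil_symm_per hs n f
  rw [← one_mul (ee (bil β (trA A f - f') f' - _ + _)), ← ee_int_per (u + t), ← ee_add]
  refine congrArg ee ?_
  push_cast
  linarith

theorem lim_Kf {β A : Matrix m m ℤ} (hs : (A * β * Aᵀ - β).IsSymm) {w : m → ℤ}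
    (hw : ∀ i, Even (w i - (A * β * Aᵀ - β) i i)) :
    Lim (chars m) (Kf β A w) ∧ Lim (chars m) fun x => (starRingEnd ℂ) (Kf β A w x) := by
  have hc : Continuous fun y : (m → ℝ) × (m → ℝ) => ee (bil β (trA A y.1 - y.2) y.2 -
      bil (A * β * Aᵀ - β) y.1 y.1 / 2 + (∑ i, (w i : ℝ) * y.1 i) / 2) := by
    refine ee_cont_per.comp ?_
    simp only [bil, trA, Pi.sub_apply]
    fun_prop
  constructor
  · rw [funext (Kf_eq_per hs hw)]
    exact lim_fract A _ hc fun y => (ee_norm _).le
  · simp only [Kf_eq_per hs hw]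
    exact lim_fract A _ (Complex.continuous_conj.comp hc) fun y =>
      ((Complex.norm_conj _).trans (ee_norm _)).le

end Pool.Agent.MP_434e52_an.TF
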