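import Pool.Agent.MP_434e52_an.TF.Defs

/-! Torsion-free twins: row Rad. Abelian normal subgroups. -/

set_option autoImplicit false

namespace Pool.Agent.MP_434e52_an.TF

open Matrix Filter Topology MeasureTheory NL

variable {O : Type} [CommRing O] [IsDomain O] [CharZero O]

omit [IsDomain O] [CharZero O] in
theorem mul_cc_rad (a : EE O) (w : VV O) :
    a * Hs.cc ⊤ w = Hs.cc ⊤ (mat a.g *ᵥ w) * a :=
  Hs.ext (QuotientAddGroup.subsingleton_quotient_top.elim _ _) (by simp [Hs.cc, mat_one])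
    (by simp [Hs.cc, mat_one, add_comm]) (by simp [Hs.cc])

omit [IsDomain O] [CharZero O] in
theorem comm_cc_rad (a : EE O) (w : VV O) :
    a * Hs.cc ⊤ w * a⁻¹ * (Hs.cc ⊤ w)⁻¹ = Hs.cc ⊤ (mat a.g *ᵥ w - w) := by
  rw [mul_cc_rad, mul_inv_cancel_right, mul_inv_eq_iff_eq_mul, ← Hs.cc_add, sub_add_cancel]

theorem pow_rad {G : Type} [Group G] {A : Type} [AddMonoid A] (f : A → G) (f0 : f 0 = 1)
    (hf : ∀ a b, f (a + b) = f a * f b) (a : A) (n : ℕ) : f (n • a) = f a ^ n := by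
  induction n with
  | zero => simpa using f0
  | succ n ih => rw [succ_nsmul, hf, ih, pow_succ]

theorem rad (H : Subgroup (EE O)) [H.FiniteIndex] (N : Subgroup H) [N.Normal]
    (hN : ∀ a ∈ N, ∀ b ∈ N, a * b = b * a) : ∀ a ∈ N, a.1.g = 1 := by
  intro a ha
  have : H.normalCore.FiniteIndex := Subgroup.finiteIndex_normalCore H
  obtain ⟨n, n0, hn⟩ : ∃ n : ℕ, n ≠ 0 ∧ ∀ e : EE O, e ^ n ∈ H :=
    ⟨H.normalCore.index, Subgroup.FiniteIndex.index_ne_zero,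
      fun e => H.normalCore_le (H.normalCore.pow_index_mem e)⟩
  have n1 : (n : O) ≠ 0 := Nat.cast_ne_zero.2 n0
  set M := N.map H.subtype with hM
  have c1 : ∀ e ∈ M, ∀ u ∈ H, u * e * u⁻¹ ∈ M := by
    rintro _ ⟨e, he, rfl⟩ u hu
    exact ⟨_, ‹N.Normal›.conj_mem e he ⟨u, hu⟩, rfl⟩
  have c2 : ∀ e ∈ M, a.1 * e = e * a.1 := by
    rintro _ ⟨e, he, rfl⟩
    exact congrArg Subtype.val (hN a ha e he)
  have aM : a.1 ∈ M := ⟨a, ha, rfl⟩
  have hc : ∀ v : VV O, Hs.cc ⊤ (n • v) ∈ H := fun v => by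
    rw [pow_rad (Hs.cc (⊤ : AddSubgroup O)) rfl Hs.cc_add]
    exact hn _
  have hk : ∀ {i j : Fin 3} (h : i ≠ j), Hs.kk ⊤ (xx h (n • (1 : O))) ∈ H := fun h => by
    rw [pow_rad (xx h) (xx_zero h) (xx_add h), map_pow]
    exact hn _
  have s1 : ∀ v : VV O, Hs.cc ⊤ (mat a.1.g *ᵥ (n • v) - n • v) ∈ M := fun v => by
    rw [← comm_cc_rad, mul_assoc, mul_assoc, ← mul_assoc (Hs.cc ⊤ _)]
    exact mul_mem aM (c1 _ (inv_mem aM) _ (hc v))
  have s2 : ∀ (y : VV O) {i j : Fin 3}, i ≠ j → Hs.cc ⊤ y ∈ M →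
      Hs.cc ⊤ (Pi.single i (n * y j) : VV O) ∈ M := fun y i j h hy => by
    have := mul_mem (c1 _ hy _ (hk h)) (inv_mem hy)
    rw [comm_cc_rad] at this
    simpa [Hs.kk, xx_mulVec] using this
  by_contra hg
  obtain ⟨i, j, h⟩ : ∃ i j, (mat a.1.g - 1) i j ≠ 0 := by
    by_contra h
    push Not at h
    exact hg (mat_injective (sub_eq_zero.1 (Matrix.ext h)))
  have y0 := s1 (Pi.single j 1)
  set y := mat a.1.g *ᵥ (n • (Pi.single j 1 : VV O)) - n • (Pi.single j 1 : VV O) with hy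
  have yi : y i ≠ 0 := by
    have : y i = n * (mat a.1.g - 1) i j := by
      rw [hy, mulVec_smul]
      simp [Matrix.one_apply, Pi.single_apply, mul_sub]
    rw [this]
    exact mul_ne_zero n1 h
  obtain ⟨c, c0, hc⟩ : ∃ c : O, c ≠ 0 ∧ Hs.cc ⊤ (Pi.single j c : VV O) ∈ M := by
    by_cases e : j = i
    · obtain ⟨k, hk⟩ := exists_ne i
      have := s2 _ (e ▸ hk.symm : j ≠ k) (s2 y hk y0)
      rw [Pi.single_eq_same] at this
      exact ⟨_, mul_ne_zero n1 (mul_ne_zero n1 yi), this⟩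
    · exact ⟨_, mul_ne_zero n1 yi, s2 y e y0⟩
  have e := c2 _ hc
  rw [mul_cc_rad, mul_left_inj] at e
  have e2 := congrFun (congrArg Hs.x e) i
  apply mul_ne_zero h c0
  simp only [Hs.cc, mulVec_single, Pi.single_apply] at e2
  simp only [Matrix.sub_apply, Matrix.one_apply, sub_mul, ite_mul, one_mul, zero_mul]
  rw [sub_eq_zero]
  simpa using e2

end Pool.Agent.MP_434e52_an.TF
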