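import Pool.Agent.MP_434e52_an.TF.Dat

/-! Torsion-free twins: row Sub. The two subgroups. -/

set_option autoImplicit false

namespace Pool.Agent.MP_434e52_an.TF

open Matrix Filter Topology MeasureTheory NL

variable {O : Type} [CommRing O] [IsDomain O] [CharZero O] {c : Cas O}

theorem vp_mul (e f : EE O) :
    vp (e * f) = vp e + (mat e.g *ᵥ (vp f).1, (vp f).2 ᵥ* mat e.g⁻¹) := by
  refine Prod.ext rfl ?_
  show (e.b ᵥ* mat f.g + f.b) ᵥ* mat (e.g * f.g)⁻¹ =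
    e.b ᵥ* mat e.g⁻¹ + (f.b ᵥ* mat f.g⁻¹) ᵥ* mat e.g⁻¹
  rw [add_vecMul, vecMul_vecMul, vecMul_vecMul, ← mat_mul, ← mat_mul, _root_.mul_inv_rev,
    mul_inv_cancel_left]

theorem io_add_sub (v w : LL O) : io (v + w) = io v + io w := by
  refine Prod.ext ?_ rfl
  show v.1 + w.1 + (v.1 + w.1) + Sw O *ᵥ (v.2 + w.2) =
    v.1 + v.1 + Sw O *ᵥ v.2 + (w.1 + w.1 + Sw O *ᵥ w.2)
  rw [mulVec_add]
  abel

theorem io_zero_sub : io (0 : LL O) = 0 := by
  have := io_add_sub (0 : LL O) 0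
  rw [add_zero] at this
  exact left_eq_add.1 this

theorem vp_one_sub : vp (1 : EE O) = 0 := Prod.ext rfl (by simp [vp])

theorem io_mul_sub (D : Dat c) {e f : EE O} (hg : e.g ∈ D.Q) {v w : LL O} (hv : io v = vp e)
    (hw : io w = vp f) : io (v + D.ρ ⟨e.g, hg⟩ w) = vp (e * f) := by
  rw [io_add_sub, D.hρ, hv, hw, vp_mul]

theorem exists_sub (D : Dat c) (d : D.Q → Module.Dual ℤ (LL O) → ℤ) (d1 : ∀ l, d 1 l = 0)
    (hd : ∀ g h l, d (g * h) l = d g l + d h (l ∘ₗ D.ρ g)) :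
    ∃ G : Subgroup (EE O), (∀ e, e ∈ G ↔ InH D d e) ∧ Nonempty (Aff D.ρ d G) := by
  let G : Subgroup (EE O) :=
    { carrier := {e | InH D d e}
      one_mem' := ⟨D.Q.one_mem, 0, by rw [io_zero_sub, vp_one_sub], fun l => by
        have : d ⟨(1 : EE O).g, D.Q.one_mem⟩ l = 0 := d1 l
        rw [this, map_zero, sub_zero]
        exact Even.zero⟩
      mul_mem' := by
        rintro e f ⟨hg, v, hv, pv⟩ ⟨hh, w, hw, pw⟩
        refine ⟨D.Q.mul_mem hg hh, v + D.ρ ⟨e.g, hg⟩ w, io_mul_sub D hg hv hw, fun l => ?_⟩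
        have h := hd ⟨e.g, hg⟩ ⟨f.g, hh⟩ l
        have h' : d ⟨(e * f).g, D.Q.mul_mem hg hh⟩ l =
          d ⟨e.g, hg⟩ l + d ⟨f.g, hh⟩ (l ∘ₗ D.ρ ⟨e.g, hg⟩) := h
        have k := (pv l).add (pw (l ∘ₗ D.ρ ⟨e.g, hg⟩))
        rw [LinearMap.comp_apply] at k
        rw [h', map_add, add_sub_add_comm]
        exact k
      inv_mem' := by
        rintro e ⟨hg, v, hv, pv⟩
        have hi : e⁻¹.g ∈ D.Q := D.Q.inv_mem hg
        refine ⟨hi, -D.ρ ⟨e⁻¹.g, hi⟩ v, ?_, fun l => ?_⟩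
        · have h := vp_mul e⁻¹ e
          rw [inv_mul_cancel, vp_one_sub, ← hv] at h
          have k := io_add_sub (-D.ρ ⟨e⁻¹.g, hi⟩ v) (D.ρ ⟨e⁻¹.g, hi⟩ v)
          rw [neg_add_cancel, io_zero_sub, D.hρ] at k
          exact add_right_cancel (k.symm.trans h)
        · have h := hd ⟨e⁻¹.g, hi⟩ ⟨e.g, hg⟩ l
          have e1 : (⟨e⁻¹.g, hi⟩ : D.Q) * ⟨e.g, hg⟩ = 1 := Subtype.ext (inv_mul_cancel e.g)
          rw [e1, d1] at h
          have k := (pv (l ∘ₗ D.ρ ⟨e⁻¹.g, hi⟩)).neg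
          rw [LinearMap.comp_apply] at k
          rw [map_neg, show d ⟨e⁻¹.g, hi⟩ l = -d ⟨e.g, hg⟩ (l ∘ₗ D.ρ ⟨e⁻¹.g, hi⟩) by linarith,
            ← neg_sub']
          exact k }
  have mem : ∀ x : G, InH D d x.1 := fun x => x.2
  choose hg w hw pw using mem
  refine ⟨G, fun e => Iff.rfl, ⟨⟨⟨⟨fun x => ⟨x.1.g, hg x⟩, rfl⟩, fun x y => rfl⟩, w,
    fun x y => ?_, fun x y h1 h2 => ?_, fun g v => ⟨?_, fun h => ?_⟩⟩⟩⟩
  · exact io_inj ((hw (x * y)).trans (io_mul_sub D (hg x) (hw x) (hw y)).symm)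
  · have a : x.1.g = y.1.g := congrArg Subtype.val h1
    have b : vp x.1 = vp y.1 := by rw [← hw, ← hw, h2]
    have b1 : x.1.x = y.1.x := congrArg Prod.fst b
    have b2 : x.1.b ᵥ* mat x.1.g⁻¹ = y.1.b ᵥ* mat y.1.g⁻¹ := congrArg Prod.snd b
    have b3 := congrArg (fun u => u ᵥ* mat y.1.g) b2
    simp only [a, vecMul_vecMul, ← mat_mul, inv_mul_cancel, mat_one, vecMul_one] at b3
    exact Subtype.ext (Hs.ext (QuotientAddGroup.subsingleton_quotient_top.elim _ _) b3 b1 a)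
  · rintro ⟨x, rfl, rfl⟩
    exact pw x
  · have a : io v = vp (⟨0, (io v).2 ᵥ* mat g.1, (io v).1, g.1⟩ : EE O) := by
      refine Prod.ext rfl ?_
      show (io v).2 = ((io v).2 ᵥ* mat g.1) ᵥ* mat g.1⁻¹
      rw [vecMul_vecMul, ← mat_mul, mul_inv_cancel, mat_one, vecMul_one]
    exact ⟨⟨_, g.2, v, a, h⟩, rfl, io_inj ((hw _).trans a.symm)⟩

theorem mem_of_sub (D : Dat c) (G : Subgroup (EE O))
    (hG : (∀ e, e ∈ G ↔ InH D (fun _ _ => 0) e) ∨
      ∀ e, e ∈ G ↔ InH D (fun g l => Bf D.ρ D.β g l l) e) (e : EE O)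
    {M : Matrix (Fin 3) (Fin 3) O} {X B : VV O} (hM : mat e.g = 1 + (12 : O) • M)
    (hX : e.x = (12 : O) • X) (hB : e.b = (12 : O) • B) : e ∈ G := by
  obtain ⟨C, hC⟩ : ∃ C : Matrix (Fin 3) (Fin 3) O,
      C + C + (C + C) = mat e.g * Sw O * (mat e.g)ᵀ - Sw O := by
    refine ⟨(3 : O) • (M * Sw O + Sw O * Mᵀ) + (36 : O) • (M * Sw O * Mᵀ), ?_⟩
    rw [hM, transpose_add, transpose_one, transpose_smul]
    simp only [add_mul, mul_add, one_mul, mul_one, smul_mul_assoc, mul_smul_comm]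
    module
  have hg : e.g ∈ D.Q := (D.hQ _).2 ⟨⟨_, hC⟩, fun i j => by
    rw [hM, add_sub_cancel_left, Matrix.smul_apply, smul_eq_mul]
    exact Dvd.intro (4 * M i j) (by ring)⟩
  obtain ⟨u, hu⟩ : ∃ u : LL O, io (u + u) = vp e := by
    refine ⟨((3 : O) • X - (3 : O) • (Sw O *ᵥ (B ᵥ* mat e.g⁻¹)), (6 : O) • (B ᵥ* mat e.g⁻¹)), ?_⟩
    refine Prod.ext ?_ ?_
    · simp only [io, vp, hX, Prod.fst_add, Prod.snd_add, mulVec_add, mulVec_smul]
      module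
    · simp only [io, vp, hB, Prod.snd_add, smul_vecMul]
      module
  rcases hG with h | h
  · exact (h e).2 ⟨hg, u + u, hu, fun l => ⟨l u, by rw [map_add, sub_zero]⟩⟩
  · refine (h e).2 ⟨hg, u + u, hu, fun l => Even.sub ⟨l u, map_add _ _ _⟩ ?_⟩
    show Even (Bf D.ρ D.β ⟨e.g, hg⟩ l l)
    rw [D.hB ⟨e.g, hg⟩ (C + C) hC]
    refine ⟨∑ i, ∑ j, c.T (rs l i ∘ₗ LinearMap.mulLeft ℤ (C i j)) (rs l j), ?_⟩
    rw [← Finset.sum_add_distrib]
    refine Finset.sum_congr rfl fun i _ => ?_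
    rw [← Finset.sum_add_distrib]
    refine Finset.sum_congr rfl fun j _ => ?_
    rw [← LinearMap.add_apply, ← map_add]
    congr 2
    ext r
    simp [add_mul]

theorem fin_idx [Module.Finite ℤ O] (D : Dat c) (G : Subgroup (EE O))
    (hG : (∀ e, e ∈ G ↔ InH D (fun _ _ => 0) e) ∨
      ∀ e, e ∈ G ↔ InH D (fun g l => Bf D.ρ D.β g l l) e) : G.FiniteIndex := by
  let I : Submodule ℤ O := LinearMap.range (LinearMap.mulLeft ℤ (12 : O))
  have fin : Finite (O ⧸ I) := Module.finite_of_fg_torsion _ fun y => by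
    obtain ⟨y, rfl⟩ := I.mkQ_surjective y
    refine ⟨⟨12, mem_nonZeroDivisors_of_ne_zero (by norm_num)⟩, ?_⟩
    show (12 : ℤ) • I.mkQ y = 0
    rw [← map_smul, Submodule.mkQ_apply, Submodule.Quotient.mk_eq_zero]
    exact ⟨y, by simp⟩
  have dv : ∀ a b : O, I.mkQ a = I.mkQ b → ∃ r, b = a + 12 * r := fun a b h => by
    obtain ⟨r, hr⟩ := (Submodule.Quotient.eq I).1 h.symm
    exact ⟨r, by rw [LinearMap.mulLeft_apply] at hr; rw [hr]; ring⟩
  let f : EE O → (Fin 3 → O ⧸ I) × (Fin 3 → O ⧸ I) × (Fin 3 → Fin 3 → O ⧸ I) := fun e =>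
    (fun i => I.mkQ (e.b i), fun i => I.mkQ (e.x i), fun i j => I.mkQ (mat e.g i j))
  have key : ∀ e e' : EE O, f e = f e' → e⁻¹ * e' ∈ G := fun e e' h => by
    choose B hB using fun i => dv _ _ (congrFun (congrArg Prod.fst h) i)
    choose X hX using fun i => dv _ _ (congrFun (congrArg (fun p => p.2.1) h) i)
    choose M hM using fun i j => dv (mat e.g i j) (mat e'.g i j)
      (congrArg (fun p => p.2.2 i j) h)
    have b1 : e'.b = e.b + (12 : O) • B := funext hB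
    have x1 : e'.x = e.x + (12 : O) • X := funext hX
    have m1 : mat e'.g = mat e.g + (12 : O) • Matrix.of M := Matrix.ext hM
    have m2 : mat e.g⁻¹ * mat e'.g = 1 + (12 : O) • (mat e.g⁻¹ * Matrix.of M) := by
      rw [m1, mul_add, ← mat_mul, inv_mul_cancel, mat_one, mul_smul_comm]
    refine mem_of_sub D G hG _ (M := mat e.g⁻¹ * Matrix.of M) (X := mat e.g⁻¹ *ᵥ X)
      (B := B - e.b ᵥ* (mat e.g⁻¹ * Matrix.of M)) m2 ?_ ?_
    · rw [Hs.mul_x, Hs.inv_x, Hs.inv_g, x1, mulVec_add, mulVec_smul, neg_add_cancel_left]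
    · rw [Hs.mul_b, Hs.inv_b, neg_vecMul, vecMul_vecMul, m2, vecMul_add, vecMul_one, vecMul_smul,
        b1]
      module
  have : Finite (EE O ⧸ G) := Finite.of_injective (fun q : EE O ⧸ G => f q.out) fun p q h => by
    rw [← p.out_eq, ← q.out_eq]
    exact QuotientGroup.eq.2 (key _ _ h)
  exact Subgroup.finiteIndex_of_finite_quotient

end Pool.Agent.MP_434e52_an.TF
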