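import Pool.Agent.MP_434e52_an.TF.VN2
import Pool.Agent.MP_434e52_an.TF.Per

/-! Torsion-free twins: row The. The theta twin in coordinates. -/

set_option autoImplicit false

namespace Pool.Agent.MP_434e52_an.TF

open Matrix Filter Topology MeasureTheory NL

section Aux

variable {m : Type} [Fintype m]

theorem lim_mono_the {Z : Type} {S T : Set (Z → ℂ)} (h : S ⊆ T) {f : Z → ℂ} (hf : Lim S f) :
    Lim T f := by
  obtain ⟨p, C, h1, h2⟩ := hf
  exact ⟨p, C, fun n => Submodule.span_mono h (h1 n), h2⟩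

theorem trA_mul_the (A B : Matrix m m ℤ) (x : m → ℝ) : trA (A * B) x = trA B (trA A x) := by
  funext i
  simp only [trA, Matrix.mul_apply, Int.cast_sum, Int.cast_mul, Finset.sum_mul, Finset.mul_sum]
  rw [Finset.sum_comm]
  exact Finset.sum_congr rfl fun j _ => Finset.sum_congr rfl fun l _ => by ring

theorem trA_one_the [DecidableEq m] (x : m → ℝ) : trA (1 : Matrix m m ℤ) x = x := by
  funext i
  simp [trA, Matrix.one_apply]

theorem trA_meas_the (A : Matrix m m ℤ) : Measurable (trA A) :=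
  measurable_pi_lambda _ fun _ =>
    Finset.measurable_sum _ fun j _ => (measurable_pi_apply j).const_mul _

/-- The half character. -/
noncomputable def hc_the (w : m → ℤ) (x : m → ℝ) : ℂ := ee ((∑ i, (w i : ℝ) * x i) / 2)

theorem hc_meas_the (w : m → ℤ) : Measurable (hc_the w) := by
  have h : Continuous ee := by
    unfold ee
    fun_prop
  exact h.measurable.comp ((Finset.measurable_sum _ fun j _ =>
    (measurable_pi_apply j).const_mul _).div_const 2)

theorem hc_add_the (A : Matrix m m ℤ) (v w : m → ℤ) (x : m → ℝ) :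
    hc_the (v + A *ᵥ w) x = hc_the v x * hc_the w (trA A x) := by
  rw [hc_the, hc_the, hc_the, ← ee_add, ← add_div]
  refine congrArg (fun t => ee (t / 2)) ?_
  simp only [trA, Pi.add_apply, mulVec, dotProduct, Int.cast_add, Int.cast_sum, Int.cast_mul,
    add_mul, Finset.sum_add_distrib, Finset.sum_mul, Finset.mul_sum, add_right_inj]
  rw [Finset.sum_comm]
  exact Finset.sum_congr rfl fun j _ => Finset.sum_congr rfl fun l _ => by ring

theorem hc_sub_the (v w : m → ℤ) (x : m → ℝ) :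
    hc_the (v - w) x = hc_the v x * (starRingEnd ℂ) (hc_the w x) := by
  rw [hc_the, hc_the, hc_the, ee_conj, ← ee_add, ← sub_eq_add_neg, ← sub_div]
  simp only [Pi.sub_apply, Int.cast_sub, sub_mul, Finset.sum_sub_distrib]

theorem hc_two_the (v : m → ℤ) : hc_the (v + v) = fun x => ee (∑ i, (v i : ℝ) * x i) := by
  funext x
  simp only [hc_the, Pi.add_apply, Int.cast_add, add_mul, Finset.sum_add_distrib, add_self_div_two]

theorem Psi_unit_the (β : Matrix m m ℤ) (x : m → ℝ) :
    Psi β x * (starRingEnd ℂ) (Psi β x) = 1 := by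
  rw [Complex.mul_conj', Psi, ee_norm]
  simp

theorem Kf_def_the (β A : Matrix m m ℤ) (w : m → ℤ) (x : m → ℝ) :
    Kf β A w x = Psi β (trA A x) * (starRingEnd ℂ) (Psi β x) * hc_the w x := rfl

theorem Kf_one_the [DecidableEq m] (β : Matrix m m ℤ) (w : m → ℤ) : Kf β 1 w = hc_the w := by
  funext x
  rw [Kf_def_the, trA_one_the, Psi_unit_the, one_mul]

variable [DecidableEq m] {Q H : Type} [Group Q] [Group H] {A : Q →* Matrix m m ℤ}
  {c : Q → m → ℤ}

theorem aff_tr_the (M : AffM A c H) (h : ∀ i, c 1 i = 0) {x : H} (h1 : x ≠ 1) (hp : M.p x = 1) :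
    ∫ s, hc_the (M.w x) s ∂(cube m) = 0 := by
  have a1 : M.w 1 = 0 := by simpa using M.w_mul 1 1
  choose v hv using (M.rng 1 (M.w x)).1 ⟨x, hp, rfl⟩
  have a2 : M.w x = v + v := funext fun i => by simpa [h i] using hv i
  rw [a2, hc_two_the]
  refine cube_char fun h0 => h1 (M.inj x 1 (by rw [hp, map_one]) ?_)
  rw [a1, a2, h0, add_zero]

theorem aff_chars_the (M : AffM A c H) (h : ∀ i, c 1 i = 0) {F : H → (m → ℝ) → ℂ}
    (hF : ∀ z, M.p z = 1 → F z = hc_the (M.w z)) : chars m ⊆ F '' {z | M.p z = 1} := by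
  rintro _ ⟨v, rfl⟩
  obtain ⟨z, h1, h2⟩ := (M.rng 1 (v + v)).2 fun i => ⟨v i, by simp [h i]⟩
  exact ⟨z, h1, by rw [hF z h1, h2, hc_two_the]⟩

end Aux

theorem vn_mat {m Q H H' : Type} [Fintype m] [DecidableEq m] [Group Q] [Countable Q] [Group H]
    [Group H'] (A : Q →* Matrix m m ℤ) (β : Matrix m m ℤ)
    (hs : ∀ g, (A g * β * (A g)ᵀ - β).IsSymm) (M : AffM A (fun _ _ => 0) H)
    (M' : AffM A (fun g i => (A g * β * (A g)ᵀ - β) i i) H') : VNIso H H' := by
  have := cube_prob (m := m)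
  have c0 : ∀ i, (A 1 * β * (A 1)ᵀ - β) i i = 0 := fun i => by simp
  have k1 : ∀ z, M'.p z = 1 → Kf β (A (M'.p z)) (M'.w z) = hc_the (M'.w z) := fun z hz => by
    rw [hz, map_one, Kf_one_the]
  have ev : ∀ (x : H) (y : H'), M'.p y = M.p x → ∀ i,
      Even ((M'.w y - M.w x) i - (A (M'.p y) * β * (A (M'.p y))ᵀ - β) i i) := fun x y _ i => by
    have a1 := (M.rng _ _).1 ⟨x, rfl, rfl⟩ i
    have a2 := (M'.rng _ _).1 ⟨y, rfl, rfl⟩ i
    rw [Pi.sub_apply, sub_right_comm]
    exact a2.sub (by simpa using a1)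
  refine vn_coc (cube m) (fun g => trA (A g⁻¹)) (fun s => by rw [inv_one, map_one, trA_one_the])
    (fun g h s => by rw [_root_.mul_inv_rev, map_mul, trA_mul_the]) (fun g => trA_meas_the _)
    ⟨M.p, fun x => hc_the (M.w x), fun x => hc_meas_the _, fun x s => ee_norm _,
      fun x y s => by rw [M.w_mul, hc_add_the, inv_inv],
      fun x h1 hp => aff_tr_the M (fun _ => rfl) h1 hp⟩
    ⟨M'.p, fun x => Kf β (A (M'.p x)) (M'.w x), fun x => ?_, fun x s => ?_, fun x y s => ?_,
      fun x h1 hp => ?_⟩ (fun x => ?_) fun y => ?_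
  · exact (((Psi_meas β).comp (trA_meas_the _)).mul
      (Complex.continuous_conj.measurable.comp (Psi_meas β))).mul (hc_meas_the _)
  · rw [Kf_def_the, norm_mul, norm_mul, Complex.norm_conj, Psi, Psi, hc_the, ee_norm, ee_norm,
      ee_norm, mul_one, mul_one]
  · rw [Kf_def_the, Kf_def_the, Kf_def_the, M'.w_mul, hc_add_the, inv_inv, map_mul, map_mul,
      trA_mul_the]
    linear_combination (-Psi β (trA (A (M'.p y)) (trA (A (M'.p x)) s)) *
      (starRingEnd ℂ) (Psi β s) * hc_the (M'.w x) s * hc_the (M'.w y) (trA (A (M'.p x)) s)) *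
      Psi_unit_the β (trA (A (M'.p x)) s)
  · rw [k1 x hp]
    exact aff_tr_the M' c0 h1 hp
  · obtain ⟨y, h1, -⟩ := (M'.rng (M.p x) _).2 fun i => ⟨0, sub_self _⟩
    refine ⟨y, h1, lim_mono_the (aff_chars_the M' c0 k1) ?_⟩
    have e : (fun s => hc_the (M.w x) s * (starRingEnd ℂ) (Kf β (A (M'.p y)) (M'.w y) s)) =
        fun s => (starRingEnd ℂ) (Kf β (A (M'.p y)) (M'.w y - M.w x) s) := funext fun s => by
      simp only [Kf_def_the, hc_sub_the, map_mul, Complex.conj_conj]
      ring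
    exact e ▸ (lim_Kf (hs _) (ev x y h1)).2
  · obtain ⟨x, h1, -⟩ := (M.rng (M'.p y) _).2 fun i => ⟨0, sub_self _⟩
    refine ⟨x, h1, lim_mono_the (aff_chars_the M (fun _ => rfl) fun _ _ => rfl) ?_⟩
    have e : (fun s => Kf β (A (M'.p y)) (M'.w y) s * (starRingEnd ℂ) (hc_the (M.w x) s)) =
        Kf β (A (M'.p y)) (M'.w y - M.w x) := funext fun s => by
      simp only [Kf_def_the, hc_sub_the]
      ring
    exact e ▸ (lim_Kf (hs _) (ev x y h1.symm)).1

end Pool.Agent.MP_434e52_an.TF
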