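import Pool.Agent.MP_434e52_an.TF.Defs

/-! Torsion-free twins: row VN1. Two regular models with the same weak closure. -/

set_option autoImplicit false

namespace Pool.Agent.MP_434e52_an.TF

open Matrix Filter Topology MeasureTheory NL

section

variable {E F : Type} [NormedAddCommGroup E] [InnerProductSpace ℂ E] [NormedAddCommGroup F]
  [InnerProductSpace ℂ F]

theorem pull_vn1 {ι : Type} (W : F →ₗᵢ[ℂ] E) (ψ : ι → F →L[ℂ] F) (φ : ι → E →L[ℂ] E)
    (h : ∀ i ξ, W (ψ i ξ) = φ i (W ξ)) {S : F →L[ℂ] F} {T : E →L[ℂ] E}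
    (hS : ∀ ξ, W (S ξ) = T (W ξ)) (hT : T ∈ weakClosure (opSpan (Set.range φ))) :
    S ∈ weakClosure (opSpan (Set.range ψ)) := by
  intro n ξ η ε hε
  obtain ⟨a, ha, hb⟩ := hT n (fun i => W (ξ i)) (fun i => W (η i)) ε hε
  have key : ∃ b ∈ Submodule.span ℂ (Set.range ψ), ∀ x, W (b x) = a (W x) := by
    clear hb
    induction ha using Submodule.span_induction with
    | mem x hx => obtain ⟨i, rfl⟩ := hx; exact ⟨ψ i, Submodule.subset_span ⟨i, rfl⟩, h i⟩
    | zero => exact ⟨0, zero_mem _, fun x => by simp⟩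
    | add x y _ _ hx hy =>
      obtain ⟨b, hb, eb⟩ := hx
      obtain ⟨c, hc, ec⟩ := hy
      exact ⟨b + c, add_mem hb hc, fun z => by simp [eb, ec]⟩
    | smul c x _ hx =>
      obtain ⟨b, hb, eb⟩ := hx
      exact ⟨c • b, Submodule.smul_mem _ _ hb, fun z => by simp [eb]⟩
  obtain ⟨b, hb1, hb2⟩ := key
  refine ⟨b, hb1, fun i => ?_⟩
  rw [← W.inner_map_map, map_sub, hS, hb2]
  exact hb i

theorem span_vn1 {A B : Set (E →L[ℂ] E)} (h : B ⊆ weakClosure (opSpan A)) :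
    opSpan B ⊆ weakClosure (opSpan A) := by
  intro T hT
  induction hT using Submodule.span_induction with
  | mem x hx => exact h hx
  | zero => exact fun n ξ η ε hε => ⟨0, zero_mem (Submodule.span ℂ A), fun i => by simpa using hε⟩
  | add x y _ _ hx hy =>
    intro n ξ η ε hε
    obtain ⟨a, ha, ea⟩ := hx n ξ η (ε / 2) (half_pos hε)
    obtain ⟨b, hb, eb⟩ := hy n ξ η (ε / 2) (half_pos hε)
    refine ⟨a + b, add_mem (S := Submodule ℂ (E →L[ℂ] E)) ha hb, fun i => ?_⟩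
    have e : (x + y) (ξ i) - (a + b) (ξ i) = (x (ξ i) - a (ξ i)) + (y (ξ i) - b (ξ i)) := by
      simp only [_root_.add_apply]; abel
    rw [e, inner_add_right]
    exact (norm_add_le _ _).trans_lt (by linarith [ea i, eb i])
  | smul c x _ hx =>
    intro n ξ η ε hε
    obtain ⟨a, ha, ea⟩ := hx n (fun i => c • ξ i) η ε hε
    refine ⟨c • a, Submodule.smul_mem (Submodule.span ℂ A) c ha, fun i => ?_⟩
    have := ea i
    rw [map_smul, map_smul] at this
    exact this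

theorem clos_vn1 {A B : Set (E →L[ℂ] E)} (h : B ⊆ weakClosure (opSpan A)) :
    weakClosure (opSpan B) ⊆ weakClosure (opSpan A) := by
  intro T hT n ξ η ε hε
  obtain ⟨b, hb, eb⟩ := hT n ξ η (ε / 2) (half_pos hε)
  obtain ⟨a, ha, ea⟩ := span_vn1 h hb n ξ η (ε / 2) (half_pos hε)
  refine ⟨a, ha, fun i => ?_⟩
  have e : T (ξ i) - a (ξ i) = (T (ξ i) - b (ξ i)) + (b (ξ i) - a (ξ i)) := by abel
  rw [e, inner_add_right]
  exact (norm_add_le _ _).trans_lt (by linarith [ea i, eb i])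

theorem vec_vn1 [CompleteSpace E] {ι : Type} (φ : ι → E →L[ℂ] E) (Ω : E) {T : E →L[ℂ] E}
    (hT : T ∈ weakClosure (opSpan (Set.range φ))) :
    T Ω ∈ (Submodule.span ℂ (Set.range fun h => φ h Ω)).topologicalClosure := by
  rw [← Submodule.orthogonal_orthogonal_eq_closure, Submodule.mem_orthogonal]
  intro η hη
  by_contra hne
  obtain ⟨a, ha, ea⟩ := hT 1 (fun _ => Ω) (fun _ => η) _ (norm_pos_iff.2 hne)
  have h2 := Submodule.mem_map_of_mem (f := (ContinuousLinearMap.apply ℂ E Ω).toLinearMap) ha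
  rw [Submodule.map_span, ← Set.range_comp] at h2
  have h3 : inner ℂ η (a Ω) = 0 := (Submodule.mem_orthogonal' _ _).1 hη _ h2
  have h4 := ea 0
  rw [inner_sub_right, h3, sub_zero] at h4
  exact lt_irrefl _ h4

theorem basis_vn1 [CompleteSpace E] {H : Type} [Group H] (Ω : E) (hΩ : ‖Ω‖ = 1)
    (φ : H →* (E →L[ℂ] E)) (u : ∀ h, φ h ∈ unitary (E →L[ℂ] E))
    (t : ∀ h, h ≠ 1 → inner ℂ Ω (φ h Ω) = 0) (K : Submodule ℂ E) [CompleteSpace K]
    (hK : K = (Submodule.span ℂ (Set.range fun h => φ h Ω)).topologicalClosure) :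
    ∃ U : K ≃ₗᵢ[ℂ] L2 H, ∀ h ξ, (U.symm (lam H h ξ) : E) = φ h (U.symm ξ) := by
  classical
  have hi : ∀ a b, inner ℂ (φ a Ω) (φ b Ω) = inner ℂ Ω (φ (a⁻¹ * b) Ω) := by
    intro a b
    rw [map_mul, ← un_star u, ContinuousLinearMap.star_eq_adjoint, mul_apply_eq_comp,
      ContinuousLinearMap.adjoint_inner_right]
  have hm : ∀ h, φ h Ω ∈ K := fun h =>
    hK ▸ Submodule.le_topologicalClosure _ (Submodule.subset_span ⟨h, rfl⟩)
  have ho : Orthonormal ℂ fun h => (⟨φ h Ω, hm h⟩ : K) := by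
    rw [orthonormal_iff_ite]
    intro a b
    change inner ℂ (φ a Ω) (φ b Ω) = _
    rw [hi]
    split_ifs with hab
    · subst hab
      simp [hΩ]
    · exact t _ fun h => hab (inv_mul_eq_one.1 h)
  have hd : (Submodule.span ℂ (Set.range fun h => (⟨φ h Ω, hm h⟩ : K)))ᗮ = ⊥ := by
    rw [eq_bot_iff]
    intro x hx
    have h1 : (x : E) ∈ (Submodule.span ℂ (Set.range fun h => φ h Ω))ᗮ := by
      rw [Submodule.mem_orthogonal]
      intro y hy
      induction hy using Submodule.span_induction with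
      | mem z hz =>
        obtain ⟨h, rfl⟩ := hz
        exact (Submodule.mem_orthogonal _ _).1 hx ⟨φ h Ω, hm h⟩ (Submodule.subset_span ⟨h, rfl⟩)
      | zero => exact inner_zero_left _
      | add a b _ _ ha hb => rw [inner_add_left, ha, hb, add_zero]
      | smul c a _ ha => rw [inner_smul_left, ha, mul_zero]
    have h2 : (x : E) ∈ (Submodule.span ℂ (Set.range fun h => φ h Ω))ᗮᗮ := by
      rw [Submodule.orthogonal_orthogonal_eq_closure, ← hK]
      exact x.2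
    have h3 : inner ℂ (x : E) (x : E) = 0 := (Submodule.mem_orthogonal _ _).1 h2 _ h1
    exact Subtype.ext (inner_self_eq_zero.1 h3)
  let b := HilbertBasis.mkOfOrthogonalEqBot ho hd
  have hb : ∀ h, (b.repr.symm (dl h) : E) = φ h Ω := by
    intro h
    have := b.repr_symm_single h
    rw [HilbertBasis.coe_mkOfOrthogonalEqBot] at this
    exact congrArg Subtype.val this
  refine ⟨b.repr, fun h ξ => ?_⟩
  let W : L2 H →L[ℂ] E := K.subtypeL.comp b.repr.symm.toLinearIsometry.toContinuousLinearMap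
  have e : W.comp (lam H h) = (φ h).comp W := by
    refine ContinuousLinearMap.ext_on (s := Set.range dl) ?_ ?_
    · rw [Submodule.dense_iff_topologicalClosure_eq_top, eq_top_iff]
      exact dense_dl
    · rintro _ ⟨y, rfl⟩
      change (b.repr.symm (lam H h (dl y)) : E) = φ h (b.repr.symm (dl y))
      rw [lam_dl, hb, hb, map_mul, mul_apply_eq_comp]
  exact congrArg (fun A : L2 H →L[ℂ] E => A ξ) e

theorem maps_vn1 {H H' : Type} [Group H] [Group H'] (K : Submodule ℂ E)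
    (U : K ≃ₗᵢ[ℂ] L2 H) (U' : K ≃ₗᵢ[ℂ] L2 H') (φ : H →* (E →L[ℂ] E)) (φ' : H' →* (E →L[ℂ] E))
    (e : ∀ h ξ, (U.symm (lam H h ξ) : E) = φ h (U.symm ξ))
    (e' : ∀ h ξ, (U'.symm (lam H' h ξ) : E) = φ' h (U'.symm ξ))
    (hs : ∀ h, φ h ∈ weakClosure (opSpan (Set.range φ'))) :
    ∀ T ∈ groupVN H, (U.symm.trans U').conjStarAlgEquiv T ∈ groupVN H' := by
  intro T hT
  rw [groupVN, leftTranslations_eq] at hT ⊢
  have h1 : (U.symm.trans U').conjStarAlgEquiv T ∈ weakClosure (opSpan (Set.range fun g =>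
      (U.symm.trans U').conjStarAlgEquiv (lam H g))) :=
    pull_vn1 (U.symm.trans U').symm.toLinearIsometry _ (lam H) (fun g ξ => by simp)
      (fun ξ => by simp) hT
  refine clos_vn1 ?_ h1
  rintro _ ⟨g, rfl⟩
  refine pull_vn1 (K.subtypeₗᵢ.comp U'.symm.toLinearIsometry) (lam H') φ' e' (fun ξ => ?_) (hs g)
  have := e g (U (U'.symm ξ))
  simpa using this

end

theorem vn_weak {H₁ H₂ : Type} [Group H₁] [Group H₂] {E : Type} [NormedAddCommGroup E] [InnerProductSpace ℂ E] [CompleteSpace E]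
    (Ω : E) (hΩ : ‖Ω‖ = 1) (φ₁ : H₁ →* (E →L[ℂ] E)) (φ₂ : H₂ →* (E →L[ℂ] E))
    (u₁ : ∀ h, φ₁ h ∈ unitary (E →L[ℂ] E)) (u₂ : ∀ h, φ₂ h ∈ unitary (E →L[ℂ] E))
    (t₁ : ∀ h, h ≠ 1 → inner ℂ Ω (φ₁ h Ω) = 0) (t₂ : ∀ h, h ≠ 1 → inner ℂ Ω (φ₂ h Ω) = 0)
    (h12 : ∀ h, φ₁ h ∈ weakClosure (opSpan (Set.range φ₂)))
    (h21 : ∀ h, φ₂ h ∈ weakClosure (opSpan (Set.range φ₁))) : VNIso H₁ H₂ := by
  have hK : (Submodule.span ℂ (Set.range fun h => φ₁ h Ω)).topologicalClosure =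
      (Submodule.span ℂ (Set.range fun h => φ₂ h Ω)).topologicalClosure := by
    apply le_antisymm
    · refine Submodule.topologicalClosure_minimal _ ?_ (Submodule.isClosed_topologicalClosure _)
      rw [Submodule.span_le]
      rintro _ ⟨h, rfl⟩
      exact vec_vn1 φ₂ Ω (h12 h)
    · refine Submodule.topologicalClosure_minimal _ ?_ (Submodule.isClosed_topologicalClosure _)
      rw [Submodule.span_le]
      rintro _ ⟨h, rfl⟩
      exact vec_vn1 φ₁ Ω (h21 h)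
  obtain ⟨U₁, h1⟩ := basis_vn1 Ω hΩ φ₁ u₁ t₁ _ rfl
  obtain ⟨U₂, h2⟩ := basis_vn1 Ω hΩ φ₂ u₂ t₂ _ hK
  refine ⟨(U₁.symm.trans U₂).conjStarAlgEquiv, ⟨maps_vn1 _ U₁ U₂ φ₁ φ₂ h1 h2 h12,
    (U₁.symm.trans U₂).conjStarAlgEquiv.injective.injOn, fun T hT => ?_⟩,
    fun x _ y _ => ⟨map_add _ _ _, map_mul _ _ _, map_star _ _, fun c => map_smul _ _ _⟩⟩
  refine ⟨_, maps_vn1 _ U₂ U₁ φ₂ φ₁ h2 h1 h21 T hT, ?_⟩
  ext1 ξ
  simp

end Pool.Agent.MP_434e52_an.TF
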