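import Pool.Agent.MP_434e52_an.TF.VN1

/-! Torsion-free twins: row VN2. The model on the square integrable functions on `Q × Z`. -/

set_option autoImplicit false

namespace Pool.Agent.MP_434e52_an.TF

open Matrix Filter Topology MeasureTheory NL

theorem exists_op_vn2 {X : Type} [MeasurableSpace X] (ν : Measure X) (f : X → ℂ)
    (hf : Measurable f) (nf : ∀ x, ‖f x‖ = 1) (τ : X → X) (hτ : MeasurePreserving τ ν ν) :
    ∃ T : Lp ℂ 2 ν →L[ℂ] Lp ℂ 2 ν,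
      (∀ ξ : Lp ℂ 2 ν, (T ξ : X → ℂ) =ᵐ[ν] fun x => f x * ξ (τ x)) ∧ ∀ ξ, ‖T ξ‖ = ‖ξ‖ := by
  have hm : MemLp f ⊤ ν :=
    memLp_top_of_bound hf.aestronglyMeasurable 1 (Eventually.of_forall fun x => (nf x).le)
  have key : ∀ ξ : Lp ℂ 2 ν,
      (((ContinuousLinearMap.mul ℂ ℂ).holder 2 (hm.toLp f)
        (Lp.compMeasurePreserving τ hτ ξ) : Lp ℂ 2 ν) : X → ℂ) =ᵐ[ν] fun x => f x * ξ (τ x) := by
    intro ξ
    filter_upwards [(ContinuousLinearMap.mul ℂ ℂ).coeFn_holder (r := 2) (hm.toLp f)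
      (Lp.compMeasurePreserving τ hτ ξ), hm.coeFn_toLp,
      Lp.coeFn_compMeasurePreserving ξ hτ] with x h1 h2 h3
    rw [h1, h2, h3]
    rfl
  refine ⟨((ContinuousLinearMap.mul ℂ ℂ).holderL ν ⊤ 2 2 (hm.toLp f)).comp
    (Lp.compMeasurePreservingₗᵢ ℂ τ hτ).toContinuousLinearMap, key, fun ξ => ?_⟩
  rw [← Lp.norm_compMeasurePreserving ξ hτ, Lp.norm_def, Lp.norm_def]
  refine congrArg ENNReal.toReal (eLpNorm_congr_norm_ae ?_)
  filter_upwards [key ξ, Lp.coeFn_compMeasurePreserving ξ hτ] with x h1 h3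
  have h4 : (((ContinuousLinearMap.mul ℂ ℂ).holderL ν ⊤ 2 2 (hm.toLp f)).comp
    (Lp.compMeasurePreservingₗᵢ ℂ τ hτ).toContinuousLinearMap) ξ =
      (ContinuousLinearMap.mul ℂ ℂ).holder 2 (hm.toLp f) (Lp.compMeasurePreserving τ hτ ξ) := rfl
  rw [h4, h1, h3, norm_mul, nf, one_mul]
  rfl

theorem exists_rep_vn2 {X Z Q H : Type} [MeasurableSpace X] [MeasurableSpace Z] [Group Q] [Group H]
    (ν : Measure X) (μ : Measure Z) (act : Q → Z → Z) (a1 : ∀ s, act 1 s = s)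
    (τ : Q → X → X) (hτ : ∀ g, MeasurePreserving (τ g) ν ν) (t1 : ∀ x, τ 1 x = x)
    (tm : ∀ g h x, τ (g * h) x = τ h (τ g x)) (π : X → Z) (hπ : Measurable π)
    (tπ : ∀ g x, π (τ g x) = act g⁻¹ (π x)) (M : Coc μ act H) :
    ∃ φ : H →* (Lp ℂ 2 ν →L[ℂ] Lp ℂ 2 ν),
      (∀ h (ξ : Lp ℂ 2 ν), (φ h ξ : X → ℂ) =ᵐ[ν] fun x => M.F h (π x) * ξ (τ (M.p h) x)) ∧
        ∀ h, φ h ∈ unitary (Lp ℂ 2 ν →L[ℂ] Lp ℂ 2 ν) := by
  choose T hT hN using fun h : H => exists_op_vn2 ν (fun x => M.F h (π x))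
    ((M.meas h).comp hπ) (fun x => M.nrm h (π x)) (τ (M.p h)) (hτ (M.p h))
  have F1 : ∀ s, M.F 1 s = 1 := by
    intro s
    have h := M.coc 1 1 s
    rw [mul_one, map_one, inv_one, a1] at h
    have h0 : M.F 1 s ≠ 0 := by
      intro h0
      have := M.nrm 1 s
      rw [h0, norm_zero] at this
      exact zero_ne_one this
    exact (mul_left_cancel₀ h0 (by rw [← h, mul_one])).symm
  have T1 : T 1 = 1 := by
    refine ContinuousLinearMap.ext fun ξ => Lp.ext ?_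
    filter_upwards [hT 1 ξ] with x h1
    rw [h1, F1, map_one, t1, one_mul]
    rfl
  have Tm : ∀ a b, T (a * b) = T a * T b := by
    intro a b
    refine ContinuousLinearMap.ext fun ξ => Lp.ext ?_
    filter_upwards [hT (a * b) ξ, hT a (T b ξ),
      (hτ (M.p a)).quasiMeasurePreserving.ae_eq_comp (hT b ξ)] with x h1 h2 h3
    have h4 : (T a * T b) ξ = T a (T b ξ) := rfl
    simp only [Function.comp] at h3
    rw [h4, h1, h2, h3, M.coc, map_mul, tm, tπ, mul_assoc]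
  refine ⟨⟨⟨T, T1⟩, Tm⟩, hT, fun h => ?_⟩
  have e1 : star (T h) * T h = 1 := (T h).norm_map_iff_adjoint_comp_self.mp (hN h)
  have e2 : T h * T h⁻¹ = 1 := by rw [← Tm, mul_inv_cancel, T1]
  have e3 : star (T h) = T h⁻¹ := by
    rw [← mul_one (star (T h)), ← e2, ← mul_assoc, e1, one_mul]
  exact ⟨e1, by
    show T h * star (T h) = 1
    rw [e3, e2]⟩

theorem weak_vn2 {X Z Q H₁ H₂ : Type} [MeasurableSpace X] [MeasurableSpace Z] [Group Q]
    [Group H₁] [Group H₂] (ν : Measure X) (μ : Measure Z) (act : Q → Z → Z)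
    (τ : Q → X → X) (t1 : ∀ x, τ 1 x = x) (π : X → Z) (M₁ : Coc μ act H₁) (M₂ : Coc μ act H₂)
    (φ₁ : H₁ →* (Lp ℂ 2 ν →L[ℂ] Lp ℂ 2 ν)) (φ₂ : H₂ →* (Lp ℂ 2 ν →L[ℂ] Lp ℂ 2 ν))
    (r₁ : ∀ h (ξ : Lp ℂ 2 ν), (φ₁ h ξ : X → ℂ) =ᵐ[ν] fun x => M₁.F h (π x) * ξ (τ (M₁.p h) x))
    (r₂ : ∀ h (ξ : Lp ℂ 2 ν), (φ₂ h ξ : X → ℂ) =ᵐ[ν] fun x => M₂.F h (π x) * ξ (τ (M₂.p h) x))
    (a : H₁) (b : H₂) (hp : M₂.p b = M₁.p a)
    (hl : Lim (M₂.F '' {z | M₂.p z = 1}) fun s => M₁.F a s * (starRingEnd ℂ) (M₂.F b s)) :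
    φ₁ a ∈ weakClosure (opSpan (Set.range φ₂)) := by
  obtain ⟨p, C, hp1, hp2, hp3⟩ := hl
  have hA : ∀ f ∈ Submodule.span ℂ (M₂.F '' {z | M₂.p z = 1}),
      ∃ A ∈ Submodule.span ℂ (Set.range φ₂), ∀ ξ : Lp ℂ 2 ν,
        (A ξ : X → ℂ) =ᵐ[ν] fun x => f (π x) * (φ₂ b ξ : X → ℂ) x := by
    intro f hf
    induction hf using Submodule.span_induction with
    | mem f hf =>
      obtain ⟨z, hz, rfl⟩ := hf
      refine ⟨φ₂ (z * b), Submodule.subset_span ⟨_, rfl⟩, fun ξ => ?_⟩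
      have h4 : φ₂ (z * b) ξ = φ₂ z (φ₂ b ξ) := by rw [map_mul]; rfl
      have hz1 : M₂.p z = 1 := hz
      filter_upwards [r₂ z (φ₂ b ξ)] with x h1
      rw [h4, h1, hz1, t1]
    | zero =>
      refine ⟨0, Submodule.zero_mem _, fun ξ => ?_⟩
      filter_upwards [Lp.coeFn_zero ℂ 2 ν] with x h1
      have h4 : (0 : Lp ℂ 2 ν →L[ℂ] Lp ℂ 2 ν) ξ = 0 := rfl
      rw [h4, h1]
      simp
    | add f g _ _ h1 h2 =>
      obtain ⟨A, hA1, hA2⟩ := h1
      obtain ⟨B, hB1, hB2⟩ := h2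
      refine ⟨A + B, Submodule.add_mem _ hA1 hB1, fun ξ => ?_⟩
      filter_upwards [hA2 ξ, hB2 ξ, Lp.coeFn_add (A ξ) (B ξ)] with x h1 h2 h3
      have h4 : (A + B) ξ = A ξ + B ξ := rfl
      rw [h4, h3, Pi.add_apply, h1, h2, Pi.add_apply, add_mul]
    | smul c f _ h1 =>
      obtain ⟨A, hA1, hA2⟩ := h1
      refine ⟨c • A, Submodule.smul_mem _ c hA1, fun ξ => ?_⟩
      filter_upwards [hA2 ξ, Lp.coeFn_smul c (A ξ)] with x h1 h3
      have h4 : (c • A) ξ = c • A ξ := rfl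
      rw [h4, h3, Pi.smul_apply, h1, Pi.smul_apply, smul_eq_mul, smul_eq_mul, mul_assoc]
  choose A hA1 hA2 using fun n => hA (p n) (hp1 n)
  have hlim : ∀ ξ η : Lp ℂ 2 ν,
      Tendsto (fun n => inner ℂ η (A n ξ)) atTop (𝓝 (inner ℂ η (φ₁ a ξ))) := by
    intro ξ η
    simp only [L2.inner_def]
    refine tendsto_integral_of_dominated_convergence
      (fun x => C * ‖inner ℂ (η x) ((φ₂ b ξ : X → ℂ) x)‖)
      (fun n => (L2.integrable_inner η (A n ξ)).aestronglyMeasurable)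
      ((L2.integrable_inner η (φ₂ b ξ)).norm.const_mul C) (fun n => ?_) ?_
    · filter_upwards [hA2 n ξ] with x h1
      rw [h1, ← smul_eq_mul, inner_smul_right, norm_mul]
      exact mul_le_mul_of_nonneg_right (hp2 n _) (norm_nonneg _)
    · filter_upwards [ae_all_iff.mpr fun n => hA2 n ξ, r₁ a ξ, r₂ b ξ] with x h1 h2 h3
      have h5 : (φ₁ a ξ : X → ℂ) x =
          (M₁.F a (π x) * (starRingEnd ℂ) (M₂.F b (π x))) * (φ₂ b ξ : X → ℂ) x := by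
        have h6 : (starRingEnd ℂ) (M₂.F b (π x)) * M₂.F b (π x) = 1 := by
          rw [Complex.conj_mul', M₂.nrm]
          norm_num
        rw [h2, h3, hp, mul_assoc, ← mul_assoc ((starRingEnd ℂ) _), h6, one_mul]
      simp only [h1, h5]
      exact Tendsto.inner tendsto_const_nhds ((hp3 (π x)).mul_const _)
  intro n ξ η ε hε
  have hev : ∀ᶠ k in atTop, ∀ i : Fin n,
      ‖inner ℂ (η i) (φ₁ a (ξ i) - A k (ξ i))‖ < ε := by
    refine eventually_all.mpr fun i => ?_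
    filter_upwards [Metric.tendsto_nhds.mp (hlim (ξ i) (η i)) ε hε] with k hk
    rw [inner_sub_right, norm_sub_rev, ← dist_eq_norm]
    exact hk
  obtain ⟨k, hk⟩ := hev.exists
  exact ⟨A k, hA1 k, hk⟩

theorem vn_coc {Z Q H₁ H₂ : Type} [MeasurableSpace Z] [Group Q] [Countable Q] [Group H₁] [Group H₂]
    (μ : Measure Z) [IsProbabilityMeasure μ] (act : Q → Z → Z) (a1 : ∀ s, act 1 s = s)
    (am : ∀ g h s, act (g * h) s = act g (act h s)) (ame : ∀ g, Measurable (act g))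
    (M₁ : Coc μ act H₁) (M₂ : Coc μ act H₂)
    (h12 : ∀ x : H₁, ∃ y : H₂, M₂.p y = M₁.p x ∧
      Lim (M₂.F '' {z | M₂.p z = 1}) fun s => M₁.F x s * (starRingEnd ℂ) (M₂.F y s))
    (h21 : ∀ x : H₂, ∃ y : H₁, M₁.p y = M₂.p x ∧
      Lim (M₁.F '' {z | M₁.p z = 1}) fun s => M₂.F x s * (starRingEnd ℂ) (M₁.F y s)) :
    VNIso H₁ H₂ := by
  classical
  let _ : MeasurableSpace Q := ⊤
  have : DiscreteMeasurableSpace Q := ⟨fun _ => trivial⟩
  have : MeasurableMul Q := ⟨fun _ => Measurable.of_discrete, fun _ => Measurable.of_discrete⟩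
  let ν : Measure (Q × Z) := (Measure.count : Measure Q).prod μ
  let τ : Q → Q × Z → Q × Z := fun g => Prod.map (fun h => g⁻¹ * h) id
  let π : Q × Z → Z := fun x => act x.1 x.2
  have hτ : ∀ g, MeasurePreserving (τ g) ν ν := fun g =>
    (measurePreserving_mul_left (Measure.count : Measure Q) g⁻¹).prod (MeasurePreserving.id μ)
  have t1 : ∀ x, τ 1 x = x := fun x => by simp [τ, Prod.map]
  have tm : ∀ g h x, τ (g * h) x = τ h (τ g x) := fun g h x => by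
    simp [τ, Prod.map, mul_assoc]
  have hπ : Measurable π := measurable_from_prod_countable_right fun g => ame g
  have tπ : ∀ g x, π (τ g x) = act g⁻¹ (π x) := fun g x => am g⁻¹ x.1 x.2
  obtain ⟨φ₁, r₁, u₁⟩ := exists_rep_vn2 ν μ act a1 τ hτ t1 tm π hπ tπ M₁
  obtain ⟨φ₂, r₂, u₂⟩ := exists_rep_vn2 ν μ act a1 τ hτ t1 tm π hπ tπ M₂
  let s : Set (Q × Z) := ({1} : Set Q) ×ˢ (Set.univ : Set Z)
  have hs : MeasurableSet s := (measurableSet_singleton _).prod MeasurableSet.univ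
  have hν : ν s = 1 := by simp [ν, s, Measure.prod_prod]
  have hν' : ν s ≠ ⊤ := by rw [hν]; exact ENNReal.one_ne_top
  have hres : ν.restrict s = μ.map (Prod.mk 1) := by
    rw [← Measure.dirac_prod, ← Measure.prod_restrict, Measure.restrict_singleton,
      Measure.count_singleton, one_smul, Measure.restrict_univ]
  let Ω : Lp ℂ 2 ν := indicatorConstLp 2 hs hν' (1 : ℂ)
  have hΩ : ‖Ω‖ = 1 := by
    rw [norm_indicatorConstLp (by norm_num) (by norm_num), measureReal_def, hν]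
    simp
  have htr : ∀ {H : Type} [Group H] (M : Coc μ act H) (φ : H →* (Lp ℂ 2 ν →L[ℂ] Lp ℂ 2 ν)),
      (∀ h (ξ : Lp ℂ 2 ν), (φ h ξ : Q × Z → ℂ) =ᵐ[ν] fun x => M.F h (π x) * ξ (τ (M.p h) x)) →
      ∀ h, h ≠ 1 → inner ℂ Ω (φ h Ω) = 0 := by
    intro H _ M φ r h hh
    have e1 : (φ h Ω : Q × Z → ℂ) =ᵐ[ν]
        fun x => M.F h (π x) * s.indicator (fun _ => (1 : ℂ)) (τ (M.p h) x) := by
      filter_upwards [r h Ω, (hτ (M.p h)).quasiMeasurePreserving.ae_eq_comp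
        (indicatorConstLp_coeFn (p := 2) (hs := hs) (hμs := hν') (c := (1 : ℂ)))] with x h1 h2
      simp only [Function.comp] at h2
      rw [h1, h2]
    rw [L2.inner_indicatorConstLp_one, integral_congr_ae (ae_restrict_of_ae e1), hres,
      (measurableEmbedding_prodMk_left (1 : Q)).integral_map]
    by_cases hg : M.p h = 1
    · simpa [π, τ, s, hg, a1] using M.tr h hh hg
    · simp [τ, s, hg]
  refine vn_weak Ω hΩ φ₁ φ₂ u₁ u₂ (htr M₁ φ₁ r₁) (htr M₂ φ₂ r₂) (fun h => ?_) (fun h => ?_)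
  · obtain ⟨y, hy, hl⟩ := h12 h
    exact weak_vn2 ν μ act τ t1 π M₁ M₂ φ₁ φ₂ r₁ r₂ h y hy hl
  · obtain ⟨y, hy, hl⟩ := h21 h
    exact weak_vn2 ν μ act τ t1 π M₂ M₁ φ₂ φ₁ r₂ r₁ h y hy hl

end Pool.Agent.MP_434e52_an.TF
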